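import Pool.Agent.LibJ91.Defs

open Polynomial Finset

namespace J91

theorem nrm_nonneg (P : ℤ[X]) : 0 ≤ nrm P :=
  Finset.sum_nonneg fun _ _ => abs_nonneg _

theorem nrm_eq_sum (P : ℤ[X]) (m : ℕ) (h : P.natDegree ≤ m) :
    nrm P = ∑ i ∈ range (m + 1), |(P.coeff i : ℝ)| := by
  rw [nrm]
  apply Finset.sum_subset
  · intro i hi
    rw [Finset.mem_range]
    exact Nat.lt_succ_of_le ((le_natDegree_of_mem_supp i hi).trans h)
  · intro i _ hi
    rw [notMem_support_iff.1 hi]
    simp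

theorem nrm_zero : nrm 0 = 0 := by simp [nrm]

theorem nrm_one : nrm 1 = 1 := by
  rw [nrm_eq_sum 1 0 (by simp)]
  simp

theorem nrm_add_le (P Q : ℤ[X]) : nrm (P + Q) ≤ nrm P + nrm Q := by
  have hP : P.natDegree ≤ max P.natDegree Q.natDegree := le_max_left _ _
  have hQ : Q.natDegree ≤ max P.natDegree Q.natDegree := le_max_right _ _
  have hPQ : (P + Q).natDegree ≤ max P.natDegree Q.natDegree := natDegree_add_le _ _
  rw [nrm_eq_sum _ _ hP, nrm_eq_sum _ _ hQ, nrm_eq_sum _ _ hPQ, ← Finset.sum_add_distrib]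
  apply Finset.sum_le_sum
  intro i _
  rw [coeff_add]
  push_cast
  exact abs_add_le _ _

theorem nrm_neg (P : ℤ[X]) : nrm (-P) = nrm P := by
  unfold nrm
  rw [support_neg]
  exact Finset.sum_congr rfl fun i _ => by rw [coeff_neg]; push_cast; rw [abs_neg]

theorem nrm_sub_le (P Q : ℤ[X]) : nrm (P - Q) ≤ nrm P + nrm Q := by
  rw [sub_eq_add_neg, ← nrm_neg Q]
  exact nrm_add_le _ _

theorem nrm_sum_le {ι : Type*} (s : Finset ι) (f : ι → ℤ[X]) :
    nrm (∑ i ∈ s, f i) ≤ ∑ i ∈ s, nrm (f i) := by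
  classical
  induction s using Finset.induction_on with
  | empty => simp [nrm_zero]
  | insert a s ha ih =>
    rw [Finset.sum_insert ha, Finset.sum_insert ha]
    exact (nrm_add_le _ _).trans (by gcongr)

theorem nrm_X_pow_mul (j : ℕ) (P : ℤ[X]) : nrm (X ^ j * P) = nrm P := by
  have h1 : (X ^ j * P).natDegree ≤ j + P.natDegree :=
    natDegree_mul_le.trans (by simp)
  rw [nrm_eq_sum _ _ h1, nrm_eq_sum P _ le_rfl, add_assoc, Finset.sum_range_add]
  have h2 : ∑ x ∈ range j, |((X ^ j * P).coeff x : ℝ)| = 0 := by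
    apply Finset.sum_eq_zero
    intro x hx
    rw [coeff_X_pow_mul', if_neg (by rw [Finset.mem_range] at hx; omega)]
    simp
  rw [h2, zero_add]
  apply Finset.sum_congr rfl
  intro x _
  rw [coeff_X_pow_mul', if_pos (by omega), Nat.add_sub_cancel_left]

theorem nrm_C_mul (a : ℤ) (P : ℤ[X]) : nrm (C a * P) = |(a : ℝ)| * nrm P := by
  rw [nrm_eq_sum (C a * P) P.natDegree (natDegree_C_mul_le a P), nrm_eq_sum P _ le_rfl,
    Finset.mul_sum]
  apply Finset.sum_congr rfl
  intro x _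
  rw [coeff_C_mul]
  push_cast
  rw [abs_mul]

theorem nrm_mul_le (P Q : ℤ[X]) : nrm (P * Q) ≤ nrm P * nrm Q := by
  have h1 : P * Q = ∑ i ∈ P.support, C (P.coeff i) * (X ^ i * Q) := by
    conv_lhs => rw [P.as_sum_support_C_mul_X_pow, Finset.sum_mul]
    apply Finset.sum_congr rfl
    intro i _
    ring
  rw [h1]
  refine (nrm_sum_le _ _).trans ?_
  conv_rhs => rw [nrm, Finset.sum_mul]
  apply Finset.sum_le_sum
  intro i _
  rw [nrm_C_mul, nrm_X_pow_mul]

theorem nrm_derivative_le (P : ℤ[X]) (m : ℕ) (h : P.natDegree ≤ m) :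
    nrm (derivative P) ≤ m * nrm P := by
  have h1 : (derivative P).natDegree ≤ P.natDegree - 1 := natDegree_derivative_le P
  rw [nrm_eq_sum (derivative P) P.natDegree (by omega)]
  have h2 : ∑ i ∈ range (P.natDegree + 1), |((derivative P).coeff i : ℝ)| ≤
      ∑ i ∈ range (P.natDegree + 1), (m : ℝ) * |(P.coeff (i + 1) : ℝ)| := by
    apply Finset.sum_le_sum
    intro i hi
    rw [coeff_derivative]
    push_cast
    rw [abs_mul, mul_comm]
    by_cases hi2 : i + 1 ≤ m
    · have h3 : |(i : ℝ) + 1| ≤ m := by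
        rw [abs_of_nonneg (by positivity)]
        exact_mod_cast hi2
      exact mul_le_mul_of_nonneg_right h3 (abs_nonneg _)
    · have h3 : P.coeff (i + 1) = 0 := coeff_eq_zero_of_natDegree_lt (by omega)
      rw [h3]
      simp
  refine h2.trans ?_
  rw [← Finset.mul_sum]
  apply mul_le_mul_of_nonneg_left _ (Nat.cast_nonneg m)
  have h4 : nrm P = ∑ i ∈ range (P.natDegree + 1 + 1), |(P.coeff i : ℝ)| :=
    nrm_eq_sum P _ (by omega)
  have h5 := Finset.sum_range_succ' (fun i => |(P.coeff i : ℝ)|) (P.natDegree + 1)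
  have := abs_nonneg ((P.coeff 0 : ℤ) : ℝ)
  rw [h4, h5]
  linarith

end J91
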