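import Pool.Agent.LibJ91.F1
import Pool.Agent.LibJ91.L1

open Polynomial

namespace J91

private theorem F2_coeff (a : ℕ → ℤ) (m i : ℕ) :
    (∑ j ∈ Finset.range (m + 1), C (a j) * X ^ j : ℤ[X]).coeff i = if i ≤ m then a i else 0 := by
  rw [Polynomial.finsetSum_coeff]
  simp only [Polynomial.coeff_C_mul_X_pow]
  split_ifs with h
  · rw [Finset.sum_eq_single i]
    · simp
    · intro b _ hb
      rw [if_neg (fun h' => hb h'.symm)]
    · intro h'
      exact absurd (Finset.mem_range.2 (Nat.lt_succ_of_le h)) h'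
  · apply Finset.sum_eq_zero
    intro j hj
    rw [if_neg]
    intro h'
    apply h
    rw [h']
    exact Nat.le_of_lt_succ (Finset.mem_range.1 hj)

private theorem F2_natDegree (a : ℕ → ℤ) (m : ℕ) :
    (∑ j ∈ Finset.range (m + 1), C (a j) * X ^ j : ℤ[X]).natDegree ≤ m := by
  rw [Polynomial.natDegree_le_iff_coeff_eq_zero]
  intro i hi
  rw [F2_coeff, if_neg (by omega)]

private theorem F2_geom (A n : ℕ) :
    ∑ j ∈ Finset.range (n + 1), (2 : ℝ) ^ (A + j) ≤ 2 ^ (A + n + 1) := by
  induction n with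
  | zero =>
    simp
    rw [pow_succ]
    have : (0 : ℝ) < 2 ^ A := by positivity
    linarith
  | succ n ih =>
    rw [Finset.sum_range_succ]
    have h1 : (2 : ℝ) ^ (A + (n + 1) + 1) = 2 ^ (A + n + 1) + 2 ^ (A + (n + 1)) := by
      rw [show A + (n + 1) + 1 = (A + n + 1) + 1 from by ring,
        show A + (n + 1) = A + n + 1 from by ring, pow_succ]
      ring
    rw [h1]
    linarith

/-- Row F2. `q` is the truncation of the power series `p f` in degree `n₂`
(`q = ∑ i ∈ range (n₂ + 1), C (...) * X ^ i`). Divisibility: in `ℤ⟦X⟧`,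
`RR = (1 + X) ^ z * (p f - q)` by `fc_mul` (coerce the polynomials, `Polynomial.coe_mul` ...), and
the coefficients of `p f - q` (`PowerSeries.coeff_mul`, antidiagonal sums as range sums) vanish up to
`n₂ + c`; `X ^ l ∣ f ↔ ∀ i < l, coeff i f = 0` holds for polynomials (`Polynomial.X_pow_dvd_iff`) and
power series (`PowerSeries.X_pow_dvd_iff`). Norm: `∑ i ≤ n₂, ∑ l ≤ i, |p l| |fc (i - l)| ≤
nrm p * ∑ j ≤ n₂, |fc j| ≤ nrm p * 2 ^ (y + z + n₂ + 1)` by `fc_size`. -/
theorem exists_q {y z : ℕ} (hz : 1 ≤ z) (p : ℤ[X]) (n₂ c : ℕ)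
    (h : ∀ i, n₂ < i → i ≤ n₂ + c →
      ∑ l ∈ Finset.range (i + 1), p.coeff l * fc y z (i - l) = 0) :
    ∃ q : ℤ[X], q.natDegree ≤ n₂ ∧ X ^ (n₂ + c + 1) ∣ RR y z p q ∧
      nrm q ≤ nrm p * 2 ^ (y + z + n₂ + 1) ∧
      ∀ i ≤ n₂, q.coeff i = ∑ l ∈ Finset.range (i + 1), p.coeff l * fc y z (i - l) := by
  have hqc := F2_coeff (fun i => ∑ l ∈ Finset.range (i + 1), p.coeff l * fc y z (i - l)) n₂
  have hqd := F2_natDegree (fun i => ∑ l ∈ Finset.range (i + 1), p.coeff l * fc y z (i - l)) n₂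
  set q : ℤ[X] := ∑ i ∈ Finset.range (n₂ + 1),
    C (∑ l ∈ Finset.range (i + 1), p.coeff l * fc y z (i - l)) * X ^ i with hq
  have hqi : ∀ i ≤ n₂, q.coeff i = ∑ l ∈ Finset.range (i + 1), p.coeff l * fc y z (i - l) := by
    intro i hi
    rw [hqc i, if_pos hi]
  refine ⟨q, hqd, ?_, ?_, hqi⟩
  · -- divisibility
    have h1 : (RR y z p q : PowerSeries ℤ) =
        ((p : PowerSeries ℤ) * PowerSeries.mk (fc y z) - (q : PowerSeries ℤ)) *
          (1 + PowerSeries.X) ^ z := by
      rw [RR]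
      simp only [Polynomial.coe_sub, Polynomial.coe_mul, Polynomial.coe_pow, Polynomial.coe_add,
        Polynomial.coe_one, Polynomial.coe_X]
      rw [← fc_mul y hz]
      ring
    have h2 : (PowerSeries.X : PowerSeries ℤ) ^ (n₂ + c + 1) ∣
        ((p : PowerSeries ℤ) * PowerSeries.mk (fc y z) - (q : PowerSeries ℤ)) := by
      rw [PowerSeries.X_pow_dvd_iff]
      intro i hi
      have h3 : PowerSeries.coeff i ((p : PowerSeries ℤ) * PowerSeries.mk (fc y z)) =
          ∑ l ∈ Finset.range (i + 1), p.coeff l * fc y z (i - l) := by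
        rw [PowerSeries.coeff_mul,
          Finset.Nat.sum_antidiagonal_eq_sum_range_succ_mk]
        apply Finset.sum_congr rfl
        intro l _
        simp
      rw [map_sub, h3, Polynomial.coeff_coe, hqc i]
      split_ifs with h4
      · simp
      · rw [h i (by omega) (by omega)]
        simp
    have h5 : (PowerSeries.X : PowerSeries ℤ) ^ (n₂ + c + 1) ∣ (RR y z p q : PowerSeries ℤ) := by
      rw [h1]
      exact Dvd.dvd.mul_right h2 _
    rw [Polynomial.X_pow_dvd_iff]
    intro i hi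
    rw [PowerSeries.X_pow_dvd_iff] at h5
    have := h5 i hi
    rwa [Polynomial.coeff_coe] at this
  · -- norm
    have hFc := F2_coeff (fun j => fc y z j) n₂
    have hFd := F2_natDegree (fun j => fc y z j) n₂
    set F : ℤ[X] := ∑ j ∈ Finset.range (n₂ + 1), C (fc y z j) * X ^ j with hF
    have h1 : ∀ i ∈ Finset.range (n₂ + 1), q.coeff i = (p * F).coeff i := by
      intro i hi
      rw [Finset.mem_range] at hi
      rw [hqi i (by omega), Polynomial.coeff_mul,
        Finset.Nat.sum_antidiagonal_eq_sum_range_succ_mk]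
      apply Finset.sum_congr rfl
      intro l _
      dsimp only
      rw [hFc (i - l), if_pos (by omega)]
    have h2 : nrm q ≤ nrm (p * F) := by
      rw [nrm_eq_sum q n₂ hqd, nrm_eq_sum (p * F) (max (p * F).natDegree n₂) (le_max_left _ _)]
      have h3 : ∑ i ∈ Finset.range (n₂ + 1), |(q.coeff i : ℝ)| =
          ∑ i ∈ Finset.range (n₂ + 1), |((p * F).coeff i : ℝ)| := by
        apply Finset.sum_congr rfl
        intro i hi
        rw [h1 i hi]
      rw [h3]
      apply Finset.sum_le_sum_of_subset_of_nonneg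
      · intro i hi
        rw [Finset.mem_range] at hi ⊢
        have := le_max_right (p * F).natDegree n₂
        omega
      · intro i _ _
        exact abs_nonneg _
    have h4 : nrm F ≤ 2 ^ (y + z + n₂ + 1) := by
      rw [nrm_eq_sum F n₂ hFd]
      refine le_trans (Finset.sum_le_sum (g := fun j => (2 : ℝ) ^ ((y + z) + j)) ?_)
        (F2_geom (y + z) n₂)
      intro j hj
      rw [Finset.mem_range] at hj
      rw [hFc j, if_pos (by omega)]
      obtain ⟨G, _, hG, hfc⟩ := fc_size y hz j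
      rw [hfc]
      push_cast
      rw [abs_mul, abs_pow, abs_neg, abs_one, one_pow, one_mul, abs_of_nonneg (Nat.cast_nonneg G)]
      exact_mod_cast hG
    calc nrm q ≤ nrm (p * F) := h2
      _ ≤ nrm p * nrm F := nrm_mul_le p F
      _ ≤ nrm p * 2 ^ (y + z + n₂ + 1) := mul_le_mul_of_nonneg_left h4 (nrm_nonneg p)

end J91
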