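import Pool.Agent.LibJ91.D1
import Pool.Agent.LibJ91.F2

open Polynomial

namespace J91

/-- Row B1. Small exponents: the form with `p = 1` vanishes. `exists_q` with `p = 1`, `n₂ = n`,
`c = 0` gives `q` with `q.coeff j = fc y z j` for `j ≤ n` and `X ^ (n + 1) ∣ RR y z 1 q`.
`EE_dvd` with `m = n + 1`, `N = n`, `e = x ≤ 2 (n + 1)`: `r ^ x` divides
`EE y d G k 1 q n (r²) (s²) = k ^ d s ^ (2 (d + n)) - (-1) ^ y G ∑ j, fc y z j r ^ (2 j) s ^ (2 (n - j))`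
(`hom_one`), whose absolute value is at most `k ^ d s ^ (2 (d + n)) + 2 ^ (4 x) r ^ (2 n) < r ^ x`
(`|fc y z j| ≤ 2 ^ (y + z + j)` by `fc_size`, `G ≤ 2 ^ x`,
`x + y + z + n + 1 ≤ 4 x`). So it is `0` (`Int.eq_zero_of_abs_lt_dvd`). -/
theorem small_EE {r s k G x y z d n : ℕ} (hs : 1 ≤ s) (hsr : s < r) (hcop : r.Coprime s)
    (hyz : y + d = z) (hz : 1 ≤ z) (hzx : z < x) (hn : n = (x - 1) / 2) (hG2 : G ≤ 2 ^ x)
    (hdiv : (r : ℤ) ^ x ∣ (k : ℤ) ^ d * ((r : ℤ) ^ 2 + (s : ℤ) ^ 2) ^ z -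
      (G : ℤ) * ((r : ℤ) ^ 2 - (s : ℤ) ^ 2) ^ y)
    (hlt : (k : ℝ) ^ d * (s : ℝ) ^ (2 * (d + n)) + 2 ^ (4 * x) * (r : ℝ) ^ (2 * n) < (r : ℝ) ^ x) :
    (k : ℤ) ^ d * (s : ℤ) ^ (2 * (d + n)) = (-1) ^ y * G *
      ∑ j ∈ Finset.range (n + 1), fc y z j * (r : ℤ) ^ (2 * j) * (s : ℤ) ^ (2 * (n - j)) := by
  have hsZ : (0 : ℤ) < (s : ℤ) := by exact_mod_cast hs
  have hsrZ : (s : ℤ) < (r : ℤ) := by exact_mod_cast hsr
  have hcopZ : IsCoprime (r : ℤ) (s : ℤ) := Nat.isCoprime_iff_coprime.mpr hcop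
  obtain ⟨q, hq, hR, -, hqc⟩ := exists_q (y := y) (z := z) hz 1 n 0 (by
    intro i h1 h2
    omega)
  have hqc' : ∀ i ≤ n, q.coeff i = fc y z i := by
    intro i hi
    rw [hqc i hi, Finset.sum_eq_single 0]
    · simp
    · intro l _ hl
      rw [coeff_one, if_neg hl, zero_mul]
    · intro h
      simp at h
  have hdvd := EE_dvd (k := (k : ℤ)) (G := (G : ℤ)) (d := d) (m := n + 0 + 1) (N := n) (e := x)
    (p := 1) (q := q) hsZ.ne' hcopZ hyz hdiv (by simp) hq hR (by omega) le_rfl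
  -- the value of EE
  have hEE : EE y d (G : ℤ) (k : ℤ) 1 q n ((r : ℤ) ^ 2) ((s : ℤ) ^ 2) =
      (k : ℤ) ^ d * (s : ℤ) ^ (2 * (d + n)) - (-1) ^ y * G *
      ∑ j ∈ Finset.range (n + 1), fc y z j * (r : ℤ) ^ (2 * j) * (s : ℤ) ^ (2 * (n - j)) := by
    unfold EE
    rw [hom_one]
    have h1 : hom q n ((r : ℤ) ^ 2) ((s : ℤ) ^ 2) =
        ∑ j ∈ Finset.range (n + 1), fc y z j * (r : ℤ) ^ (2 * j) * (s : ℤ) ^ (2 * (n - j)) := by
      unfold hom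
      refine Finset.sum_congr rfl fun i hi => ?_
      rw [hqc' i (by rw [Finset.mem_range] at hi; omega), ← pow_mul, ← pow_mul]
    rw [h1, mul_pow, ← pow_mul, ← pow_mul, mul_assoc, ← pow_add,
      show 2 * d + 2 * n = 2 * (d + n) by ring]
  -- the size of EE
  have hltZ : (k : ℤ) ^ d * (s : ℤ) ^ (2 * (d + n)) + 2 ^ (4 * x) * (r : ℤ) ^ (2 * n) <
      (r : ℤ) ^ x := by exact_mod_cast hlt
  have hterm : ∀ j ∈ Finset.range (n + 1),
      |fc y z j * (r : ℤ) ^ (2 * j) * (s : ℤ) ^ (2 * (n - j))| ≤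
        2 ^ (y + z + j) * (r : ℤ) ^ (2 * n) := by
    intro j hj
    rw [Finset.mem_range] at hj
    obtain ⟨F, hF1, hF2, hF⟩ := fc_size y hz j
    have hF2Z : (F : ℤ) ≤ 2 ^ (y + z + j) := by exact_mod_cast hF2
    have e1 : |fc y z j| ≤ 2 ^ (y + z + j) := by
      rw [hF, abs_mul, abs_pow, abs_neg, abs_one, one_pow, one_mul, Nat.abs_cast]
      exact hF2Z
    rw [mul_assoc, abs_mul]
    have e2 : |(r : ℤ) ^ (2 * j) * (s : ℤ) ^ (2 * (n - j))| ≤ (r : ℤ) ^ (2 * n) := by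
      rw [abs_of_nonneg (by positivity)]
      calc (r : ℤ) ^ (2 * j) * (s : ℤ) ^ (2 * (n - j)) ≤
            (r : ℤ) ^ (2 * j) * (r : ℤ) ^ (2 * (n - j)) := by gcongr
        _ = (r : ℤ) ^ (2 * n) := by
            rw [← pow_add]
            congr 1
            omega
    exact mul_le_mul e1 e2 (abs_nonneg _) (by positivity)
  have hgeo : ∀ N : ℕ, ∑ j ∈ Finset.range N, (2 : ℤ) ^ (y + z + j) ≤ 2 ^ (y + z + N) := by
    intro N
    induction N with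
    | zero => simp
    | succ N ih =>
      rw [Finset.sum_range_succ, ← add_assoc, pow_succ]
      linarith
  have hsum : |∑ j ∈ Finset.range (n + 1), fc y z j * (r : ℤ) ^ (2 * j) *
      (s : ℤ) ^ (2 * (n - j))| ≤ 2 ^ (y + z + (n + 1)) * (r : ℤ) ^ (2 * n) := by
    refine (Finset.abs_sum_le_sum_abs _ _).trans ((Finset.sum_le_sum hterm).trans ?_)
    rw [← Finset.sum_mul]
    have := hgeo (n + 1)
    gcongr
  have hG2Z : (G : ℤ) ≤ 2 ^ x := by exact_mod_cast hG2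
  have hEsize : |EE y d (G : ℤ) (k : ℤ) 1 q n ((r : ℤ) ^ 2) ((s : ℤ) ^ 2)| < (r : ℤ) ^ x := by
    refine lt_of_le_of_lt ?_ hltZ
    rw [hEE]
    refine (abs_sub _ _).trans ?_
    rw [abs_mul ((-1 : ℤ) ^ y * (G : ℤ)), abs_mul ((-1 : ℤ) ^ y), abs_pow (-1 : ℤ), abs_neg,
      abs_one, one_pow, one_mul,
      abs_of_nonneg (show 0 ≤ (k : ℤ) ^ d * (s : ℤ) ^ (2 * (d + n)) by positivity),
      abs_of_nonneg (show 0 ≤ (G : ℤ) by positivity)]
    have h1 : (G : ℤ) * |∑ j ∈ Finset.range (n + 1), fc y z j * (r : ℤ) ^ (2 * j) *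
        (s : ℤ) ^ (2 * (n - j))| ≤ 2 ^ (4 * x) * (r : ℤ) ^ (2 * n) := by
      calc (G : ℤ) * |∑ j ∈ Finset.range (n + 1), fc y z j * (r : ℤ) ^ (2 * j) *
            (s : ℤ) ^ (2 * (n - j))|
          ≤ 2 ^ x * (2 ^ (y + z + (n + 1)) * (r : ℤ) ^ (2 * n)) := by
            exact mul_le_mul hG2Z hsum (abs_nonneg _) (by positivity)
        _ = 2 ^ (x + (y + z + (n + 1))) * (r : ℤ) ^ (2 * n) := by
            rw [← mul_assoc, ← pow_add]
        _ ≤ 2 ^ (4 * x) * (r : ℤ) ^ (2 * n) := by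
            have h2 : (2 : ℤ) ^ (x + (y + z + (n + 1))) ≤ 2 ^ (4 * x) :=
              pow_le_pow_right₀ (by norm_num) (by omega)
            gcongr
    linarith
  have hzero := Int.eq_zero_of_abs_lt_dvd hdvd hEsize
  rw [hEE] at hzero
  linarith

end J91
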