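import Pool.Agent.LibJ91.F1

namespace J91

/-- Row B2. Size of the two sides of the equation of `small_EE`: the term `j = n` is
`± G F r ^ (2 n)` with `F = |fc y z n|` (`fc_size`; `y + z + n ≤ 3 x`), all other terms contain
`s ^ 2 r ^ (2 n - 2)` up to a factor `≤ 1`
(`r ^ (2 j) s ^ (2 (n - j)) ≤ r ^ (2 n - 2) s ^ 2` for `j < n`), and
`G ∑ j < n, |fc y z j| ≤ 2 ^ x * 2 ^ (y + z + n) ≤ 2 ^ (4 x)`. The left side is nonnegative, so it
equals its absolute value. -/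
theorem small_size {r s k G x y z d n : ℕ} (hs : 1 ≤ s) (hsr : s < r) (hyz : y + d = z)
    (hz : 1 ≤ z) (hzx : z < x) (hn : n = (x - 1) / 2) (hn1 : 1 ≤ n) (hG : 1 ≤ G) (hG2 : G ≤ 2 ^ x)
    (hE : (k : ℤ) ^ d * (s : ℤ) ^ (2 * (d + n)) = (-1) ^ y * G *
      ∑ j ∈ Finset.range (n + 1), fc y z j * (r : ℤ) ^ (2 * j) * (s : ℤ) ^ (2 * (n - j))) :
    ∃ F : ℕ, 1 ≤ F ∧ F ≤ 2 ^ (3 * x) ∧
      (G : ℝ) * F * (r : ℝ) ^ (2 * n) - 2 ^ (4 * x) * (r : ℝ) ^ (2 * n - 2) * (s : ℝ) ^ 2 ≤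
        (k : ℝ) ^ d * (s : ℝ) ^ (2 * (d + n)) ∧
      (k : ℝ) ^ d * (s : ℝ) ^ (2 * (d + n)) ≤
        (G : ℝ) * F * (r : ℝ) ^ (2 * n) + 2 ^ (4 * x) * (r : ℝ) ^ (2 * n - 2) * (s : ℝ) ^ 2 := by
  obtain ⟨F, hF1, hF2, hF⟩ := fc_size y hz n
  refine ⟨F, hF1, hF2.trans (Nat.pow_le_pow_right (by norm_num) (by omega)), ?_⟩
  have hs' : (1 : ℝ) ≤ s := by exact_mod_cast hs
  have hsr' : (s : ℝ) ≤ r := by exact_mod_cast hsr.le
  have hr' : (0 : ℝ) ≤ r := by positivity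
  have hER : (k : ℝ) ^ d * (s : ℝ) ^ (2 * (d + n)) = (-1) ^ y * G *
      ∑ j ∈ Finset.range (n + 1), (fc y z j : ℝ) * (r : ℝ) ^ (2 * j) * (s : ℝ) ^ (2 * (n - j)) := by
    exact_mod_cast congrArg (fun t : ℤ => (t : ℝ)) hE
  rw [Finset.sum_range_succ, hF, Nat.sub_self, Nat.mul_zero, pow_zero, mul_one] at hER
  set W : ℝ := ∑ j ∈ Finset.range n, (fc y z j : ℝ) * (r : ℝ) ^ (2 * j) * (s : ℝ) ^ (2 * (n - j))
    with hW
  have hterm : ∀ j ∈ Finset.range n,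
      |(fc y z j : ℝ) * (r : ℝ) ^ (2 * j) * (s : ℝ) ^ (2 * (n - j))| ≤
        2 ^ (y + z + j) * ((r : ℝ) ^ (2 * n - 2) * (s : ℝ) ^ 2) := by
    intro j hj
    rw [Finset.mem_range] at hj
    obtain ⟨F', -, hF'2, hF'⟩ := fc_size y hz j
    have h1 : |(fc y z j : ℝ)| ≤ 2 ^ (y + z + j) := by
      rw [hF']
      push_cast
      rw [abs_mul, abs_pow, abs_neg, abs_one, one_pow, one_mul, Nat.abs_cast]
      exact_mod_cast hF'2
    rw [mul_assoc, abs_mul]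
    have h2 : |(r : ℝ) ^ (2 * j) * (s : ℝ) ^ (2 * (n - j))| ≤ (r : ℝ) ^ (2 * n - 2) * (s : ℝ) ^ 2 := by
      rw [abs_of_nonneg (by positivity)]
      have e1 : 2 * (n - j) = 2 + (2 * (n - j) - 2) := by omega
      have e2 : 2 * n - 2 = 2 * j + (2 * (n - j) - 2) := by omega
      rw [e1, pow_add, e2, pow_add]
      have h3 : (s : ℝ) ^ (2 * (n - j) - 2) ≤ (r : ℝ) ^ (2 * (n - j) - 2) :=
        pow_le_pow_left₀ (by positivity) hsr' _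
      calc (r : ℝ) ^ (2 * j) * ((s : ℝ) ^ 2 * (s : ℝ) ^ (2 * (n - j) - 2))
          ≤ (r : ℝ) ^ (2 * j) * ((s : ℝ) ^ 2 * (r : ℝ) ^ (2 * (n - j) - 2)) := by
            refine mul_le_mul_of_nonneg_left ?_ (by positivity)
            exact mul_le_mul_of_nonneg_left h3 (by positivity)
        _ = (r : ℝ) ^ (2 * j) * (r : ℝ) ^ (2 * (n - j) - 2) * (s : ℝ) ^ 2 := by ring
    exact mul_le_mul h1 h2 (abs_nonneg _) (by positivity)
  have hWb : |W| ≤ 2 ^ (y + z + n) * ((r : ℝ) ^ (2 * n - 2) * (s : ℝ) ^ 2) := by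
    refine (Finset.abs_sum_le_sum_abs _ _).trans ((Finset.sum_le_sum hterm).trans ?_)
    rw [← Finset.sum_mul]
    refine mul_le_mul_of_nonneg_right ?_ (by positivity)
    have h4 : ∑ j ∈ Finset.range n, (2 : ℝ) ^ (y + z + j) = 2 ^ (y + z) * (2 ^ n - 1) := by
      simp_rw [pow_add (2 : ℝ) (y + z)]
      rw [← Finset.mul_sum]
      congr 1
      have := geom_sum_eq (by norm_num : (2 : ℝ) ≠ 1) n
      rw [this]
      norm_num
    rw [h4, pow_add (2 : ℝ) (y + z) n]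
    have : (0 : ℝ) ≤ 2 ^ (y + z) := by positivity
    nlinarith
  have hGr : (G : ℝ) ≤ 2 ^ x := by exact_mod_cast hG2
  set E : ℝ := 2 ^ (4 * x) * (r : ℝ) ^ (2 * n - 2) * (s : ℝ) ^ 2 with hEdef
  have hGW : (G : ℝ) * |W| ≤ E := by
    have h5 : (2 : ℝ) ^ x * 2 ^ (y + z + n) ≤ 2 ^ (4 * x) := by
      rw [← pow_add]
      exact pow_le_pow_right₀ (by norm_num) (by omega)
    calc (G : ℝ) * |W| ≤ 2 ^ x * (2 ^ (y + z + n) * ((r : ℝ) ^ (2 * n - 2) * (s : ℝ) ^ 2)) :=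
          mul_le_mul hGr hWb (abs_nonneg _) (by positivity)
      _ = (2 ^ x * 2 ^ (y + z + n)) * ((r : ℝ) ^ (2 * n - 2) * (s : ℝ) ^ 2) := by ring
      _ ≤ 2 ^ (4 * x) * ((r : ℝ) ^ (2 * n - 2) * (s : ℝ) ^ 2) :=
          mul_le_mul_of_nonneg_right h5 (by positivity)
      _ = E := by rw [hEdef]; ring
  set A : ℝ := (G : ℝ) * F * (r : ℝ) ^ (2 * n) with hA
  have hA0 : 0 ≤ A := by positivity
  set Lh : ℝ := (k : ℝ) ^ d * (s : ℝ) ^ (2 * (d + n)) with hL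
  have hL0 : 0 ≤ Lh := by positivity
  have hdiff : Lh - (-1) ^ y * (-1) ^ n * A = (-1) ^ y * (G * W) := by
    rw [hER, hA]
    push_cast
    ring
  have habs : |Lh - (-1) ^ y * (-1) ^ n * A| ≤ E := by
    rw [hdiff, abs_mul, abs_pow, abs_neg, abs_one, one_pow, one_mul, abs_mul, Nat.abs_cast]
    exact hGW
  have h6 := abs_abs_sub_abs_le_abs_sub Lh ((-1) ^ y * (-1) ^ n * A)
  have h7 : |(-1 : ℝ) ^ y * (-1) ^ n * A| = A := by
    rw [abs_mul, abs_mul, abs_pow, abs_pow, abs_neg, abs_one, one_pow, one_pow, one_mul, one_mul,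
      abs_of_nonneg hA0]
  rw [h7, abs_of_nonneg hL0] at h6
  have h8 := abs_le.1 (h6.trans habs)
  constructor <;> linarith [h8.1, h8.2]

end J91
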