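import Pool.Agent.LibJ91.Defs

namespace J91

/-- Row B3. Contradiction for small exponents (elementary inequalities). Let `λ = r / s`, so
`λ ≥ 2 ^ (8 x²)`, `μ = 2 ^ (4 x) / λ²`, `K = k ^ d s ^ (2 (d + n))`. By `hlo`, `hup`:
`r ^ (2 n) (1 - μ) ≤ K ≤ r ^ (2 n) 2 ^ (4 x + 1)`. Dividing `heq` by `k ^ d`
(`x - y = (x - z) + d`): `k ^ (x - z) H (r s) ^ x = (r² + s²) ^ z - G (r² - s²) ^ y / k ^ d`, so it is
`≤ (r² + s²) ^ z = r ^ (2 z) (1 + λ⁻²) ^ z` and, as `G r ^ (2 y) ≤ 2 ^ x r ^ (2 z - 2)`, it is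
`≥ r ^ (2 z) / 2`. Let `e = 2 n (x - z) - (2 z - x) d` (an integer).
Case `e ≥ 0`: multiply `K ^ (x - z) ≥ (r ^ (2 n) (1 - μ)) ^ (x - z)` with
`(k ^ (x - z) H (r s) ^ x) ^ d ≤ (r ^ (2 z) (1 + λ⁻²) ^ z) ^ d` and cancel `k ^ (d (x - z))`:
`(1 - μ) ^ (x - z) H ^ d λ ^ e ≤ (1 + λ⁻²) ^ (z d)`; the left side is at least `3 / 4 * 2 = 3 / 2` and
the right side at most `5 / 4`, a contradiction.
Case `e < 0`: multiply `K ^ (x - z) ≤ (r ^ (2 n) 2 ^ (4 x + 1)) ^ (x - z)` with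
`(r ^ (2 z) / 2) ^ d ≤ (k ^ (x - z) H (r s) ^ x) ^ d` and cancel:
`λ ^ (-e) ≤ 2 ^ d H ^ d 2 ^ ((4 x + 1) (x - z)) ≤ 2 ^ (x + x² + (4 x + 1) x) < 2 ^ (8 x²)` for
`x ≥ 1`, but `λ ^ (-e) ≥ λ ≥ 2 ^ (8 x²)`, a contradiction. -/
theorem small_false {r s k G H x y z d n F : ℕ} (hs : 1 ≤ s) (hsr : s < r) (hk : 1 ≤ k)
    (hyz : y + d = z) (hd : 1 ≤ d) (hy : 1 ≤ y) (hzx : z < x) (hxz : x < 2 * z)
    (hn : n = (x - 1) / 2) (hG : 1 ≤ G) (hG2 : G ≤ 2 ^ x) (hH : 2 ≤ H) (hH2 : H ≤ 2 ^ x)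
    (heq : k ^ d * (r ^ 2 + s ^ 2) ^ z = G * (r ^ 2 - s ^ 2) ^ y + k ^ (x - y) * H * (r * s) ^ x)
    (hbig : 2 ^ (8 * x ^ 2) * s ≤ r) (hF : 1 ≤ F) (hF2 : F ≤ 2 ^ (3 * x))
    (hlo : (G : ℝ) * F * (r : ℝ) ^ (2 * n) - 2 ^ (4 * x) * (r : ℝ) ^ (2 * n - 2) * (s : ℝ) ^ 2 ≤
      (k : ℝ) ^ d * (s : ℝ) ^ (2 * (d + n)))
    (hup : (k : ℝ) ^ d * (s : ℝ) ^ (2 * (d + n)) ≤
      (G : ℝ) * F * (r : ℝ) ^ (2 * n) + 2 ^ (4 * x) * (r : ℝ) ^ (2 * n - 2) * (s : ℝ) ^ 2) :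
    False := by
  have hx3 : 3 ≤ x := by omega
  have hn1 : 1 ≤ n := by omega
  clear hn
  have hx2 : 3 * x ≤ x ^ 2 := by rw [sq]; exact Nat.mul_le_mul_right x hx3
  obtain ⟨w, hw⟩ : ∃ w, x = z + w := ⟨x - z, by omega⟩
  have hw1 : 1 ≤ w := by omega
  have hs0 : (0 : ℝ) < s := by exact_mod_cast hs
  have hr0 : (0 : ℝ) < r := by exact_mod_cast (by omega : 0 < r)
  have hk1 : (1 : ℝ) ≤ k := by exact_mod_cast hk
  have hk0 : (0 : ℝ) < k := lt_of_lt_of_le one_pos hk1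
  have hG1' : (1 : ℝ) ≤ G := by exact_mod_cast hG
  have hG2' : (G : ℝ) ≤ 2 ^ x := by exact_mod_cast hG2
  have hF1' : (1 : ℝ) ≤ F := by exact_mod_cast hF
  have hF2' : (F : ℝ) ≤ 2 ^ (3 * x) := by exact_mod_cast hF2
  have hH1' : (2 : ℝ) ≤ H := by exact_mod_cast hH
  have hH2' : (H : ℝ) ≤ 2 ^ x := by exact_mod_cast hH2
  obtain ⟨L, hLdef⟩ : ∃ L : ℝ, L = r / s := ⟨_, rfl⟩
  have hL : (r : ℝ) = L * s := by rw [hLdef]; field_simp
  have hLbig : (2 : ℝ) ^ (8 * x ^ 2) ≤ L := by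
    rw [hLdef, le_div_iff₀ hs0]; exact_mod_cast hbig
  have hL1 : (1 : ℝ) ≤ L := le_trans (one_le_pow₀ (by norm_num)) hLbig
  have hL0 : (0 : ℝ) < L := lt_of_lt_of_le one_pos hL1
  have hL2big : (2 : ℝ) ^ (16 * x ^ 2) ≤ L ^ 2 := by
    calc (2 : ℝ) ^ (16 * x ^ 2) = (2 ^ (8 * x ^ 2)) ^ 2 := by rw [← pow_mul]; ring_nf
      _ ≤ L ^ 2 := pow_le_pow_left₀ (by positivity) hLbig 2
  have hr2 : (r : ℝ) ^ (2 * n - 2) * (s : ℝ) ^ 2 = (r : ℝ) ^ (2 * n) / L ^ 2 := by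
    obtain ⟨m, hm⟩ : ∃ m, n = m + 1 := ⟨n - 1, by omega⟩
    have e1 : 2 * n - 2 = 2 * m := by omega
    have e2 : 2 * n = 2 * m + 2 := by omega
    rw [e1, e2, pow_add, eq_div_iff (by positivity)]
    rw [hL]; ring
  -- the small quantity
  have hμ : (2 : ℝ) ^ (4 * x) / L ^ 2 ≤ 1 / (4 * 2 ^ x) := by
    rw [div_le_div_iff₀ (by positivity) (by positivity), one_mul]
    refine le_trans ?_ hL2big
    calc (2 : ℝ) ^ (4 * x) * (4 * 2 ^ x) = 2 ^ (5 * x + 2) := by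
          rw [pow_add, show 5 * x = 4 * x + x from by ring, pow_add]; ring
      _ ≤ 2 ^ (16 * x ^ 2) := pow_le_pow_right₀ (by norm_num) (by omega)
  have hμ0 : (0 : ℝ) ≤ (2 : ℝ) ^ (4 * x) / L ^ 2 := by positivity
  obtain ⟨u, hu⟩ : ∃ u : ℝ, u = (2 : ℝ) ^ (4 * x) / L ^ 2 := ⟨_, rfl⟩
  rw [← hu] at hμ hμ0
  have h2x1 : (1 : ℝ) ≤ 2 ^ x := one_le_pow₀ (by norm_num)
  have hu1 : u ≤ 1 / 4 := by
    refine le_trans hμ ?_
    apply one_div_le_one_div_of_le (by norm_num)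
    linarith
  obtain ⟨K, hK⟩ : ∃ K : ℝ, K = (k : ℝ) ^ d * (s : ℝ) ^ (2 * (d + n)) := ⟨_, rfl⟩
  rw [← hK] at hlo hup
  have hK1 : (r : ℝ) ^ (2 * n) * (1 - u) ≤ K := by
    refine le_trans ?_ hlo
    have e : (2 : ℝ) ^ (4 * x) * (r : ℝ) ^ (2 * n - 2) * (s : ℝ) ^ 2 = (r : ℝ) ^ (2 * n) * u := by
      rw [mul_assoc, hr2, hu]; ring
    rw [e]
    have hGF : (1 : ℝ) ≤ (G : ℝ) * F := one_le_mul_of_one_le_of_one_le hG1' hF1'
    have hrn : (0 : ℝ) ≤ (r : ℝ) ^ (2 * n) := by positivity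
    linarith [mul_le_mul_of_nonneg_right hGF hrn]
  have hK2 : K ≤ (r : ℝ) ^ (2 * n) * 2 ^ (4 * x + 1) := by
    refine le_trans hup ?_
    have e : (2 : ℝ) ^ (4 * x) * (r : ℝ) ^ (2 * n - 2) * (s : ℝ) ^ 2 = (r : ℝ) ^ (2 * n) * u := by
      rw [mul_assoc, hr2, hu]; ring
    rw [e]
    have hGF : (G : ℝ) * F ≤ 2 ^ (4 * x) := by
      calc (G : ℝ) * F ≤ 2 ^ x * 2 ^ (3 * x) :=
            mul_le_mul hG2' hF2' (by positivity) (by positivity)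
        _ = 2 ^ (4 * x) := by rw [← pow_add]; ring_nf
    have h4 : (1 : ℝ) ≤ 2 ^ (4 * x) := one_le_pow₀ (by norm_num)
    have hrn : (0 : ℝ) ≤ (r : ℝ) ^ (2 * n) := by positivity
    have h5 : (G : ℝ) * F + u ≤ 2 ^ (4 * x + 1) := by
      rw [pow_succ]; linarith
    calc (G : ℝ) * F * (r : ℝ) ^ (2 * n) + (r : ℝ) ^ (2 * n) * u
        = (r : ℝ) ^ (2 * n) * ((G : ℝ) * F + u) := by ring
      _ ≤ (r : ℝ) ^ (2 * n) * 2 ^ (4 * x + 1) := mul_le_mul_of_nonneg_left h5 hrn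
  have hK0 : 0 < K := by rw [hK]; positivity
  obtain ⟨A, hA⟩ : ∃ A : ℝ, A = (k : ℝ) ^ w * (H : ℝ) * ((r : ℝ) * s) ^ x := ⟨_, rfl⟩
  have hA0 : 0 < A := by
    rw [hA]
    have : (0 : ℝ) < H := by linarith
    positivity
  have hxy : x - y = d + w := by omega
  have hss : s ^ 2 ≤ r ^ 2 := Nat.pow_le_pow_left hsr.le 2
  have heq' : (k : ℝ) ^ d * ((r : ℝ) ^ 2 + (s : ℝ) ^ 2) ^ z =
      G * ((r : ℝ) ^ 2 - (s : ℝ) ^ 2) ^ y + (k : ℝ) ^ d * A := by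
    have h := congrArg (fun t : ℕ => (t : ℝ)) heq
    push_cast [Nat.cast_sub hss] at h
    rw [h, hxy, hA, pow_add]; ring
  have hkd0 : (0 : ℝ) < (k : ℝ) ^ d := by positivity
  have hkd1 : (1 : ℝ) ≤ (k : ℝ) ^ d := one_le_pow₀ hk1
  have hdiff : (0 : ℝ) ≤ (r : ℝ) ^ 2 - (s : ℝ) ^ 2 := by
    have : ((s ^ 2 : ℕ) : ℝ) ≤ ((r ^ 2 : ℕ) : ℝ) := by exact_mod_cast hss
    push_cast at this
    linarith
  have hA2 : A ≤ ((r : ℝ) ^ 2 + (s : ℝ) ^ 2) ^ z := by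
    refine le_of_mul_le_mul_left ?_ hkd0
    rw [heq']
    have : (0 : ℝ) ≤ G * ((r : ℝ) ^ 2 - (s : ℝ) ^ 2) ^ y := by
      have := pow_nonneg hdiff y
      positivity
    linarith
  have hA2' : A ≤ (r : ℝ) ^ (2 * z) * (1 + 1 / L ^ 2) ^ z := by
    refine le_trans hA2 (le_of_eq ?_)
    rw [pow_mul, ← mul_pow]
    congr 1
    rw [hL]
    field_simp
  have hrbig : (2 : ℝ) ^ (x + 1) ≤ (r : ℝ) ^ (2 * d) := by
    have hrL : L ≤ r := by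
      rw [hL]
      have : (1 : ℝ) ≤ s := by exact_mod_cast hs
      exact le_mul_of_one_le_right hL0.le this
    have hr1 : (1 : ℝ) ≤ r := le_trans hL1 hrL
    calc (2 : ℝ) ^ (x + 1) ≤ 2 ^ (8 * x ^ 2) := pow_le_pow_right₀ (by norm_num) (by omega)
      _ ≤ L := hLbig
      _ ≤ r := hrL
      _ = (r : ℝ) ^ 1 := (pow_one _).symm
      _ ≤ (r : ℝ) ^ (2 * d) := pow_le_pow_right₀ hr1 (by omega)
  have hA1 : (r : ℝ) ^ (2 * z) / 2 ≤ A := by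
    have h1 : (G : ℝ) * ((r : ℝ) ^ 2 - (s : ℝ) ^ 2) ^ y ≤ (r : ℝ) ^ (2 * z) / 2 := by
      have h2 : ((r : ℝ) ^ 2 - (s : ℝ) ^ 2) ^ y ≤ (r : ℝ) ^ (2 * y) := by
        rw [pow_mul]
        exact pow_le_pow_left₀ hdiff (sub_le_self _ (sq_nonneg _)) y
      have h3 : (r : ℝ) ^ (2 * z) = (r : ℝ) ^ (2 * y) * (r : ℝ) ^ (2 * d) := by
        rw [← pow_add, ← hyz]; ring_nf
      calc (G : ℝ) * ((r : ℝ) ^ 2 - (s : ℝ) ^ 2) ^ y ≤ 2 ^ x * (r : ℝ) ^ (2 * y) :=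
            mul_le_mul hG2' h2 (pow_nonneg hdiff y) (by positivity)
        _ = (r : ℝ) ^ (2 * y) * 2 ^ (x + 1) / 2 := by rw [pow_succ]; ring
        _ ≤ (r : ℝ) ^ (2 * y) * (r : ℝ) ^ (2 * d) / 2 := by
            have : (0 : ℝ) ≤ (r : ℝ) ^ (2 * y) := by positivity
            have := mul_le_mul_of_nonneg_left hrbig this
            linarith
        _ = (r : ℝ) ^ (2 * z) / 2 := by rw [h3]
    have h4 : (r : ℝ) ^ (2 * z) ≤ ((r : ℝ) ^ 2 + (s : ℝ) ^ 2) ^ z := by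
      rw [pow_mul]
      exact pow_le_pow_left₀ (by positivity) (le_add_of_nonneg_right (sq_nonneg _)) z
    have h5 : (k : ℝ) ^ d * (r : ℝ) ^ (2 * z) ≤ (k : ℝ) ^ d * ((r : ℝ) ^ 2 + (s : ℝ) ^ 2) ^ z :=
      mul_le_mul_of_nonneg_left h4 hkd0.le
    have h6 : (r : ℝ) ^ (2 * z) / 2 ≤ (k : ℝ) ^ d * ((r : ℝ) ^ (2 * z) / 2) := by
      have : (0 : ℝ) ≤ (r : ℝ) ^ (2 * z) / 2 := by positivity
      exact le_mul_of_one_le_left this hkd1
    refine le_of_mul_le_mul_left ?_ hkd0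
    rw [heq'] at h5
    linarith
  have hid : K ^ w * (H : ℝ) ^ d * ((r : ℝ) * s) ^ (x * d) = A ^ d * (s : ℝ) ^ (2 * (d + n) * w) := by
    rw [hK, hA]; ring
  have hxR : ((x : ℕ) : ℝ) ≤ 2 ^ x := by exact_mod_cast (Nat.lt_two_pow_self (n := x)).le
  rcases le_or_gt (2 * z * d) (2 * n * w + x * d) with hc | hc
  · -- case e ≥ 0
    have hone : 0 ≤ 1 - u := by linarith
    have h1 : ((r : ℝ) ^ (2 * n) * (1 - u)) ^ w * (H : ℝ) ^ d * ((r : ℝ) * s) ^ (x * d) ≤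
        ((r : ℝ) ^ (2 * z) * (1 + 1 / L ^ 2) ^ z) ^ d * (s : ℝ) ^ (2 * (d + n) * w) := by
      calc ((r : ℝ) ^ (2 * n) * (1 - u)) ^ w * (H : ℝ) ^ d * ((r : ℝ) * s) ^ (x * d)
          ≤ K ^ w * (H : ℝ) ^ d * ((r : ℝ) * s) ^ (x * d) := by
            have := pow_le_pow_left₀ (mul_nonneg (by positivity) hone) hK1 w
            gcongr
        _ = A ^ d * (s : ℝ) ^ (2 * (d + n) * w) := hid
        _ ≤ _ := by
            have := pow_le_pow_left₀ hA0.le hA2' d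
            gcongr
    have hL' : ((r : ℝ) ^ (2 * n) * (1 - u)) ^ w * (H : ℝ) ^ d * ((r : ℝ) * s) ^ (x * d) =
        (L ^ (2 * n * w + x * d) * (s : ℝ) ^ (2 * n * w + 2 * x * d)) * ((1 - u) ^ w * (H : ℝ) ^ d) := by
      generalize (1 - u : ℝ) = c
      rw [hL]; ring
    have hR' : ((r : ℝ) ^ (2 * z) * (1 + 1 / L ^ 2) ^ z) ^ d * (s : ℝ) ^ (2 * (d + n) * w) =
        (L ^ (2 * z * d) * (s : ℝ) ^ (2 * n * w + 2 * x * d)) * (1 + 1 / L ^ 2) ^ (z * d) := by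
      generalize (1 + 1 / L ^ 2 : ℝ) = c
      rw [hL, hw]; ring
    rw [hL', hR'] at h1
    have hLL : L ^ (2 * z * d) ≤ L ^ (2 * n * w + x * d) := pow_le_pow_right₀ hL1 hc
    have hP0 : (0 : ℝ) < L ^ (2 * n * w + x * d) * (s : ℝ) ^ (2 * n * w + 2 * x * d) := by positivity
    have hC0 : (0 : ℝ) ≤ (1 + 1 / L ^ 2) ^ (z * d) := by positivity
    have h2 : (1 - u) ^ w * (H : ℝ) ^ d ≤ (1 + 1 / L ^ 2) ^ (z * d) := by
      refine le_of_mul_le_mul_left (le_trans h1 ?_) hP0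
      gcongr
    -- lower bound
    have h3 : (3 : ℝ) / 4 ≤ (1 - u) ^ w := by
      have hb := one_add_mul_le_pow (a := -u) (by linarith) w
      have hwu : (w : ℝ) * u ≤ 1 / 4 := by
        have hwx : (w : ℝ) ≤ 2 ^ x := le_trans (by exact_mod_cast (by omega : w ≤ x)) hxR
        calc (w : ℝ) * u ≤ 2 ^ x * (1 / (4 * 2 ^ x)) :=
              mul_le_mul hwx hμ hμ0 (by positivity)
          _ = 1 / 4 := by field_simp
      have : (1 : ℝ) + w * (-u) ≤ (1 - u) ^ w := by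
        have e : (1 : ℝ) + -u = 1 - u := by ring
        rw [e] at hb
        exact hb
      linarith
    have h4 : (2 : ℝ) ≤ (H : ℝ) ^ d := by
      calc (2 : ℝ) ≤ H := hH1'
        _ = (H : ℝ) ^ 1 := (pow_one _).symm
        _ ≤ (H : ℝ) ^ d := pow_le_pow_right₀ (by linarith) hd
    have h5 : (3 : ℝ) / 2 ≤ (1 - u) ^ w * (H : ℝ) ^ d := by
      calc (3 : ℝ) / 2 = 3 / 4 * 2 := by norm_num
        _ ≤ (1 - u) ^ w * (H : ℝ) ^ d := mul_le_mul h3 h4 (by norm_num) (by linarith)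
    -- upper bound
    have h6 : (1 + 1 / L ^ 2) ^ (z * d) ≤ 8 / 7 := by
      have hv0 : (0 : ℝ) < 1 / L ^ 2 := by positivity
      have hv1 : (1 : ℝ) / L ^ 2 ≤ 1 / (8 * (2 ^ x) ^ 2) := by
        apply one_div_le_one_div_of_le (by positivity)
        refine le_trans ?_ hL2big
        calc (8 : ℝ) * (2 ^ x) ^ 2 = 2 ^ (2 * x + 3) := by
              rw [pow_add, pow_mul, ← pow_mul, mul_comm x 2, ← pow_mul]; ring
          _ ≤ 2 ^ (16 * x ^ 2) := pow_le_pow_right₀ (by norm_num) (by omega)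
      obtain ⟨v, hv⟩ : ∃ v : ℝ, v = 1 / L ^ 2 := ⟨_, rfl⟩
      rw [← hv] at hv0 hv1 ⊢
      have hzd : ((z * d : ℕ) : ℝ) * v ≤ 1 / 8 := by
        have hz : (z : ℝ) ≤ 2 ^ x := le_trans (by exact_mod_cast (by omega : z ≤ x)) hxR
        have hd' : (d : ℝ) ≤ 2 ^ x := le_trans (by exact_mod_cast (by omega : d ≤ x)) hxR
        have hzd' : ((z * d : ℕ) : ℝ) ≤ (2 ^ x) ^ 2 := by
          push_cast
          rw [sq]
          exact mul_le_mul hz hd' (by positivity) (by positivity)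
        calc ((z * d : ℕ) : ℝ) * v ≤ (2 ^ x) ^ 2 * (1 / (8 * (2 ^ x) ^ 2)) :=
              mul_le_mul hzd' hv1 hv0.le (by positivity)
          _ = 1 / 8 := by field_simp
      have hv8 : v ≤ 1 / 8 := by
        have hz1 : (1 : ℝ) ≤ ((z * d : ℕ) : ℝ) := by
          exact_mod_cast Nat.one_le_iff_ne_zero.mpr (Nat.mul_ne_zero (by omega) (by omega))
        exact le_trans (le_mul_of_one_le_left hv0.le hz1) hzd
      have hb := one_add_mul_le_pow (a := -v) (by linarith) (z * d)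
      have e : (1 : ℝ) + -v = 1 - v := by ring
      rw [e] at hb
      have h7 : (7 : ℝ) / 8 ≤ (1 - v) ^ (z * d) := by linarith
      have h8 : (1 + v) ^ (z * d) * (1 - v) ^ (z * d) ≤ 1 := by
        rw [← mul_pow]
        apply pow_le_one₀
        · exact mul_nonneg (by linarith) (by linarith)
        · have e2 : (1 + v) * (1 - v) = 1 - v * v := by ring
          rw [e2]
          linarith [mul_nonneg hv0.le hv0.le]
      have h9 : (0 : ℝ) ≤ (1 + v) ^ (z * d) := by positivity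
      have h10 := mul_le_mul_of_nonneg_left h7 h9
      linarith
    linarith
  · -- case e < 0
    have h1 : ((r : ℝ) ^ (2 * z) / 2) ^ d * (s : ℝ) ^ (2 * (d + n) * w) ≤
        ((r : ℝ) ^ (2 * n) * 2 ^ (4 * x + 1)) ^ w * (H : ℝ) ^ d * ((r : ℝ) * s) ^ (x * d) := by
      calc ((r : ℝ) ^ (2 * z) / 2) ^ d * (s : ℝ) ^ (2 * (d + n) * w)
          ≤ A ^ d * (s : ℝ) ^ (2 * (d + n) * w) := by
            have := pow_le_pow_left₀ (by positivity) hA1 d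
            gcongr
        _ = K ^ w * (H : ℝ) ^ d * ((r : ℝ) * s) ^ (x * d) := hid.symm
        _ ≤ _ := by
            have := pow_le_pow_left₀ hK0.le hK2 w
            gcongr
    have hL' : ((r : ℝ) ^ (2 * z) / 2) ^ d * (s : ℝ) ^ (2 * (d + n) * w) =
        (L ^ (2 * z * d) * (s : ℝ) ^ (2 * n * w + 2 * x * d)) * (1 / 2) ^ d := by
      rw [hL, hw, div_eq_mul_one_div, mul_pow]; ring
    have hR' : ((r : ℝ) ^ (2 * n) * 2 ^ (4 * x + 1)) ^ w * (H : ℝ) ^ d * ((r : ℝ) * s) ^ (x * d) =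
        (L ^ (2 * n * w + x * d) * (s : ℝ) ^ (2 * n * w + 2 * x * d)) *
          ((2 ^ (4 * x + 1)) ^ w * (H : ℝ) ^ d) := by
      rw [hL]; ring
    rw [hL', hR'] at h1
    have hLL : L * L ^ (2 * n * w + x * d) ≤ L ^ (2 * z * d) := by
      rw [← pow_succ']
      exact pow_le_pow_right₀ hL1 hc
    have hP0 : (0 : ℝ) < L ^ (2 * n * w + x * d) * (s : ℝ) ^ (2 * n * w + 2 * x * d) := by positivity
    have h2 : L * (1 / 2) ^ d ≤ (2 ^ (4 * x + 1)) ^ w * (H : ℝ) ^ d := by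
      refine le_of_mul_le_mul_left (le_trans ?_ h1) hP0
      calc L ^ (2 * n * w + x * d) * (s : ℝ) ^ (2 * n * w + 2 * x * d) * (L * (1 / 2) ^ d)
          = (L * L ^ (2 * n * w + x * d)) * (s : ℝ) ^ (2 * n * w + 2 * x * d) * (1 / 2) ^ d := by ring
        _ ≤ L ^ (2 * z * d) * (s : ℝ) ^ (2 * n * w + 2 * x * d) * (1 / 2) ^ d := by gcongr
    have h3 : L ≤ 2 ^ d * ((2 ^ (4 * x + 1)) ^ w * (2 ^ x) ^ d) := by
      have h4 : (H : ℝ) ^ d ≤ (2 ^ x) ^ d := pow_le_pow_left₀ (by positivity) hH2' d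
      have h5 : L = 2 ^ d * (L * (1 / 2) ^ d) := by
        rw [div_pow, one_pow]; field_simp
      rw [h5]
      have h6 := mul_le_mul_of_nonneg_left h4 (by positivity : (0 : ℝ) ≤ (2 ^ (4 * x + 1)) ^ w)
      exact mul_le_mul_of_nonneg_left (le_trans h2 h6) (by positivity)
    have h4 : (2 : ℝ) ^ d * ((2 ^ (4 * x + 1)) ^ w * (2 ^ x) ^ d) = 2 ^ (d + ((4 * x + 1) * w + x * d)) := by
      rw [← pow_mul, ← pow_mul, ← pow_add, ← pow_add]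
    rw [h4] at h3
    have h5 : d + ((4 * x + 1) * w + x * d) < 8 * x ^ 2 := by
      have hw' : w ≤ x := by omega
      have hd' : d ≤ x := by omega
      have e1 : (4 * x + 1) * w ≤ (4 * x + 1) * x := Nat.mul_le_mul_left _ hw'
      have e2 : x * d ≤ x * x := Nat.mul_le_mul_left _ hd'
      have e3 : (4 * x + 1) * x = 4 * x ^ 2 + x := by ring
      have e4 : x * x = x ^ 2 := by ring
      rw [e3] at e1
      rw [e4] at e2
      linarith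
    have h6 : (2 : ℝ) ^ (d + ((4 * x + 1) * w + x * d)) < 2 ^ (8 * x ^ 2) :=
      pow_lt_pow_right₀ (by norm_num) h5
    linarith

end J91
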