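import Pool.Agent.LibJ91.Defs

open Polynomial

namespace J91

/-- Row H3. If `T ^ m` divides `R`, then `a ^ m` divides every homogenisation of `R`: the
coefficients with `i < m` vanish (`Polynomial.X_pow_dvd_iff`), the other terms contain `a ^ m`. -/
theorem hom_dvd {R : ℤ[X]} {m : ℕ} (h : X ^ m ∣ R) (N : ℕ) (a b : ℤ) : a ^ m ∣ hom R N a b := by
  rw [Polynomial.X_pow_dvd_iff] at h
  unfold hom
  refine Finset.dvd_sum fun i _ => ?_
  by_cases hi : i < m
  · rw [h i hi]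
    simp
  · exact Dvd.dvd.mul_right (Dvd.dvd.mul_left (pow_dvd_pow a (not_lt.1 hi)) _) _

/-- Row H3. Size: for `0 ≤ b ≤ a` and `natDegree p ≤ n ≤ N`, every monomial satisfies
`a ^ i * b ^ (N - i) ≤ a ^ n * b ^ (N - n)`. -/
theorem hom_le {P : ℤ[X]} {n N : ℕ} (hP : P.natDegree ≤ n) (hn : n ≤ N) {a b : ℤ} (hb : 0 ≤ b)
    (hab : b ≤ a) : |(hom P N a b : ℝ)| ≤ nrm P * ((a : ℝ) ^ n * (b : ℝ) ^ (N - n)) := by
  have hbR : (0 : ℝ) ≤ b := by exact_mod_cast hb
  have habR : (b : ℝ) ≤ a := by exact_mod_cast hab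
  have haR : (0 : ℝ) ≤ a := hbR.trans habR
  have hsub : P.support ⊆ Finset.range (N + 1) := by
    intro i hi
    rw [Finset.mem_range]
    have := le_natDegree_of_mem_supp i hi
    omega
  have hcast : (hom P N a b : ℝ) =
      ∑ i ∈ P.support, (P.coeff i : ℝ) * ((a : ℝ) ^ i * (b : ℝ) ^ (N - i)) := by
    unfold hom
    push_cast
    symm
    rw [← Finset.sum_subset hsub]
    · exact Finset.sum_congr rfl fun i _ => by ring
    · intro i _ hi
      rw [Polynomial.notMem_support_iff.1 hi]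
      simp
  rw [hcast]
  unfold nrm
  rw [Finset.sum_mul]
  refine (Finset.abs_sum_le_sum_abs _ _).trans (Finset.sum_le_sum fun i hi => ?_)
  rw [abs_mul, abs_of_nonneg (by positivity : (0 : ℝ) ≤ (a : ℝ) ^ i * (b : ℝ) ^ (N - i))]
  refine mul_le_mul_of_nonneg_left ?_ (abs_nonneg _)
  have hin : i ≤ n := (le_natDegree_of_mem_supp i hi).trans hP
  have e1 : N - i = (n - i) + (N - n) := by omega
  have e2 : (a : ℝ) ^ n = (a : ℝ) ^ i * (a : ℝ) ^ (n - i) := by
    rw [← pow_add]; congr 1; omega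
  rw [e1, pow_add, e2]
  calc (a : ℝ) ^ i * ((b : ℝ) ^ (n - i) * (b : ℝ) ^ (N - n))
      = ((a : ℝ) ^ i * (b : ℝ) ^ (n - i)) * (b : ℝ) ^ (N - n) := by ring
    _ ≤ ((a : ℝ) ^ i * (a : ℝ) ^ (n - i)) * (b : ℝ) ^ (N - n) := by
        gcongr

end J91
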