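import Pool.Agent.LibJ91.H2
import Pool.Agent.LibJ91.H3

open Polynomial

namespace J91

private theorem D1_deg_sub (y d : ℕ) : ((1 - X : ℤ[X]) ^ y).natDegree ≤ y + d := by
  have h1 : (1 - X : ℤ[X]).natDegree ≤ 1 := by
    refine (natDegree_sub_le _ _).trans ?_
    simp
  calc ((1 - X : ℤ[X]) ^ y).natDegree ≤ y * (1 - X : ℤ[X]).natDegree := natDegree_pow_le
    _ ≤ y * 1 := Nat.mul_le_mul_left _ h1
    _ ≤ y + d := by omega

private theorem D1_deg_add (z : ℕ) : ((1 + X : ℤ[X]) ^ z).natDegree ≤ z := by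
  have h1 : (1 + X : ℤ[X]).natDegree ≤ 1 := by
    refine (natDegree_add_le _ _).trans ?_
    simp
  calc ((1 + X : ℤ[X]) ^ z).natDegree ≤ z * (1 + X : ℤ[X]).natDegree := natDegree_pow_le
    _ ≤ z * 1 := Nat.mul_le_mul_left _ h1
    _ = z := by omega

private theorem D1_S {y z d N : ℕ} {p q : ℤ[X]} (a : ℤ) {b : ℤ} (hb : b ≠ 0) (hyz : y + d = z)
    (hp : p.natDegree ≤ N) (hq : q.natDegree ≤ N) :
    hom (RR y z p q) (N + z) a b =
      hom p N a b * (b ^ d * (b - a) ^ y) - hom q N a b * (a + b) ^ z := by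
  subst hyz
  unfold RR
  rw [hom_sub, hom_mul hp (D1_deg_sub y d) a hb, hom_mul hq (D1_deg_add (y + d)) a hb,
    hom_one_sub_pow y d a hb, hom_one_add_pow (y + d) a hb]

/-- Row D1. The main divisibility. Let `a = r²`, `b = s²`, `S = hom (RR y z p q) (N + z) a b`. By
`hom_sub`, `hom_mul` (with `N + (y + d)` and `N + z`), `hom_one_sub_pow`, `hom_one_add_pow`:
`S = hom p N a b * (b ^ d * (b - a) ^ y) - hom q N a b * (a + b) ^ z`. With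
`k ^ d * (a + b) ^ z = G * (a - b) ^ y + W`, `r ^ e ∣ W`:
`(a + b) ^ z * EE = b ^ d * hom p N a b * W + (-1) ^ y * G * S`
(use `(b - a) ^ y = (-1) ^ y * (a - b) ^ y` and `(-1) ^ y * (-1) ^ y = 1`). By `hom_dvd`
`r ^ (2 m) ∣ S`, so `r ^ e` divides `(a + b) ^ z * EE`, and `r` is coprime to `a + b = r² + s²`. -/
theorem EE_dvd {r s k G : ℤ} {x y z d m N e : ℕ} {p q : ℤ[X]} (hs : s ≠ 0) (hrs : IsCoprime r s)
    (hyz : y + d = z) (hdiv : r ^ x ∣ k ^ d * (r ^ 2 + s ^ 2) ^ z - G * (r ^ 2 - s ^ 2) ^ y)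
    (hp : p.natDegree ≤ N) (hq : q.natDegree ≤ N) (hR : X ^ m ∣ RR y z p q) (he1 : e ≤ 2 * m)
    (he2 : e ≤ x) : r ^ e ∣ EE y d G k p q N (r ^ 2) (s ^ 2) := by
  have hb : (s ^ 2 : ℤ) ≠ 0 := pow_ne_zero 2 hs
  have hS := D1_S (r ^ 2) hb hyz hp hq
  have hS2 : r ^ e ∣ hom (RR y z p q) (N + z) (r ^ 2) (s ^ 2) := by
    have h1 : (r ^ 2) ^ m ∣ hom (RR y z p q) (N + z) (r ^ 2) (s ^ 2) := hom_dvd hR _ _ _
    rw [← pow_mul] at h1
    exact (pow_dvd_pow r he1).trans h1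
  have hW : r ^ e ∣ k ^ d * (r ^ 2 + s ^ 2) ^ z - G * (r ^ 2 - s ^ 2) ^ y :=
    (pow_dvd_pow r he2).trans hdiv
  have hneg : (s ^ 2 - r ^ 2 : ℤ) ^ y = (-1) ^ y * (r ^ 2 - s ^ 2) ^ y := by
    rw [← mul_pow]
    congr 1
    ring
  have hone : ((-1 : ℤ) ^ y) * (-1) ^ y = 1 := by
    rw [← mul_pow]
    simp
  have key : (r ^ 2 + s ^ 2) ^ z * EE y d G k p q N (r ^ 2) (s ^ 2) =
      (s ^ 2) ^ d * hom p N (r ^ 2) (s ^ 2) *
        (k ^ d * (r ^ 2 + s ^ 2) ^ z - G * (r ^ 2 - s ^ 2) ^ y) +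
      (-1) ^ y * G * hom (RR y z p q) (N + z) (r ^ 2) (s ^ 2) := by
    rw [hS, hneg]
    unfold EE
    rw [mul_pow]
    generalize hom p N (r ^ 2) (s ^ 2) = P
    generalize hom q N (r ^ 2) (s ^ 2) = Q
    linear_combination (-(G * P * (s ^ 2) ^ d * (r ^ 2 - s ^ 2) ^ y)) * hone
  have hdv : r ^ e ∣ (r ^ 2 + s ^ 2) ^ z * EE y d G k p q N (r ^ 2) (s ^ 2) := by
    rw [key]
    exact dvd_add (Dvd.dvd.mul_left hW _) (Dvd.dvd.mul_left hS2 _)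
  have hcop : IsCoprime r (r ^ 2 + s ^ 2) := by
    have h1 : IsCoprime r (s ^ 2) := hrs.pow_right
    have h2 : IsCoprime r (s ^ 2 + r * r) := h1.add_mul_left_right r
    have h3 : (r ^ 2 + s ^ 2 : ℤ) = s ^ 2 + r * r := by ring
    rw [h3]
    exact h2
  exact (hcop.pow (m := e) (n := z)).dvd_of_dvd_mul_left hdv

end J91
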