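import Mathlib

/-!
# Jeśmanowicz's conjecture for triples with a small leg (MP_252f3f_nt): definitions

The approximation `p f - q` of `f = (1 - T) ^ y / (1 + T) ^ z` at `T = 0` is used at the primes
dividing `r`, for `T = r ^ 2 / s ^ 2`.
-/

open Polynomial

namespace J91

/-- Homogenisation of degree `N` of the polynomial `P`, evaluated at `(a, b)`. -/
noncomputable def hom (P : ℤ[X]) (N : ℕ) (a b : ℤ) : ℤ :=
  ∑ i ∈ Finset.range (N + 1), P.coeff i * a ^ i * b ^ (N - i)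

/-- The sum of the absolute values of the coefficients. -/
noncomputable def nrm (P : ℤ[X]) : ℝ := ∑ i ∈ P.support, |(P.coeff i : ℝ)|

/-- `(1 + T) ^ z` times the remainder `p f - q`, `f = (1 - T) ^ y / (1 + T) ^ z`. -/
noncomputable def RR (y z : ℕ) (p q : ℤ[X]) : ℤ[X] := p * (1 - X) ^ y - q * (1 + X) ^ z

/-- Derivation step: `(1 - T²) (p f)' = (stP y z p) f`. -/
noncomputable def stP (y z : ℕ) (p : ℤ[X]) : ℤ[X] :=
  (1 - X ^ 2) * derivative p - (C (z : ℤ) * (1 - X) + C (y : ℤ) * (1 + X)) * p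

/-- Derivation step: `(1 - T²) q'`. -/
noncomputable def stQ (q : ℤ[X]) : ℤ[X] := (1 - X ^ 2) * derivative q

/-- Iterates of `stP`. -/
noncomputable def itP (y z : ℕ) (p : ℤ[X]) (j : ℕ) : ℤ[X] := (stP y z)^[j] p

/-- Iterates of `stQ`. -/
noncomputable def itQ (q : ℤ[X]) (j : ℕ) : ℤ[X] := stQ^[j] q

/-- The Wronskian of `p f` and `q`, up to known factors. -/
noncomputable def Del (y z : ℕ) (p q : ℤ[X]) : ℤ[X] := p * stQ q - stP y z p * q

/-- The integer which is divisible by a high power of `r` (for `a = r ^ 2`, `b = s ^ 2`). -/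
noncomputable def EE (y d : ℕ) (G k : ℤ) (p q : ℤ[X]) (N : ℕ) (a b : ℤ) : ℤ :=
  (k * b) ^ d * hom p N a b - (-1) ^ y * G * hom q N a b

/-- The coefficients of `(1 - T) ^ y / (1 + T) ^ z` (for `1 ≤ z`). -/
def fc (y z n : ℕ) : ℤ :=
  (-1) ^ n * ∑ i ∈ Finset.range (n + 1), ((y.choose i * (z - 1 + (n - i)).choose (n - i) : ℕ) : ℤ)

end J91
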