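import Pool.Agent.LibJ91.Defs

namespace J91

/-- Row F1. `fc` are the coefficients of `(1 - T) ^ y / (1 + T) ^ z`. Mathlib has
`PowerSeries.invOneSubPow` (`invOneSubPow_val_eq_mk_sub_one_add_choose_of_pos` or similar); here with
`T` replaced by `-T` (`PowerSeries.rescale (-1)`, `evalNegHom`). Alternative: induction on `z` from
`z = 1`. -/
theorem fc_mul (y : ℕ) {z : ℕ} (hz : 1 ≤ z) :
    PowerSeries.mk (fc y z) * (1 + PowerSeries.X) ^ z = (1 - PowerSeries.X) ^ y := by
  obtain ⟨d, rfl⟩ : ∃ d, z = d + 1 := ⟨z - 1, by omega⟩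
  set B : PowerSeries ℤ := PowerSeries.mk fun n => ((Nat.choose (d + n) d : ℕ) : ℤ) with hB
  have hB1 : B * ((1 - PowerSeries.X) ^ (d + 1)) = 1 :=
    PowerSeries.mk_add_choose_mul_one_sub_pow_eq_one ℤ d
  have hA : ∀ k, PowerSeries.coeff k ((1 + PowerSeries.X : PowerSeries ℤ) ^ y) =
      ((y.choose k : ℕ) : ℤ) := by
    intro k
    have h1 : ((1 + PowerSeries.X : PowerSeries ℤ) ^ y) =
        (((1 + Polynomial.X) ^ y : Polynomial ℤ) : PowerSeries ℤ) := by
      rw [Polynomial.coe_pow, Polynomial.coe_add, Polynomial.coe_one, Polynomial.coe_X]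
    rw [h1, Polynomial.coeff_coe, Polynomial.coeff_one_add_X_pow]
  have hmk : PowerSeries.mk (fc y (d + 1)) =
      PowerSeries.rescale (-1 : ℤ) ((1 + PowerSeries.X) ^ y * B) := by
    ext n
    rw [PowerSeries.coeff_mk, PowerSeries.coeff_rescale, PowerSeries.coeff_mul, fc,
      Finset.Nat.sum_antidiagonal_eq_sum_range_succ_mk]
    congr 1
    refine Finset.sum_congr rfl fun i _ => ?_
    rw [hA, hB, PowerSeries.coeff_mk, Nat.add_sub_cancel, Nat.cast_mul, Nat.choose_symm_add]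
  have hX : PowerSeries.rescale (-1 : ℤ) PowerSeries.X = -PowerSeries.X :=
    PowerSeries.rescale_neg_one_X
  have hplus : (1 + PowerSeries.X : PowerSeries ℤ) ^ (d + 1) =
      PowerSeries.rescale (-1 : ℤ) ((1 - PowerSeries.X) ^ (d + 1)) := by
    rw [map_pow, map_sub, map_one, hX, sub_neg_eq_add]
  rw [hmk, hplus, ← map_mul, mul_assoc, hB1, mul_one, map_pow, map_add, map_one, hX,
    ← sub_eq_add_neg]

/-- Row F1. Size of the coefficients: `(z - 1 + j).choose j ≤ 2 ^ (z - 1 + j)`, the term `i = 0` is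
positive, and `∑ i, y.choose i ≤ 2 ^ y`. -/
theorem fc_size (y : ℕ) {z : ℕ} (hz : 1 ≤ z) (n : ℕ) :
    ∃ F : ℕ, 1 ≤ F ∧ F ≤ 2 ^ (y + z + n) ∧ fc y z n = (-1) ^ n * F := by
  refine ⟨∑ i ∈ Finset.range (n + 1), y.choose i * (z - 1 + (n - i)).choose (n - i), ?_, ?_, ?_⟩
  · have h1 : y.choose 0 * (z - 1 + (n - 0)).choose (n - 0) ≤
        ∑ i ∈ Finset.range (n + 1), y.choose i * (z - 1 + (n - i)).choose (n - i) :=
      Finset.single_le_sum (f := fun i => y.choose i * (z - 1 + (n - i)).choose (n - i))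
        (fun _ _ => Nat.zero_le _) (Finset.mem_range.2 (Nat.succ_pos n))
    refine le_trans ?_ h1
    rw [Nat.choose_zero_right, one_mul, Nat.sub_zero]
    exact Nat.choose_pos (Nat.le_add_left _ _)
  · have h2 : ∑ i ∈ Finset.range (n + 1), y.choose i ≤ 2 ^ y := by
      rw [← Nat.sum_range_choose]
      apply Finset.sum_le_sum_of_ne_zero
      intro i _ hi
      rw [Finset.mem_range]
      by_contra h
      exact hi (Nat.choose_eq_zero_of_lt (by omega))
    calc ∑ i ∈ Finset.range (n + 1), y.choose i * (z - 1 + (n - i)).choose (n - i)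
        ≤ ∑ i ∈ Finset.range (n + 1), y.choose i * 2 ^ (z + n) := by
          refine Finset.sum_le_sum fun i _ => Nat.mul_le_mul_left _ ?_
          refine le_trans (Nat.choose_le_two_pow _ _) (Nat.pow_le_pow_right two_pos ?_)
          omega
      _ = (∑ i ∈ Finset.range (n + 1), y.choose i) * 2 ^ (z + n) := by rw [Finset.sum_mul]
      _ ≤ 2 ^ y * 2 ^ (z + n) := Nat.mul_le_mul_right _ h2
      _ = 2 ^ (y + z + n) := by rw [← pow_add, add_assoc]
  · rw [fc, Nat.cast_sum]

end J91
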