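import Pool.Agent.LibJ91.Defs

open Polynomial

namespace J91

/-- Row H1. The homogenisation is `b ^ N * P(a / b)`. Both sides are sums over `range (N + 1)`
(`Polynomial.eval_eq_sum_range'` for the mapped polynomial, whose natDegree is at most `N`), and
`b ^ N * (a / b) ^ i = a ^ i * b ^ (N - i)` for `i ≤ N`. -/
theorem hom_eval {P : ℤ[X]} {N : ℕ} (hP : P.natDegree ≤ N) (a : ℤ) {b : ℤ} (hb : b ≠ 0) :
    ((hom P N a b : ℤ) : ℚ) =
      (b : ℚ) ^ N * (P.map (Int.castRingHom ℚ)).eval ((a : ℚ) / (b : ℚ)) := by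
  have hb' : (b : ℚ) ≠ 0 := by exact_mod_cast hb
  have hdeg : (P.map (Int.castRingHom ℚ)).natDegree < N + 1 :=
    lt_of_le_of_lt (natDegree_map_le) (Nat.lt_succ_of_le hP)
  rw [Polynomial.eval_eq_sum_range' hdeg, hom, Int.cast_sum, Finset.mul_sum]
  refine Finset.sum_congr rfl (fun i hi => ?_)
  have hi' : i ≤ N := Nat.lt_succ_iff.mp (Finset.mem_range.mp hi)
  obtain ⟨j, rfl⟩ := Nat.exists_eq_add_of_le hi'
  rw [coeff_map]
  simp only [eq_intCast, Int.cast_mul, Int.cast_pow, Nat.add_sub_cancel_left]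
  rw [pow_add, div_pow]
  field_simp

/-- Row H1. Linearity (directly from the definition). -/
theorem hom_sub (P Q : ℤ[X]) (N : ℕ) (a b : ℤ) : hom (P - Q) N a b = hom P N a b - hom Q N a b := by
  simp only [hom, coeff_sub, sub_mul, Finset.sum_sub_distrib]

/-- Row H1. `hom 1 N a b = b ^ N` (only the term `i = 0`). -/
theorem hom_one (N : ℕ) (a b : ℤ) : hom 1 N a b = b ^ N := by
  rw [hom, Finset.sum_eq_single 0]
  · simp
  · intro i _ hi
    simp [coeff_one, hi]
  · intro h
    exact absurd (Finset.mem_range.mpr (Nat.succ_pos N)) h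

end J91
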