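import Pool.Agent.LibJ91.H1

open Polynomial

namespace J91

/-- Row H2. Multiplicativity: cast to `ℚ` and use `hom_eval` three times
(`natDegree_mul_le`, `Polynomial.map_mul`, `eval_mul`, `pow_add`). -/
theorem hom_mul {P Q : ℤ[X]} {M N : ℕ} (hP : P.natDegree ≤ M) (hQ : Q.natDegree ≤ N) (a : ℤ)
    {b : ℤ} (hb : b ≠ 0) : hom (P * Q) (M + N) a b = hom P M a b * hom Q N a b := by
  have h1 : ((hom (P * Q) (M + N) a b : ℤ) : ℚ) = ((hom P M a b * hom Q N a b : ℤ) : ℚ) := by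
    rw [hom_eval (natDegree_mul_le.trans (Nat.add_le_add hP hQ)) a hb, Int.cast_mul,
      hom_eval hP a hb, hom_eval hQ a hb, Polynomial.map_mul, eval_mul, pow_add]
    ring
  exact_mod_cast h1

private theorem H2_natDegree_one_sub (y : ℕ) : ((1 - X : ℤ[X]) ^ y).natDegree ≤ y := by
  refine natDegree_pow_le.trans ?_
  have h : (1 - X : ℤ[X]).natDegree ≤ 1 := by
    refine (natDegree_sub_le _ _).trans ?_
    simp
  calc y * (1 - X : ℤ[X]).natDegree ≤ y * 1 := Nat.mul_le_mul_left y h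
    _ = y := mul_one y

private theorem H2_natDegree_one_add (y : ℕ) : ((1 + X : ℤ[X]) ^ y).natDegree ≤ y := by
  refine natDegree_pow_le.trans ?_
  have h : (1 + X : ℤ[X]).natDegree ≤ 1 := by
    refine (natDegree_add_le _ _).trans ?_
    simp
  calc y * (1 + X : ℤ[X]).natDegree ≤ y * 1 := Nat.mul_le_mul_left y h
    _ = y := mul_one y

/-- Row H2. `hom ((1 - T) ^ y) (y + d) = b ^ d * (b - a) ^ y` (`hom_eval`, or induction with
`hom_mul`). -/
theorem hom_one_sub_pow (y d : ℕ) (a : ℤ) {b : ℤ} (hb : b ≠ 0) :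
    hom ((1 - X) ^ y) (y + d) a b = b ^ d * (b - a) ^ y := by
  have hbq : (b : ℚ) ≠ 0 := by exact_mod_cast hb
  have h1 : ((hom ((1 - X) ^ y) (y + d) a b : ℤ) : ℚ) = ((b ^ d * (b - a) ^ y : ℤ) : ℚ) := by
    rw [hom_eval ((H2_natDegree_one_sub y).trans (Nat.le_add_right y d)) a hb]
    have h2 : ((b : ℚ) - a) ^ y = (b : ℚ) ^ y * (1 - (a : ℚ) / (b : ℚ)) ^ y := by
      rw [← mul_pow]
      congr 1
      field_simp
    push_cast
    rw [h2]
    simp only [Polynomial.map_pow, Polynomial.map_sub, Polynomial.map_one, Polynomial.map_X,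
      eval_pow, eval_sub, eval_one, eval_X]
    rw [pow_add]
    ring
  exact_mod_cast h1

/-- Row H2. `hom ((1 + T) ^ z) z = (a + b) ^ z`. -/
theorem hom_one_add_pow (z : ℕ) (a : ℤ) {b : ℤ} (hb : b ≠ 0) :
    hom ((1 + X) ^ z) z a b = (a + b) ^ z := by
  have hbq : (b : ℚ) ≠ 0 := by exact_mod_cast hb
  have h1 : ((hom ((1 + X) ^ z) z a b : ℤ) : ℚ) = (((a + b) ^ z : ℤ) : ℚ) := by
    rw [hom_eval (H2_natDegree_one_add z) a hb]
    have h2 : ((a : ℚ) + b) ^ z = (b : ℚ) ^ z * (1 + (a : ℚ) / (b : ℚ)) ^ z := by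
      rw [← mul_pow]
      congr 1
      field_simp
      ring
    push_cast
    rw [h2]
    simp only [Polynomial.map_pow, Polynomial.map_add, Polynomial.map_one, Polynomial.map_X,
      eval_pow, eval_add, eval_one, eval_X]
  exact_mod_cast h1

end J91
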