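import Pool.Agent.LibJ91.L1

open Polynomial

namespace J91

private theorem L2_one_sub_deg : (1 - X ^ 2 : ℤ[X]).natDegree ≤ 2 := by
  compute_degree

private theorem L2_der {n : ℕ} {p : ℤ[X]} (hp : p.natDegree ≤ n) :
    ((1 - X ^ 2) * derivative p).natDegree ≤ n + 1 := by
  rcases Nat.eq_zero_or_pos n with h | h
  · subst h
    have h0 : derivative p = 0 := by
      rw [natDegree_eq_zero.1 (Nat.le_zero.1 hp) |>.choose_spec.symm]
      simp
    rw [h0]
    simp
  · refine natDegree_mul_le.trans ?_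
    have h1 := natDegree_derivative_le p
    have h2 := L2_one_sub_deg
    omega

private theorem L2_nrm_one_sub : nrm (1 - X ^ 2 : ℤ[X]) ≤ 2 := by
  refine (nrm_sub_le _ _).trans ?_
  have h := nrm_X_pow_mul 2 (1 : ℤ[X])
  rw [mul_one] at h
  rw [h, nrm_one]
  norm_num

private theorem L2_lin_eq (y z : ℕ) : (C (z : ℤ) * (1 - X) + C (y : ℤ) * (1 + X) : ℤ[X])
    = C ((z : ℤ) + y) * 1 - C ((z : ℤ) - y) * (X ^ 1 * 1) := by
  simp only [map_add, map_sub]
  ring

/-- Row L2. Degrees of the derivation steps (`natDegree_add_le`, `natDegree_mul_le`,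
`natDegree_derivative_le`). -/
theorem natDegree_stP {y z n : ℕ} {p : ℤ[X]} (hp : p.natDegree ≤ n) :
    (stP y z p).natDegree ≤ n + 1 := by
  unfold stP
  refine (natDegree_sub_le _ _).trans (max_le (L2_der hp) ?_)
  refine natDegree_mul_le.trans ?_
  have h : (C (z : ℤ) * (1 - X) + C (y : ℤ) * (1 + X) : ℤ[X]).natDegree ≤ 1 := by
    compute_degree
  omega

theorem natDegree_stQ {n : ℕ} {q : ℤ[X]} (hq : q.natDegree ≤ n) : (stQ q).natDegree ≤ n + 1 :=
  L2_der hq

/-- Row L2. Norm of the derivation steps. `nrm (1 - X ^ 2) ≤ 2`, `nrm_derivative_le`; the linear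
factor is `(z + y) - (z - y) X`, of norm `2 z` for `y ≤ z`. -/
theorem nrm_stQ {n : ℕ} {q : ℤ[X]} (hq : q.natDegree ≤ n) : nrm (stQ q) ≤ 2 * n * nrm q := by
  unfold stQ
  refine (nrm_mul_le _ _).trans ?_
  have h1 := nrm_derivative_le q n hq
  have h2 := L2_nrm_one_sub
  have h3 := nrm_nonneg (derivative q)
  calc nrm (1 - X ^ 2 : ℤ[X]) * nrm (derivative q) ≤ 2 * (n * nrm q) := by gcongr
    _ = 2 * n * nrm q := by ring

theorem nrm_stP {y z n : ℕ} (hyz : y ≤ z) {p : ℤ[X]} (hp : p.natDegree ≤ n) :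
    nrm (stP y z p) ≤ (2 * n + 2 * z) * nrm p := by
  unfold stP
  refine (nrm_sub_le _ _).trans ?_
  have h1 : nrm ((1 - X ^ 2) * derivative p) ≤ 2 * n * nrm p := nrm_stQ hp
  have h2 : nrm (C (z : ℤ) * (1 - X) + C (y : ℤ) * (1 + X) : ℤ[X]) ≤ 2 * z := by
    rw [L2_lin_eq]
    refine (nrm_sub_le _ _).trans ?_
    rw [nrm_C_mul, nrm_C_mul, nrm_X_pow_mul, nrm_one, mul_one, mul_one]
    push_cast
    have h3 : (y : ℝ) ≤ z := by exact_mod_cast hyz
    rw [abs_of_nonneg (by positivity), abs_of_nonneg (by linarith)]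
    linarith
  have h4 := nrm_mul_le (C (z : ℤ) * (1 - X) + C (y : ℤ) * (1 + X)) p
  have h5 := nrm_nonneg p
  have h6 : nrm (C (z : ℤ) * (1 - X) + C (y : ℤ) * (1 + X) : ℤ[X]) * nrm p ≤ 2 * z * nrm p := by
    gcongr
  linarith

end J91
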