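import Pool.Agent.LibJ91.L2

open Polynomial

namespace J91

/-- Row L3. Induction on `j` with `Function.iterate_succ_apply'` and row L2. -/
theorem natDegree_itP {y z n : ℕ} {p : ℤ[X]} (hp : p.natDegree ≤ n) (j : ℕ) :
    (itP y z p j).natDegree ≤ n + j := by
  induction j with
  | zero => simpa [itP] using hp
  | succ j ih =>
    have h1 : itP y z p (j + 1) = stP y z (itP y z p j) := Function.iterate_succ_apply' _ _ _
    rw [h1]
    exact natDegree_stP ih

theorem natDegree_itQ {n : ℕ} {q : ℤ[X]} (hq : q.natDegree ≤ n) (j : ℕ) :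
    (itQ q j).natDegree ≤ n + j := by
  induction j with
  | zero => simpa [itQ] using hq
  | succ j ih =>
    have h1 : itQ q (j + 1) = stQ (itQ q j) := Function.iterate_succ_apply' _ _ _
    rw [h1]
    exact natDegree_stQ ih

/-- Row L3. Norm of the iterates: in each of the `j` steps the degree is at most `n + j ≤ M`, so the
factor of row L2 is at most `4 M`. -/
theorem nrm_itP {y z n M : ℕ} (hyz : y ≤ z) (hz : z ≤ M) {p : ℤ[X]} (hp : p.natDegree ≤ n) (j : ℕ)
    (hj : n + j ≤ M) : nrm (itP y z p j) ≤ (4 * M) ^ j * nrm p := by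
  induction j with
  | zero => simp [itP]
  | succ j ih =>
    have h1 : itP y z p (j + 1) = stP y z (itP y z p j) := Function.iterate_succ_apply' _ _ _
    rw [h1]
    have h2 := nrm_stP (z := z) hyz (natDegree_itP (y := y) (z := z) hp j)
    have h3 := ih (by omega)
    have h4 : (2 * ((n + j : ℕ) : ℝ) + 2 * (z : ℝ)) ≤ 4 * M := by
      have h5 : ((n + j : ℕ) : ℝ) ≤ M := by exact_mod_cast (show n + j ≤ M by omega)
      have h6 : (z : ℝ) ≤ M := by exact_mod_cast hz
      linarith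
    have h7 : (0 : ℝ) ≤ 4 * M := by positivity
    calc nrm (stP y z (itP y z p j))
        ≤ (2 * ((n + j : ℕ) : ℝ) + 2 * (z : ℝ)) * nrm (itP y z p j) := h2
      _ ≤ (4 * M) * nrm (itP y z p j) := mul_le_mul_of_nonneg_right h4 (nrm_nonneg _)
      _ ≤ (4 * M) * ((4 * M) ^ j * nrm p) := mul_le_mul_of_nonneg_left h3 h7
      _ = (4 * M) ^ (j + 1) * nrm p := by ring

theorem nrm_itQ {n M : ℕ} {q : ℤ[X]} (hq : q.natDegree ≤ n) (j : ℕ) (hj : n + j ≤ M) :
    nrm (itQ q j) ≤ (4 * M) ^ j * nrm q := by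
  induction j with
  | zero => simp [itQ]
  | succ j ih =>
    have h1 : itQ q (j + 1) = stQ (itQ q j) := Function.iterate_succ_apply' _ _ _
    rw [h1]
    have h2 := nrm_stQ (natDegree_itQ hq j)
    have h3 := ih (by omega)
    have h4 : (2 * ((n + j : ℕ) : ℝ)) ≤ 4 * M := by
      have h5 : ((n + j : ℕ) : ℝ) ≤ M := by exact_mod_cast (show n + j ≤ M by omega)
      have h6 : (0 : ℝ) ≤ M := Nat.cast_nonneg _
      linarith
    have h7 : (0 : ℝ) ≤ 4 * M := by positivity
    calc nrm (stQ (itQ q j))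
        ≤ (2 * ((n + j : ℕ) : ℝ)) * nrm (itQ q j) := h2
      _ ≤ (4 * M) * nrm (itQ q j) := mul_le_mul_of_nonneg_right h4 (nrm_nonneg _)
      _ ≤ (4 * M) * ((4 * M) ^ j * nrm q) := mul_le_mul_of_nonneg_left h3 h7
      _ = (4 * M) ^ (j + 1) * nrm q := by ring

end J91
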