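import Pool.Agent.LibJ91.Defs

open Polynomial

namespace J91

private theorem R1_dm (y : ℕ) :
    derivative ((1 - X : ℤ[X]) ^ y) * (1 - X) = -(C (y : ℤ) * (1 - X) ^ y) := by
  rcases y with _ | n
  · simp
  · rw [derivative_pow_succ, derivative_sub, derivative_one, derivative_X, pow_succ]
    push_cast
    ring

private theorem R1_dp (z : ℕ) :
    derivative ((1 + X : ℤ[X]) ^ z) * (1 + X) = C (z : ℤ) * (1 + X) ^ z := by
  rcases z with _ | n
  · simp
  · rw [derivative_pow_succ, derivative_add, derivative_one, derivative_X, pow_succ]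
    push_cast
    ring

/-- Row R1. The derivation step on the remainder:
`R₁ = (1 - T²) R' - z (1 - T) R`. Use `derivative_pow` (for the exponents `0` and `n + 1`
separately: `derivative ((1 - X) ^ y) * (1 - X) = - C y * (1 - X) ^ y` and
`derivative ((1 + X) ^ z) * (1 + X) = C z * (1 + X) ^ z` hold for all `y`, `z`), then
`1 - X ^ 2 = (1 - X) * (1 + X)` and `ring`. -/
theorem RR_step (y z : ℕ) (p q : ℤ[X]) : RR y z (stP y z p) (stQ q) =
    (1 - X ^ 2) * derivative (RR y z p q) - C (z : ℤ) * (1 - X) * RR y z p q := by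
  have h1 := R1_dm y
  have h2 := R1_dp z
  unfold RR stP stQ
  rw [derivative_sub, derivative_mul, derivative_mul]
  linear_combination (-(p * (1 + X))) * h1 + (q * (1 - X)) * h2

/-- Row R1. Divisibility of the iterates by powers of `T`: `X ^ m ∣ R` implies
`X ^ (m - 1) ∣ derivative R` and so `X ^ (m - 1) ∣ R₁`; induction on `j`. -/
theorem RR_dvd {y z m : ℕ} {p q : ℤ[X]} (h : X ^ m ∣ RR y z p q) (j : ℕ) :
    X ^ (m - j) ∣ RR y z (itP y z p j) (itQ q j) := by
  induction j with
  | zero =>
    show X ^ m ∣ RR y z p q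
    exact h
  | succ j ih =>
    have hp : itP y z p (j + 1) = stP y z (itP y z p j) := by
      unfold itP
      rw [Function.iterate_succ_apply']
    have hq : itQ q (j + 1) = stQ (itQ q j) := by
      unfold itQ
      rw [Function.iterate_succ_apply']
    rw [hp, hq, RR_step]
    have h1 : X ^ (m - (j + 1)) ∣ derivative (RR y z (itP y z p j) (itQ q j)) := by
      have h2 := pow_sub_one_dvd_derivative_of_pow_dvd ih
      rwa [Nat.sub_sub] at h2
    have h3 : X ^ (m - (j + 1)) ∣ RR y z (itP y z p j) (itQ q j) :=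
      dvd_trans (pow_dvd_pow _ (by omega)) ih
    exact dvd_sub (Dvd.dvd.mul_left h1 _) (Dvd.dvd.mul_left h3 _)

end J91
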