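import Pool.Agent.LibJ91.S1
import Pool.Agent.LibJ91.F2

open Polynomial

namespace J91

/-- Row S2. `siegel_p` and `exists_q` with `c = 9 ν`; both norms are at most
`(10 ν + 1) ((10 ν + 1) 2 ^ M) ^ 9 * 2 ^ (M + 1) = 2 ((10 ν + 1) 2 ^ M) ^ 10`. -/
theorem siegel_pq {y z n₂ ν M : ℕ} (hz : 1 ≤ z) (hν : 1 ≤ ν) (hM : y + z + n₂ + 9 * ν ≤ M) :
    ∃ p q : ℤ[X], p ≠ 0 ∧ p.natDegree ≤ 10 * ν ∧ q.natDegree ≤ n₂ ∧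
      X ^ (n₂ + 9 * ν + 1) ∣ RR y z p q ∧
      nrm p ≤ 2 * ((10 * ν + 1) * 2 ^ M) ^ 10 ∧ nrm q ≤ 2 * ((10 * ν + 1) * 2 ^ M) ^ 10 := by
  obtain ⟨p, hp0, hpd, hpe, hpn⟩ := siegel_p hz hν hM
  obtain ⟨q, hqd, hqv, hqn, -⟩ := exists_q hz p n₂ (9 * ν) hpe
  refine ⟨p, q, hp0, hpd, hqd, hqv, ?_, ?_⟩
  · refine hpn.trans ?_
    have h1 : (1 : ℝ) ≤ 2 ^ M := one_le_pow₀ (by norm_num)
    have h2 : (0 : ℝ) ≤ 10 * (ν : ℝ) + 1 := by positivity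
    have h3 : (10 * (ν : ℝ) + 1) ≤ 2 * ((10 * (ν : ℝ) + 1) * 2 ^ M) := by nlinarith
    calc (10 * (ν : ℝ) + 1) * ((10 * (ν : ℝ) + 1) * 2 ^ M) ^ 9
        ≤ (2 * ((10 * (ν : ℝ) + 1) * 2 ^ M)) * ((10 * (ν : ℝ) + 1) * 2 ^ M) ^ 9 :=
          mul_le_mul_of_nonneg_right h3 (by positivity)
      _ = 2 * ((10 * (ν : ℝ) + 1) * 2 ^ M) ^ 10 := by ring
  · have h0 : 0 ≤ nrm p := Finset.sum_nonneg fun i _ => abs_nonneg _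
    have h1 : (2 : ℝ) ^ (y + z + n₂ + 1) ≤ 2 ^ M := pow_le_pow_right₀ (by norm_num) (by omega)
    calc nrm q ≤ nrm p * 2 ^ (y + z + n₂ + 1) := hqn
      _ ≤ nrm p * 2 ^ M := mul_le_mul_of_nonneg_left h1 h0
      _ ≤ ((10 * (ν : ℝ) + 1) * ((10 * (ν : ℝ) + 1) * 2 ^ M) ^ 9) * 2 ^ M :=
          mul_le_mul_of_nonneg_right hpn (by positivity)
      _ = ((10 * (ν : ℝ) + 1) * 2 ^ M) ^ 10 := by ring
      _ ≤ 2 * ((10 * (ν : ℝ) + 1) * 2 ^ M) ^ 10 := by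
          have : (0 : ℝ) ≤ ((10 * (ν : ℝ) + 1) * 2 ^ M) ^ 10 := by positivity
          linarith

end J91
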