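import Pool.Agent.LibJ91.R1
import Pool.Agent.LibJ91.L2

open Polynomial

namespace J91

/-- Row W3. `(1 + X) ^ z * Del = p₁ * R - p * R₁`, with `p₁ = stP y z p` and
`R₁ = RR y z p₁ (stQ q)`; `X ^ (m - 1)` divides `R` and `R₁` (`RR_dvd` with `j = 1`) and is coprime
to `1 + X`. -/
theorem Del_dvd {y z m : ℕ} {p q : ℤ[X]} (hR : X ^ m ∣ RR y z p q) :
    X ^ (m - 1) ∣ Del y z p q := by
  have h1 : (X : ℤ[X]) ^ (m - 1) ∣ RR y z p q := (pow_dvd_pow X (Nat.sub_le m 1)).trans hR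
  have h2 : (X : ℤ[X]) ^ (m - 1) ∣ RR y z (stP y z p) (stQ q) := RR_dvd hR 1
  have key : (1 + X : ℤ[X]) ^ z * Del y z p q =
      stP y z p * RR y z p q - p * RR y z (stP y z p) (stQ q) := by
    unfold Del RR
    ring
  have h3 : (X : ℤ[X]) ^ (m - 1) ∣ (1 + X : ℤ[X]) ^ z * Del y z p q := by
    rw [key]
    exact dvd_sub (Dvd.dvd.mul_left h1 _) (Dvd.dvd.mul_left h2 _)
  have hcop : IsCoprime (X : ℤ[X]) (1 + X) := ⟨-1, 1, by ring⟩
  exact (hcop.pow (m := m - 1) (n := z)).dvd_of_dvd_mul_left h3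

/-- Row W3. Degree of `Del`. -/
theorem natDegree_Del {y z n₁ n₂ : ℕ} {p q : ℤ[X]} (hp : p.natDegree ≤ n₁)
    (hq : q.natDegree ≤ n₂) : (Del y z p q).natDegree ≤ n₁ + n₂ + 1 := by
  have hP := natDegree_stP (y := y) (z := z) hp
  have hQ := natDegree_stQ hq
  have h1 : (p * stQ q).natDegree ≤ n₁ + n₂ + 1 :=
    natDegree_mul_le.trans (by omega)
  have h2 : (stP y z p * q).natDegree ≤ n₁ + n₂ + 1 :=
    natDegree_mul_le.trans (by omega)
  unfold Del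
  exact (natDegree_sub_le _ _).trans (max_le h1 h2)

end J91
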