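import Pool.Agent.LibJ91.H1
import Pool.Agent.LibJ91.L3

open Polynomial

namespace J91

/-- The relation between the minors of consecutive iterates. -/
private theorem W4_rel (y z : ℕ) (p q : ℤ[X]) (i j : ℕ) :
    (1 - X ^ 2) * derivative (itP y z p i * itQ q j - itP y z p j * itQ q i) =
      (itP y z p (i + 1) * itQ q j - itP y z p j * itQ q (i + 1)) +
      (itP y z p i * itQ q (j + 1) - itP y z p (j + 1) * itQ q i) +
      (C (z : ℤ) * (1 - X) + C (y : ℤ) * (1 + X)) *
        (itP y z p i * itQ q j - itP y z p j * itQ q i) := by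
  have hP : ∀ m, itP y z p (m + 1) = stP y z (itP y z p m) := fun m => by
    rw [itP, Function.iterate_succ_apply']; rfl
  have hQ : ∀ m, itQ q (m + 1) = stQ (itQ q m) := fun m => by
    rw [itQ, Function.iterate_succ_apply']; rfl
  rw [hP, hP, hQ, hQ, stP, stP, stQ, stQ]
  simp only [derivative_sub, derivative_mul]
  ring

private theorem W4_dvd {F : ℚ[X]} {t : ℚ} {l : ℕ} (ht : t ^ 2 ≠ 1) (hroot : F.eval t = 0)
    (h : (X - C t) ^ (l + 1) ∣ (1 - X ^ 2) * derivative F) : (X - C t) ^ (l + 2) ∣ F := by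
  have hcop : IsCoprime ((X - C t) ^ (l + 1)) (1 - X ^ 2 : ℚ[X]) := by
    apply IsCoprime.pow_left
    rw [(irreducible_X_sub_C t).coprime_iff_not_dvd, dvd_iff_isRoot]
    intro h'
    rw [IsRoot.def] at h'
    simp only [eval_sub, eval_one, eval_pow, eval_X] at h'
    exact ht (by linarith)
  have h1 : (X - C t) ^ (l + 1) ∣ derivative F := hcop.dvd_of_dvd_mul_left h
  by_cases hF : F = 0
  · rw [hF]; exact dvd_zero _
  have hF' : derivative F ≠ 0 := by
    intro h0
    have h2 := natDegree_eq_zero_of_derivative_eq_zero h0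
    have h3 := eq_C_of_natDegree_eq_zero h2
    rw [h3, eval_C] at hroot
    rw [hroot, C_0] at h3
    exact hF h3
  have h4 := (le_rootMultiplicity_iff hF').2 h1
  rw [derivative_rootMultiplicity_of_root hroot] at h4
  exact (le_rootMultiplicity_iff hF).1 (by omega)

/-- Row W4. Write `P j = itP y z p j`, `Q j = itQ q j`, `D i j = P i * Q j - P j * Q i`. With
`g = -(C z * (1 - X) + C y * (1 + X))`, `P (j + 1) = (1 - X²) (P j)' + g P j` and
`Q (j + 1) = (1 - X²) (Q j)'`, hence `(1 - X²) (D i j)' = D (i+1) j + D i (j+1) - g * D i j`.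
So if all `D i j` with `i, j ≤ J` vanish at a point `t` (over `ℚ`) with `t² ≠ 1`, then by induction
on `l` the `l`-th derivative of every `D i j` with `i + l ≤ J`, `j + l ≤ J` vanishes at `t`
(differentiate the relation, or argue with root multiplicities: if all `D i j` with
`i, j ≤ K + 1` have multiplicity at least `l` at `t`, then `(D i j)'` with `i, j ≤ K` has
multiplicity at least `l`, and `D i j (t) = 0` in characteristic zero gives multiplicity at least
`l + 1`). Conclusion: `(X - C t) ^ J` divides `D 0 1`, which is `Del y z p q`. -/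
theorem Del_order {y z J : ℕ} {p q : ℤ[X]} {t : ℚ} (ht : t ^ 2 ≠ 1)
    (h : ∀ i ≤ J, ∀ j ≤ J,
      ((itP y z p i * itQ q j - itP y z p j * itQ q i).map (Int.castRingHom ℚ)).eval t = 0) :
    (X - C t) ^ J ∣ (Del y z p q).map (Int.castRingHom ℚ) := by
  have key : ∀ l K : ℕ, K + l ≤ J → ∀ i ≤ K, ∀ j ≤ K,
      (X - C t) ^ (l + 1) ∣
        (itP y z p i * itQ q j - itP y z p j * itQ q i).map (Int.castRingHom ℚ) := by
    intro l
    induction l with
    | zero =>
      intro K hK i hi j hj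
      rw [zero_add, pow_one, dvd_iff_isRoot]
      exact h i (by omega) j (by omega)
    | succ l ih =>
      intro K hK i hi j hj
      apply W4_dvd ht (h i (by omega) j (by omega))
      have hrel := congrArg (Polynomial.map (Int.castRingHom ℚ)) (W4_rel y z p q i j)
      rw [Polynomial.map_mul, ← derivative_map, Polynomial.map_sub, Polynomial.map_one,
        Polynomial.map_pow, Polynomial.map_X] at hrel
      rw [hrel, Polynomial.map_add, Polynomial.map_add, Polynomial.map_mul]
      refine dvd_add (dvd_add ?_ ?_) (Dvd.dvd.mul_left ?_ _)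
      · exact ih (K + 1) (by omega) (i + 1) (by omega) j (by omega)
      · exact ih (K + 1) (by omega) i (by omega) (j + 1) (by omega)
      · exact ih (K + 1) (by omega) i (by omega) j (by omega)
  rcases Nat.eq_zero_or_pos J with hJ | hJ
  · subst hJ
    rw [pow_zero]
    exact one_dvd _
  · have h1 := key (J - 1) 1 (by omega) 0 (by omega) 1 le_rfl
    rw [Nat.sub_add_cancel hJ] at h1
    have h2 : itP y z p 0 * itQ q 1 - itP y z p 1 * itQ q 0 = Del y z p q := by
      simp only [itP, itQ, Del, Function.iterate_zero, Function.iterate_one, id]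
    rwa [h2] at h1

/-- Row W4. If all the integers `EE` of the iterates up to `J` vanish, then `Del` vanishes to order
`J` at `a / b`: by `hom_eval`, `EE = 0` means `λ P j (t) = μ Q j (t)` with `t = a / b`,
`λ = (k b) ^ d`, `μ = (-1) ^ y G ≠ 0`, so `D i j (t) = 0` for all `i, j ≤ J`. -/
theorem Del_order_of_EE {y z d n J : ℕ} {G k a b : ℤ} {p q : ℤ[X]} (hp : p.natDegree ≤ n)
    (hq : q.natDegree ≤ n) (hb : b ≠ 0) (hab : a ^ 2 ≠ b ^ 2) (hG : G ≠ 0)
    (h : ∀ j ≤ J, EE y d G k (itP y z p j) (itQ q j) (n + j) a b = 0) :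
    (X - C ((a : ℚ) / b)) ^ J ∣ (Del y z p q).map (Int.castRingHom ℚ) := by
  have hbQ : (b : ℚ) ≠ 0 := by exact_mod_cast hb
  have ht : ((a : ℚ) / b) ^ 2 ≠ 1 := by
    rw [div_pow, Ne, div_eq_one_iff_eq (pow_ne_zero 2 hbQ)]
    exact_mod_cast hab
  apply Del_order ht
  have hmu : ((-1 : ℚ) ^ y * G) ≠ 0 :=
    mul_ne_zero (pow_ne_zero _ (by norm_num)) (by exact_mod_cast hG)
  have key : ∀ j ≤ J, (((k * b : ℤ) : ℚ)) ^ d *
      ((itP y z p j).map (Int.castRingHom ℚ)).eval ((a : ℚ) / b) =
      ((-1 : ℚ) ^ y * G) * ((itQ q j).map (Int.castRingHom ℚ)).eval ((a : ℚ) / b) := by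
    intro j hj
    have h1 := h j hj
    rw [EE] at h1
    have h2 : ((((k * b) ^ d * hom (itP y z p j) (n + j) a b -
        (-1) ^ y * G * hom (itQ q j) (n + j) a b : ℤ)) : ℚ) = 0 := by
      rw [h1, Int.cast_zero]
    push_cast at h2
    rw [hom_eval (natDegree_itP hp j) a hb, hom_eval (natDegree_itQ hq j) a hb] at h2
    have h3 : (b : ℚ) ^ (n + j) ≠ 0 := pow_ne_zero _ hbQ
    apply mul_left_cancel₀ h3
    push_cast
    linarith
  intro i hi j hj
  have hi' := key i hi
  have hj' := key j hj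
  rw [Polynomial.map_sub, Polynomial.map_mul, Polynomial.map_mul, eval_sub, eval_mul, eval_mul]
  set Pi := ((itP y z p i).map (Int.castRingHom ℚ)).eval ((a : ℚ) / b)
  set Pj := ((itP y z p j).map (Int.castRingHom ℚ)).eval ((a : ℚ) / b)
  set Qi := ((itQ q i).map (Int.castRingHom ℚ)).eval ((a : ℚ) / b)
  set Qj := ((itQ q j).map (Int.castRingHom ℚ)).eval ((a : ℚ) / b)
  apply mul_left_cancel₀ hmu
  have e1 : ((-1 : ℚ) ^ y * G) * (Pi * Qj - Pj * Qi) =
      Pi * (((-1 : ℚ) ^ y * G) * Qj) - Pj * (((-1 : ℚ) ^ y * G) * Qi) := by ring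
  rw [e1, ← hi', ← hj', mul_zero]
  ring

end J91
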