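import Pool.Agent.LibJ91.W1
import Pool.Agent.LibJ91.W3
import Pool.Agent.LibJ91.W4

open Polynomial

namespace J91

/-- Row W5. Nonvanishing. If all `EE` up to `J` vanish, then over `ℚ` the nonzero polynomial `Del`
(`Del_ne_zero`) is divisible by `X ^ (m - 1)` and by `(X - C (a / b)) ^ J`, which are coprime as
`a / b ≠ 0`; so `m - 1 + J ≤ n₁ + n₂ + 1` (`natDegree_Del`), against `hJ`. -/
theorem exists_EE_ne {y z d n₁ n₂ m J : ℕ} {G k a b : ℤ} {p q : ℤ[X]} (hp0 : p ≠ 0)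
    (hp : p.natDegree ≤ n₁) (hq : q.natDegree ≤ n₂) (h12 : n₁ ≤ n₂) (hm : n₁ < m) (hz : n₁ < z)
    (hR : X ^ m ∣ RR y z p q) (ha : a ≠ 0) (hb : b ≠ 0) (hab : a ^ 2 ≠ b ^ 2) (hG : G ≠ 0)
    (hJ : n₁ + n₂ + 3 ≤ J + m) :
    ∃ j ≤ J, EE y d G k (itP y z p j) (itQ q j) (n₂ + j) a b ≠ 0 := by
  by_contra hcon
  have hne : ∀ j ≤ J, EE y d G k (itP y z p j) (itQ q j) (n₂ + j) a b = 0 := by
    intro j hj
    by_contra h
    exact hcon ⟨j, hj, h⟩
  have h1 := Del_order_of_EE (hp.trans h12) hq hb hab hG hne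
  have h2 : (X : ℚ[X]) ^ (m - 1) ∣ (Del y z p q).map (Int.castRingHom ℚ) := by
    have := Polynomial.map_dvd (Int.castRingHom ℚ) (Del_dvd hR)
    simpa using this
  have ht : ((a : ℚ) / b) ≠ 0 := by
    have ha' : (a : ℚ) ≠ 0 := by exact_mod_cast ha
    have hb' : (b : ℚ) ≠ 0 := by exact_mod_cast hb
    exact div_ne_zero ha' hb'
  have hcop : IsCoprime ((X : ℚ[X]) ^ (m - 1)) ((X - C ((a : ℚ) / b)) ^ J) := by
    apply IsCoprime.pow
    have h := Polynomial.isCoprime_X_sub_C_of_isUnit_sub (a := (0 : ℚ)) (b := (a : ℚ) / b)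
      (by rw [zero_sub]; exact (isUnit_iff_ne_zero.2 ht).neg)
    simpa using h
  have h3 := hcop.mul_dvd h2 h1
  have h0 : Del y z p q ≠ 0 := Del_ne_zero hp0 (lt_of_le_of_lt hp hz) (lt_of_le_of_lt hp hm) hR
  have h0' : (Del y z p q).map (Int.castRingHom ℚ) ≠ 0 := by
    rw [Ne, Polynomial.map_eq_zero_iff (Int.castRingHom ℚ).injective_int]
    exact h0
  have h4 := Polynomial.natDegree_le_of_dvd h3 h0'
  have h5 : ((X : ℚ[X]) ^ (m - 1) * (X - C ((a : ℚ) / b)) ^ J).natDegree = (m - 1) + J := by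
    rw [Polynomial.natDegree_mul (pow_ne_zero _ X_ne_zero) (pow_ne_zero _ (X_sub_C_ne_zero _)),
      Polynomial.natDegree_pow, Polynomial.natDegree_pow, Polynomial.natDegree_X, Polynomial.natDegree_X_sub_C,
      mul_one, mul_one]
  have h6 := natDegree_Del (y := y) (z := z) hp hq
  have h7 : ((Del y z p q).map (Int.castRingHom ℚ)).natDegree ≤ (Del y z p q).natDegree :=
    Polynomial.natDegree_map_le
  omega

end J91
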