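import Pool.Agent.LibJ91.D1
import Pool.Agent.LibJ91.R1
import Pool.Agent.LibJ91.W5
import Pool.Agent.LibJ91.S2

open Polynomial

namespace J91

/-- Row M1. The main inequality for large exponents. Let `n₁ = 10 ν`, `n₂ = 10 ν + κ`,
`m = n₂ + 9 ν + 1 = κ + 19 ν + 1` and `M = 3 x` (`y + z + n₂ + 9 ν ≤ 2 x + x / 2 ≤ 3 x`). Take `p, q`
of `siegel_pq`. `exists_EE_ne` with `J = ν + 2`, `a = r²`, `b = s²` gives `j ≤ ν + 2` with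
`E = EE y d G k (itP y z p j) (itQ q j) (n₂ + j) (r²) (s²) ≠ 0` (`10 ν < z` since
`2 (19 ν + 1) ≤ x < 2 z`; `a² ≠ b²` as `s < r`). `RR_dvd` and `EE_dvd` with `m - j` and
`e = 2 (m - j) ≤ x`: `r ^ (2 (m - j)) ∣ E`, so `r ^ (2 (m - j)) ≤ |E|`. By `hom_le` (with
`natDegree_itP`, `n = 10 ν + j`, `N = n₂ + j`, `N - n = κ`) and `nrm_itP` with `M = x`,
`|(k b) ^ d * hom (itP ..)| ≤ k ^ d s ^ (2 d) * P' * r ^ (2 (10 ν + j)) * s ^ (2 κ)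
≤ P' * r ^ (2 (n₂ + j))` by `hsize`, and `|G * hom (itQ ..)| ≤ G * P' * r ^ (2 (n₂ + j))`, where
`P' = (4 x) ^ (ν + 2) * (2 ((10 ν + 1) 2 ^ (3 x)) ^ 10)`. So
`r ^ (2 (m - j)) ≤ 2 G P' r ^ (2 (n₂ + j))`, and
`2 (m - j) - 2 (n₂ + j) = 2 (9 ν + 1 - 2 j) ≥ 14 ν - 6`. -/
theorem propA {r s k G x y z d κ ν : ℕ} (hs : 1 ≤ s) (hsr : s < r) (hcop : r.Coprime s)
    (hG : 1 ≤ G) (hyz : y + d = z) (hzx : z < x) (hxz : x < 2 * z) (hν : 1 ≤ ν)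
    (hdiv : (r : ℤ) ^ x ∣ (k : ℤ) ^ d * ((r : ℤ) ^ 2 + (s : ℤ) ^ 2) ^ z -
      (G : ℤ) * ((r : ℤ) ^ 2 - (s : ℤ) ^ 2) ^ y)
    (hsize : k ^ d * s ^ (2 * (d + κ)) ≤ r ^ (2 * κ)) (hm : 2 * (κ + 19 * ν + 1) ≤ x) :
    (r : ℝ) ^ (14 * ν - 6) ≤
      2 * G * ((4 * x) ^ (ν + 2) * (2 * ((10 * ν + 1) * 2 ^ (3 * x)) ^ 10)) := by
  have hr1 : 1 ≤ r := by omega
  have hrR : (1 : ℝ) ≤ (r : ℝ) := by exact_mod_cast hr1
  have hzpos : 1 ≤ z := by omega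
  have hyz' : y ≤ z := by omega
  set n₂ : ℕ := 10 * ν + κ with hn₂
  obtain ⟨p, q, hp0, hp, hq, hR, hnp, hnq⟩ :=
    siegel_pq (y := y) (z := z) (n₂ := n₂) (ν := ν) (M := 3 * x) hzpos hν (by omega)
  have hr0 : ((r : ℤ) ^ 2) ≠ 0 := by positivity
  have hs0 : ((s : ℤ) ^ 2) ≠ 0 := by positivity
  have hsrZ : (s : ℤ) < (r : ℤ) := by exact_mod_cast hsr
  have hsZ : (0 : ℤ) < (s : ℤ) := by exact_mod_cast hs
  have hab : ((r : ℤ) ^ 2) ^ 2 ≠ ((s : ℤ) ^ 2) ^ 2 := by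
    have h1 : (s : ℤ) ^ 2 < (r : ℤ) ^ 2 := by nlinarith
    have h2 : 0 < (s : ℤ) ^ 2 := by positivity
    have h3 : ((s : ℤ) ^ 2) ^ 2 < ((r : ℤ) ^ 2) ^ 2 := by nlinarith
    exact h3.ne'
  have hG0 : (G : ℤ) ≠ 0 := by
    have : (0 : ℤ) < (G : ℤ) := by exact_mod_cast hG
    exact this.ne'
  obtain ⟨j, hj, hE⟩ := exists_EE_ne (y := y) (z := z) (d := d) (n₁ := 10 * ν) (n₂ := n₂)
    (m := n₂ + 9 * ν + 1) (J := ν + 2) (G := (G : ℤ)) (k := (k : ℤ)) hp0 hp hq (by omega)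
    (by omega) (by omega) hR hr0 hs0 hab hG0 (by omega)
  set m : ℕ := n₂ + 9 * ν + 1 with hmdef
  have hdp : (itP y z p j).natDegree ≤ 10 * ν + j := natDegree_itP hp j
  have hdq : (itQ q j).natDegree ≤ n₂ + j := natDegree_itQ hq j
  have hRj := RR_dvd hR j
  have hcopZ : IsCoprime (r : ℤ) (s : ℤ) := Nat.isCoprime_iff_coprime.mpr hcop
  have hdvd := EE_dvd (N := n₂ + j) (e := 2 * (m - j)) hsZ.ne' hcopZ hyz hdiv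
    (hdp.trans (by omega)) hdq hRj le_rfl (by omega)
  set E : ℤ := EE y d (G : ℤ) (k : ℤ) (itP y z p j) (itQ q j) (n₂ + j) ((r : ℤ) ^ 2)
    ((s : ℤ) ^ 2) with hEdef
  have hlowZ : (r : ℤ) ^ (2 * (m - j)) ≤ |E| :=
    Int.le_of_dvd (abs_pos.mpr hE) ((dvd_abs _ _).mpr hdvd)
  have hlow : (r : ℝ) ^ (2 * (m - j)) ≤ |(E : ℝ)| := by
    have h1 : (((r : ℤ) ^ (2 * (m - j)) : ℤ) : ℝ) ≤ ((|E| : ℤ) : ℝ) := by exact_mod_cast hlowZ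
    push_cast at h1
    exact h1
  -- the norms
  set Q : ℝ := 2 * ((10 * ν + 1) * 2 ^ (3 * x)) ^ 10 with hQ
  have hQ0 : 0 ≤ Q := by positivity
  have hx1 : (1 : ℝ) ≤ 4 * (x : ℝ) := by
    have : (1 : ℝ) ≤ (x : ℝ) := by exact_mod_cast (by omega : 1 ≤ x)
    linarith
  have hpw : (4 * (x : ℝ)) ^ j ≤ (4 * (x : ℝ)) ^ (ν + 2) := pow_le_pow_right₀ hx1 hj
  set P' : ℝ := (4 * (x : ℝ)) ^ (ν + 2) * Q with hP'
  have hP0 : 0 ≤ P' := by positivity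
  have hNp : nrm (itP y z p j) ≤ P' := by
    refine (nrm_itP (M := x) hyz' (by omega) hp j (by omega)).trans ?_
    have h0 := nrm_nonneg p
    calc (4 * (x : ℝ)) ^ j * nrm p ≤ (4 * (x : ℝ)) ^ (ν + 2) * Q := by gcongr
      _ = P' := rfl
  have hNq : nrm (itQ q j) ≤ P' := by
    refine (nrm_itQ (M := x) hq j (by omega)).trans ?_
    have h0 := nrm_nonneg q
    calc (4 * (x : ℝ)) ^ j * nrm q ≤ (4 * (x : ℝ)) ^ (ν + 2) * Q := by gcongr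
      _ = P' := rfl
  have hb0 : (0 : ℤ) ≤ (s : ℤ) ^ 2 := by positivity
  have hba : (s : ℤ) ^ 2 ≤ (r : ℤ) ^ 2 := by nlinarith
  have hhp := hom_le (P := itP y z p j) (n := 10 * ν + j) (N := n₂ + j) hdp (by omega) hb0 hba
  have hhq := hom_le (P := itQ q j) (n := n₂ + j) (N := n₂ + j) hdq le_rfl hb0 hba
  rw [show n₂ + j - (10 * ν + j) = κ by omega] at hhp
  rw [Nat.sub_self, pow_zero, mul_one] at hhq
  push_cast at hhp hhq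
  rw [← pow_mul, ← pow_mul] at hhp
  rw [← pow_mul] at hhq
  have hsizeR : (k : ℝ) ^ d * (s : ℝ) ^ (2 * (d + κ)) ≤ (r : ℝ) ^ (2 * κ) := by
    exact_mod_cast hsize
  have hup1 : ((k : ℝ) * (s : ℝ) ^ 2) ^ d * |((hom (itP y z p j) (n₂ + j) ((r : ℤ) ^ 2)
      ((s : ℤ) ^ 2) : ℤ) : ℝ)| ≤ P' * (r : ℝ) ^ (2 * (n₂ + j)) := by
    calc ((k : ℝ) * (s : ℝ) ^ 2) ^ d * |((hom (itP y z p j) (n₂ + j) ((r : ℤ) ^ 2)
          ((s : ℤ) ^ 2) : ℤ) : ℝ)|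
        ≤ ((k : ℝ) * (s : ℝ) ^ 2) ^ d * (nrm (itP y z p j) *
            ((r : ℝ) ^ (2 * (10 * ν + j)) * (s : ℝ) ^ (2 * κ))) := by
          gcongr
      _ ≤ ((k : ℝ) * (s : ℝ) ^ 2) ^ d * (P' *
            ((r : ℝ) ^ (2 * (10 * ν + j)) * (s : ℝ) ^ (2 * κ))) := by
          gcongr
      _ = P' * (r : ℝ) ^ (2 * (10 * ν + j)) * ((k : ℝ) ^ d * (s : ℝ) ^ (2 * (d + κ))) := by
          rw [mul_pow, ← pow_mul, show 2 * (d + κ) = 2 * d + 2 * κ by ring,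
            pow_add (s : ℝ) (2 * d) (2 * κ)]
          ring
      _ ≤ P' * (r : ℝ) ^ (2 * (10 * ν + j)) * (r : ℝ) ^ (2 * κ) := by
          gcongr
      _ = P' * (r : ℝ) ^ (2 * (n₂ + j)) := by
          rw [mul_assoc, ← pow_add, show 2 * (10 * ν + j) + 2 * κ = 2 * (n₂ + j) by omega]
  have hG1 : (1 : ℝ) ≤ (G : ℝ) := by exact_mod_cast hG
  have hup2 : (G : ℝ) * |((hom (itQ q j) (n₂ + j) ((r : ℤ) ^ 2) ((s : ℤ) ^ 2) : ℤ) : ℝ)| ≤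
      G * (P' * (r : ℝ) ^ (2 * (n₂ + j))) := by
    have h1 : |((hom (itQ q j) (n₂ + j) ((r : ℤ) ^ 2) ((s : ℤ) ^ 2) : ℤ) : ℝ)| ≤
        P' * (r : ℝ) ^ (2 * (n₂ + j)) := by
      refine hhq.trans ?_
      gcongr
    gcongr
  have hEabs : |(E : ℝ)| ≤ ((k : ℝ) * (s : ℝ) ^ 2) ^ d *
      |((hom (itP y z p j) (n₂ + j) ((r : ℤ) ^ 2) ((s : ℤ) ^ 2) : ℤ) : ℝ)| +
      (G : ℝ) * |((hom (itQ q j) (n₂ + j) ((r : ℤ) ^ 2) ((s : ℤ) ^ 2) : ℤ) : ℝ)| := by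
    rw [hEdef]
    unfold EE
    push_cast
    refine (abs_sub _ _).trans (le_of_eq ?_)
    rw [abs_mul, abs_mul, abs_mul, abs_pow (-1 : ℝ), abs_neg, abs_one, one_pow, one_mul,
      abs_of_nonneg (show 0 ≤ ((k : ℝ) * (s : ℝ) ^ 2) ^ d by positivity),
      abs_of_nonneg (show 0 ≤ (G : ℝ) by positivity)]
  have hfin : (r : ℝ) ^ (2 * (m - j)) ≤ 2 * G * P' * (r : ℝ) ^ (2 * (n₂ + j)) := by
    refine hlow.trans (hEabs.trans ((add_le_add hup1 hup2).trans ?_))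
    have h1 : 0 ≤ P' * (r : ℝ) ^ (2 * (n₂ + j)) := by positivity
    nlinarith
  have hexp : (14 * ν - 6) + 2 * (n₂ + j) ≤ 2 * (m - j) := by omega
  have h2 : (r : ℝ) ^ (14 * ν - 6) * (r : ℝ) ^ (2 * (n₂ + j)) ≤
      2 * G * P' * (r : ℝ) ^ (2 * (n₂ + j)) := by
    rw [← pow_add]
    exact (pow_le_pow_right₀ hrR hexp).trans hfin
  have hpos : 0 < (r : ℝ) ^ (2 * (n₂ + j)) := by positivity
  exact le_of_mul_le_mul_right h2 hpos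

end J91
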