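import Pool.Agent.LibJB95.A6

namespace J91

/-- Row N1. The order of the exponents. `JB95.tri` gives the three cases and `x < 2 z`; it remains to
exclude `z < y`. Then `(k B) ^ (z + 1) ≤ (k B) ^ y < (k C) ^ z`. But `B² = C² - A²` and
`A ≤ C ^ α`, so `(B / C)² ≥ 1 - C ^ (2 α - 2)`, and `z ≤ K (log (k C)) ^ (9 / 4)` by
`JB95.exp_bound`, where `log (k C) ≤ (1 + κ) log C`; for `C` large `z * C ^ (2 α - 2) ≤ 1 / 2`, so
`(B / C) ^ (2 z) ≥ 1 - z C ^ (2 α - 2) ≥ 1 / 2` (Bernoulli, `one_add_mul_le_pow`), hence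
`(k B) ^ z ≥ (k C) ^ z / 2` and `(k B) ^ (z + 1) ≥ 2 (k B) ^ z ≥ (k C) ^ z` as `B ≥ 2`. -/
theorem order {α κ : ℝ} (hα : α < 1) (hκ : 0 ≤ κ) : ∃ C₀ : ℝ, ∀ A B C k x y z : ℕ,
    C₀ ≤ (C : ℝ) → 1 ≤ k → (k : ℝ) ≤ (C : ℝ) ^ κ → (A : ℝ) ≤ (C : ℝ) ^ α →
    JB95.Sol (k * A) (k * B) (k * C) x y z → y < z ∧ z < x ∧ x < 2 * z := by
  obtain ⟨K, hK, hexp⟩ := JB95.exp_bound
  set D : ℝ := K * (1 + κ) ^ (9 / 4 : ℝ) with hD
  have hD0 : 0 < D := by positivity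
  have hlo := (isLittleO_log_rpow_rpow_atTop (9 / 4 : ℝ) (show (0 : ℝ) < 2 - 2 * α by linarith)).def
    (c := 1 / (2 * D)) (by positivity)
  obtain ⟨C₁, hC₁⟩ := Filter.eventually_atTop.1 hlo
  refine ⟨max C₁ 1, fun A B C k x y z hC hk hkC hAC hsol => ?_⟩
  obtain ⟨htri, hx2, -⟩ := JB95.tri hsol
  obtain ⟨-, -, hz0⟩ := hexp _ _ _ _ _ _ hsol
  obtain ⟨ha, hb, hpyt, hx, hy, hz, heq, -⟩ := hsol
  have hA : 0 < A := Nat.pos_of_mul_pos_left ha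
  have hB : 0 < B := Nat.pos_of_mul_pos_left hb
  have hpyt' : A ^ 2 + B ^ 2 = C ^ 2 := by
    have h1 : k ^ 2 * (A ^ 2 + B ^ 2) = k ^ 2 * C ^ 2 := by
      calc k ^ 2 * (A ^ 2 + B ^ 2) = (k * A) ^ 2 + (k * B) ^ 2 := by ring
        _ = (k * C) ^ 2 := hpyt
        _ = _ := by ring
    exact Nat.eq_of_mul_eq_mul_left (by positivity) h1
  have hCR1 : (1 : ℝ) ≤ (C : ℝ) := le_trans (le_max_right _ _) hC
  have hCR0 : (0 : ℝ) < (C : ℝ) := by linarith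
  suffices hyz : ¬ z < y by
    rcases htri with ⟨h1, h2⟩ | ⟨h1, h2⟩ | ⟨h1, h2⟩
    · exact absurd h2 hyz
    · exact ⟨h1, h2, hx2⟩
    · exact absurd h2 hyz
  intro hyz
  -- the exponent bound
  have hlogC : 0 ≤ Real.log C := Real.log_nonneg hCR1
  have hlogkC : Real.log ((k * C : ℕ) : ℝ) ≤ (1 + κ) * Real.log C := by
    have hk0 : (0 : ℝ) < k := by exact_mod_cast hk
    rw [Nat.cast_mul, Real.log_mul hk0.ne' hCR0.ne']
    have h1 : Real.log k ≤ κ * Real.log C := by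
      have := Real.log_le_log hk0 hkC
      rwa [Real.log_rpow hCR0] at this
    linarith
  have hz1 : (z : ℝ) ≤ D * (Real.log C) ^ (9 / 4 : ℝ) := by
    have h0 : (0 : ℝ) ≤ Real.log ((k * C : ℕ) : ℝ) := Real.log_natCast_nonneg _
    calc (z : ℝ) ≤ K * (Real.log ((k * C : ℕ) : ℝ)) ^ (9 / 4 : ℝ) := hz0
      _ ≤ K * ((1 + κ) * Real.log C) ^ (9 / 4 : ℝ) :=
          mul_le_mul_of_nonneg_left (Real.rpow_le_rpow h0 hlogkC (by norm_num)) hK.le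
      _ = D * (Real.log C) ^ (9 / 4 : ℝ) := by
          rw [Real.mul_rpow (by positivity) hlogC, hD]
          ring
  set t : ℝ := (C : ℝ) ^ (2 * α - 2) with ht
  have ht0 : 0 < t := by positivity
  have ht1 : t ≤ 1 := Real.rpow_le_one_of_one_le_of_nonpos hCR1 (by linarith)
  have hzt : (z : ℝ) * t ≤ 1 / 2 := by
    have h1 := hC₁ C (le_trans (le_max_left _ _) hC)
    rw [Real.norm_of_nonneg (by positivity), Real.norm_of_nonneg (by positivity)] at h1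
    have h2 : (C : ℝ) ^ (2 - 2 * α) * t = 1 := by
      rw [ht, ← Real.rpow_add hCR0]
      norm_num
    calc (z : ℝ) * t ≤ D * (Real.log C) ^ (9 / 4 : ℝ) * t :=
          mul_le_mul_of_nonneg_right hz1 ht0.le
      _ ≤ D * (1 / (2 * D) * (C : ℝ) ^ (2 - 2 * α)) * t := by gcongr
      _ = 1 / 2 * ((C : ℝ) ^ (2 - 2 * α) * t) := by
          field_simp
      _ = 1 / 2 := by rw [h2]; ring
  -- the sizes
  have hA2 : (A : ℝ) ^ 2 ≤ (C : ℝ) ^ 2 * t := by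
    have h1 : (A : ℝ) ^ 2 ≤ ((C : ℝ) ^ α) ^ 2 := by gcongr
    have h2 : ((C : ℝ) ^ α) ^ 2 = (C : ℝ) ^ 2 * t := by
      rw [ht, ← Real.rpow_natCast ((C : ℝ) ^ α), ← Real.rpow_mul hCR0.le,
        ← Real.rpow_natCast (C : ℝ), ← Real.rpow_add hCR0]
      congr 1
      push_cast
      ring
    exact h1.trans h2.le
  have hBR : (B : ℝ) ^ 2 = (C : ℝ) ^ 2 - (A : ℝ) ^ 2 := by
    have : (A : ℝ) ^ 2 + (B : ℝ) ^ 2 = (C : ℝ) ^ 2 := by exact_mod_cast hpyt'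
    linarith
  have hB2 : (C : ℝ) ^ 2 * (1 - t) ≤ (B : ℝ) ^ 2 := by
    rw [hBR]
    nlinarith
  have hbern : 1 / 2 ≤ (1 - t) ^ z := by
    have h1 := one_add_mul_le_pow (a := -t) (by linarith) z
    have h2 : 1 + (z : ℝ) * -t = 1 - z * t := by ring
    rw [h2] at h1
    have h3 : (1 + -t) ^ z = (1 - t) ^ z := by ring
    rw [h3] at h1
    linarith
  have hpow : ((C : ℝ) ^ 2) ^ z * (1 / 2) ≤ ((B : ℝ) ^ 2) ^ z := by
    calc ((C : ℝ) ^ 2) ^ z * (1 / 2) ≤ ((C : ℝ) ^ 2) ^ z * (1 - t) ^ z := by gcongr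
      _ = ((C : ℝ) ^ 2 * (1 - t)) ^ z := by rw [mul_pow]
      _ ≤ ((B : ℝ) ^ 2) ^ z := by
          apply pow_le_pow_left₀ _ hB2
          exact mul_nonneg (by positivity) (by linarith)
  have hCB : (C : ℝ) ^ z ≤ 2 * (B : ℝ) ^ z := by
    have h1 : ((C : ℝ) ^ z) ^ 2 ≤ (2 * (B : ℝ) ^ z) ^ 2 := by
      have e1 : ((C : ℝ) ^ z) ^ 2 = ((C : ℝ) ^ 2) ^ z := by rw [← pow_mul, ← pow_mul, mul_comm]
      have e2 : (2 * (B : ℝ) ^ z) ^ 2 = 4 * ((B : ℝ) ^ 2) ^ z := by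
        rw [mul_pow, ← pow_mul, ← pow_mul, mul_comm z 2]; norm_num
      rw [e1, e2]
      have h0 : (0 : ℝ) ≤ ((C : ℝ) ^ 2) ^ z := by positivity
      linarith
    exact le_of_sq_le_sq h1 (by positivity)
  have hCBN : C ^ z ≤ 2 * B ^ z := by exact_mod_cast hCB
  have hB1 : 2 ≤ B := by
    by_contra hlt
    have hB1 : B = 1 := by omega
    rw [hB1] at hpyt'
    have h1 : A < C := lt_of_pow_lt_pow_left₀ 2 (Nat.zero_le _) (by omega)
    have h2 : (A + 1) ^ 2 ≤ C ^ 2 := Nat.pow_le_pow_left h1 2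
    nlinarith
  have hfin : (k * C) ^ z ≤ (k * B) ^ y := by
    calc (k * C) ^ z = k ^ z * C ^ z := mul_pow _ _ _
      _ ≤ k ^ z * (2 * B ^ z) := Nat.mul_le_mul_left _ hCBN
      _ = (k * B) ^ z * 2 := by rw [mul_pow]; ring
      _ ≤ (k * B) ^ z * (k * B) := by
          apply Nat.mul_le_mul_left
          calc 2 = 1 * 2 := by norm_num
            _ ≤ k * B := Nat.mul_le_mul hk hB1
      _ = (k * B) ^ (z + 1) := (pow_succ _ _).symm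
      _ ≤ (k * B) ^ y := Nat.pow_le_pow_right hb hyz
  have : 0 < (k * A) ^ x := by positivity
  omega

end J91
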