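import Pool.Agent.LibJes95.H1

namespace J91

private theorem n2_half {A B C k x y z d : ℕ} (hA : 0 < A) (hB : 0 < B)
    (hpyt : A ^ 2 + B ^ 2 = C ^ 2) (hk : 1 ≤ k) (hyz : y + d = z) (hd : 1 ≤ d) (hzx : z < x)
    (heq : (k * A) ^ x + (k * B) ^ y = (k * C) ^ z) :
    C ^ z ≤ 2 * (k ^ (x - z) * A ^ x) := by
  have hBC : B < C := lt_of_pow_lt_pow_left₀ 2 (Nat.zero_le _) (by
    have : 0 < A ^ 2 := by positivity
    omega)
  have hC2 : 2 ≤ C := by omega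
  have h1 : 2 * (k * B) ^ y ≤ (k * C) ^ z := by
    calc 2 * (k * B) ^ y ≤ (k * C) * (k * C) ^ y := by
          apply Nat.mul_le_mul
          · calc 2 = 1 * 2 := by norm_num
              _ ≤ k * C := Nat.mul_le_mul hk hC2
          · exact Nat.pow_le_pow_left (Nat.mul_le_mul_left _ hBC.le) _
      _ = (k * C) ^ (y + 1) := by rw [pow_succ, mul_comm]
      _ ≤ (k * C) ^ z := Nat.pow_le_pow_right (by positivity) (by omega)
  have h2 : (k * C) ^ z ≤ 2 * (k * A) ^ x := by omega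
  have h3 : k ^ x = k ^ z * k ^ (x - z) := by
    rw [← pow_add]
    congr 1
    omega
  have h4 : k ^ z * C ^ z ≤ k ^ z * (2 * (k ^ (x - z) * A ^ x)) := by
    calc k ^ z * C ^ z = (k * C) ^ z := (mul_pow _ _ _).symm
      _ ≤ 2 * (k * A) ^ x := h2
      _ = k ^ z * (2 * (k ^ (x - z) * A ^ x)) := by
          rw [mul_pow, h3]
          ring
  exact Nat.le_of_mul_le_mul_left h4 (by positivity)

private theorem n2_s {r s : ℕ} {α : ℝ} (hr : 0 < r)
    (h : (r : ℝ) * s ≤ (r : ℝ) ^ (2 * α)) : (s : ℝ) ≤ (r : ℝ) ^ (2 * α - 1) := by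
  have hr0 : (0 : ℝ) < r := by exact_mod_cast hr
  rw [Real.rpow_sub_one hr0.ne', le_div_iff₀ hr0]
  linarith

/-- Row N2. Parametrization. `Jes95.prim_param` gives `m > n`, coprime, `m + n` odd,
`C = m² + n²`.
Case 1: `A = 2 m n`, `B = m² - n²`: take `r = m`, `s = n`, `G = 1`, `H = 2 ^ x`; the equation
`(k A) ^ x + (k B) ^ y = (k C) ^ z` divided by `k ^ y`.
Case 2: `A = m² - n²`, `B = 2 m n`: take `r = m + n`, `s = m - n` (coprime as `m + n` is odd),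
`G = 2 ^ d`, `H = 2 ^ z`: `A = r s`, `2 C = r² + s²`, `2 B = r² - s²`; the equation multiplied by
`2 ^ z` and divided by `k ^ y`.
`s ≤ r ^ (2 α - 1)`: in case 1 `2 r s ≤ C ^ α ≤ (2 r²) ^ α ≤ 2 r ^ (2 α)`; in case 2
`r s ≤ C ^ α ≤ (r²) ^ α`.
Last inequality: `(k B) ^ y ≤ (k C) ^ (z - 1) ≤ (k C) ^ z / 2`, so `(k C) ^ z ≤ 2 (k A) ^ x`,
`C ^ z ≤ 2 k ^ (x - z) A ^ x`, and `r² ≤ C`, `A = 2 r s` in case 1, `r² ≤ 2 C`, `A = r s`,
`2 ^ z * 2 ≤ 2 ^ (x + 1)` in case 2. -/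
theorem param {A B C k x y z d : ℕ} {α : ℝ} (hα : 1 / 2 ≤ α) (hα1 : α < 1) (hA : 0 < A)
    (hB : 0 < B) (hcop : A.Coprime B) (hpyt : A ^ 2 + B ^ 2 = C ^ 2) (hk : 1 ≤ k)
    (hAC : (A : ℝ) ≤ (C : ℝ) ^ α) (hyz : y + d = z) (hd : 1 ≤ d) (hy : 1 ≤ y) (hzx : z < x)
    (heq : (k * A) ^ x + (k * B) ^ y = (k * C) ^ z) :
    ∃ r s G H : ℕ, 1 ≤ s ∧ s < r ∧ r.Coprime s ∧ 1 ≤ G ∧ G ≤ 2 ^ x ∧ 2 ≤ H ∧ H ≤ 2 ^ x ∧
      C ≤ 2 * r ^ 2 ∧ (s : ℝ) ≤ (r : ℝ) ^ (2 * α - 1) ∧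
      k ^ d * (r ^ 2 + s ^ 2) ^ z = G * (r ^ 2 - s ^ 2) ^ y + k ^ (x - y) * H * (r * s) ^ x ∧
      r ^ (2 * z) ≤ 2 ^ (x + 1) * k ^ (x - z) * (r * s) ^ x := by
  have hhalf := n2_half hA hB hpyt hk hyz hd hzx heq
  obtain ⟨m, n, ⟨hn0, hnm, hgcd, hpar⟩, hC, hAB⟩ := Jes95.prim_param ⟨hA, hB, hcop, hpyt⟩
  have hm0 : 0 < m := by omega
  have hnm2 : n ^ 2 ≤ m ^ 2 := Nat.pow_le_pow_left hnm.le 2
  have hkx : k ^ x = k ^ y * k ^ (x - y) := by
    rw [← pow_add]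
    congr 1
    omega
  have hkz : k ^ z = k ^ y * k ^ d := by rw [← pow_add, hyz]
  have hky : 0 < k ^ y := by positivity
  rcases hAB with ⟨h1, h2⟩ | ⟨h1, h2⟩
  · -- case 2
    obtain ⟨j, rfl⟩ : ∃ j, m = n + j := ⟨m - n, by omega⟩
    have hj0 : 0 < j := by omega
    have hAe : A = (n + j + n) * j := by
      rw [h1]
      have : (n + j) ^ 2 = n ^ 2 + (n + j + n) * j := by ring
      omega
    have hsub : (n + j + n) ^ 2 = j ^ 2 + 2 * B := by
      rw [h2]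
      ring
    have hadd : (n + j + n) ^ 2 + j ^ 2 = 2 * C := by
      rw [hC]
      ring
    have hsub' : (n + j + n) ^ 2 - j ^ 2 = 2 * B := by omega
    have hCr : C ≤ (n + j + n) ^ 2 := by
      have : j ^ 2 ≤ (n + j + n) ^ 2 := Nat.pow_le_pow_left (by omega) 2
      omega
    refine ⟨n + j + n, j, 2 ^ d, 2 ^ z, hj0, by omega, ?_, Nat.one_le_two_pow,
      Nat.pow_le_pow_right (by norm_num) (by omega), ?_,
      Nat.pow_le_pow_right (by norm_num) hzx.le, by omega, ?_, ?_, ?_⟩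
    · -- coprime
      have hodd : j % 2 = 1 := by omega
      have hjn : Nat.Coprime n j := by
        have h3 : Nat.Coprime (n + j) n := hgcd
        rw [Nat.Coprime, Nat.gcd_comm] at h3
        have h4 : Nat.gcd n (n + j) = Nat.gcd n j := by simp
        rw [h4] at h3
        exact h3
      have h5 : Nat.Coprime (2 * n) j :=
        Nat.Coprime.mul_left ((Nat.coprime_two_left).2 (Nat.odd_iff.2 hodd)) hjn
      have h6 : n + j + n = 2 * n + j := by ring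
      rw [h6]
      simpa using h5
    · calc 2 = 2 ^ 1 := by norm_num
        _ ≤ 2 ^ z := Nat.pow_le_pow_right (by norm_num) (by omega)
    · apply n2_s (by omega)
      have h3 : (C : ℝ) ≤ ((n + j + n : ℕ) : ℝ) ^ 2 := by exact_mod_cast hCr
      have h4 : (C : ℝ) ^ α ≤ (((n + j + n : ℕ) : ℝ) ^ 2) ^ α :=
        Real.rpow_le_rpow (by positivity) h3 (by linarith)
      have h5 : (((n + j + n : ℕ) : ℝ) ^ 2) ^ α = ((n + j + n : ℕ) : ℝ) ^ (2 * α) := by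
        rw [← Real.rpow_natCast, ← Real.rpow_mul (by positivity)]
        norm_num
      rw [h5] at h4
      have h6 : ((n + j + n : ℕ) : ℝ) * (j : ℝ) = (A : ℝ) := by rw [hAe]; push_cast; ring
      rw [h6]
      exact hAC.trans h4
    · rw [hsub', hadd, ← hAe]
      apply Nat.eq_of_mul_eq_mul_left hky
      have h3 : 2 ^ z = 2 ^ y * 2 ^ d := by rw [← pow_add, hyz]
      calc k ^ y * (k ^ d * (2 * C) ^ z) = 2 ^ z * (k * C) ^ z := by
            rw [mul_pow, mul_pow, hkz]; ring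
        _ = 2 ^ z * ((k * A) ^ x + (k * B) ^ y) := by rw [heq]
        _ = k ^ y * (2 ^ d * (2 * B) ^ y + k ^ (x - y) * 2 ^ z * A ^ x) := by
            rw [mul_pow, mul_pow, mul_pow, hkx, h3]; ring
    · rw [← hAe]
      calc (n + j + n) ^ (2 * z) = ((n + j + n) ^ 2) ^ z := by rw [pow_mul]
        _ ≤ (2 * C) ^ z := Nat.pow_le_pow_left (by omega) _
        _ = 2 ^ z * C ^ z := mul_pow _ _ _
        _ ≤ 2 ^ x * (2 * (k ^ (x - z) * A ^ x)) :=
            Nat.mul_le_mul (Nat.pow_le_pow_right (by norm_num) hzx.le) hhalf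
        _ = 2 ^ (x + 1) * k ^ (x - z) * A ^ x := by ring
  · -- case 1
    have hAe : A = 2 * (m * n) := by rw [h1]; ring
    refine ⟨m, n, 1, 2 ^ x, hn0, hnm, hgcd, le_rfl, Nat.one_le_two_pow, ?_, le_rfl, by omega,
      ?_, ?_, ?_⟩
    · calc 2 = 2 ^ 1 := by norm_num
        _ ≤ 2 ^ x := Nat.pow_le_pow_right (by norm_num) (by omega)
    · apply n2_s hm0
      have h3 : (C : ℝ) ≤ 2 * (m : ℝ) ^ 2 := by
        have : C ≤ 2 * m ^ 2 := by omega
        exact_mod_cast this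
      have h4 : (C : ℝ) ^ α ≤ (2 * (m : ℝ) ^ 2) ^ α :=
        Real.rpow_le_rpow (by positivity) h3 (by linarith)
      have h5 : (2 * (m : ℝ) ^ 2) ^ α = 2 ^ α * (m : ℝ) ^ (2 * α) := by
        rw [Real.mul_rpow (by norm_num) (by positivity), ← Real.rpow_natCast,
          ← Real.rpow_mul (by positivity)]
        norm_num
      have h6 : (2 : ℝ) ^ α ≤ 2 := by
        calc (2 : ℝ) ^ α ≤ (2 : ℝ) ^ (1 : ℝ) :=
              Real.rpow_le_rpow_of_exponent_le (by norm_num) hα1.le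
          _ = 2 := Real.rpow_one 2
      have h7 : (2 : ℝ) ^ α * (m : ℝ) ^ (2 * α) ≤ 2 * (m : ℝ) ^ (2 * α) := by gcongr
      have h8 : (A : ℝ) = 2 * ((m : ℝ) * n) := by rw [hAe]; push_cast; ring
      rw [h8] at hAC
      linarith
    · rw [← h2, ← hC]
      apply Nat.eq_of_mul_eq_mul_left hky
      calc k ^ y * (k ^ d * C ^ z) = (k * C) ^ z := by
            rw [mul_pow, hkz]; ring
        _ = (k * A) ^ x + (k * B) ^ y := by rw [heq]
        _ = k ^ y * (1 * B ^ y + k ^ (x - y) * 2 ^ x * (m * n) ^ x) := by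
            rw [hAe, mul_pow k, mul_pow 2, mul_pow k B, hkx]; ring
    · calc m ^ (2 * z) = (m ^ 2) ^ z := by rw [pow_mul]
        _ ≤ C ^ z := Nat.pow_le_pow_left (by omega) _
        _ ≤ 2 * (k ^ (x - z) * A ^ x) := hhalf
        _ = 2 ^ (x + 1) * k ^ (x - z) * (m * n) ^ x := by rw [hAe, mul_pow]; ring

end J91
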