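import Pool.Agent.LibJ91.Defs

namespace J91

/-- Row N3. The strict inequality leaves some room: `t ↦ (1 - α) (1 + t)² - (t + 2 α - 1) (t + α)`
is continuous and positive at `κ`, so positive at some `κ₁ > κ`; then take `ε` small
(`α < 1` since the left side of `h` is nonnegative). -/
theorem slack {α κ : ℝ} (hα : 1 / 2 ≤ α) (hκ : 0 ≤ κ)
    (h : (κ + 2 * α - 1) * (κ + α) < (1 - α) * (1 + κ) ^ 2) :
    α < 1 ∧ ∃ κ₁ ε : ℝ, κ < κ₁ ∧ 0 < ε ∧ ε ≤ 1 / 2 ∧
      (κ₁ + 2 * α - 1) * (κ₁ + α) ≤ (1 - 2 * ε) * ((1 - α) * (1 + κ₁) ^ 2) := by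
  have hα1 : α < 1 := by
    by_contra hc
    push Not at hc
    have h1 : 0 ≤ (κ + 2 * α - 1) * (κ + α) := mul_nonneg (by linarith) (by linarith)
    have h2 : (1 - α) * (1 + κ) ^ 2 ≤ 0 :=
      mul_nonpos_of_nonpos_of_nonneg (by linarith) (by positivity)
    linarith
  refine ⟨hα1, ?_⟩
  have hcont : Continuous fun t : ℝ => (1 - α) * (1 + t) ^ 2 - (t + 2 * α - 1) * (t + α) := by
    fun_prop
  have hev : ∀ᶠ t in nhds κ, 0 < (1 - α) * (1 + t) ^ 2 - (t + 2 * α - 1) * (t + α) :=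
    hcont.continuousAt.eventually_const_lt (by linarith)
  have hev2 : ∀ᶠ t in nhdsWithin κ (Set.Ioi κ),
      0 < (1 - α) * (1 + t) ^ 2 - (t + 2 * α - 1) * (t + α) := hev.filter_mono nhdsWithin_le_nhds
  obtain ⟨κ₁, h1, h2⟩ := (hev2.and self_mem_nhdsWithin).exists
  have h2' : κ < κ₁ := h2
  set W := (1 - α) * (1 + κ₁) ^ 2 with hW
  set A := (κ₁ + 2 * α - 1) * (κ₁ + α) with hA
  have hWpos : 0 < W := mul_pos (by linarith) (by
    have : 0 < 1 + κ₁ := by linarith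
    positivity)
  have hAnn : 0 ≤ A := mul_nonneg (by linarith) (by linarith)
  refine ⟨κ₁, (W - A) / (2 * W), h2', div_pos (by linarith) (by linarith), ?_, ?_⟩
  · rw [div_le_iff₀ (by linarith)]
    linarith
  · have : (1 - 2 * ((W - A) / (2 * W))) * W = A := by
      field_simp
      ring
    rw [this]

/-- Row N3. The key real inequality (checked numerically). Write `K = 2 c L`, `S = t L` with
`0 ≤ c ≤ κ`, `0 ≤ t ≤ 2 α - 1`. From `h1`: `d (1 + c) ≤ z + x log 2 / (2 L)`; from `h2`: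
`z (1 + c) ≤ x (c + (1 + t) / 2) + x log 2 / L`. So
`d (1 + c)² ≤ x (c + (1 + t) / 2) + (x log 2 / L) (1 + (1 + c) / 2)` and
`d (K + 2 S) = 2 d (c + t) L ≤ 2 (c + t) (c + (1 + t) / 2) / (1 + c)² * x L + 3 (c + t) x log 2`.
The factor `(c + t) (c + (1 + t) / 2) / (1 + c)²` is increasing in `c` and in `t`, so it is at most
its value at `(κ, 2 α - 1)`, which is `≤ (1 - 2 ε) (1 - α)`; so the first term is at most
`(1 - 2 ε) (2 - 2 α) x L ≤ (1 - 2 ε) x (L - S)`, and by `hL2` the second is at most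
`ε (2 - 2 α) x L ≤ ε x (L - S)`. -/
theorem key_real {α κ ε L S K x y z d : ℝ} (hα : 1 / 2 ≤ α) (hα1 : α < 1) (hκ : 0 ≤ κ)
    (hε : 0 < ε) (hε2 : ε ≤ 1 / 2)
    (h : (κ + 2 * α - 1) * (κ + α) ≤ (1 - 2 * ε) * ((1 - α) * (1 + κ) ^ 2)) (hL : 0 < L)
    (hL2 : 3 * (κ + 2 * α - 1) * Real.log 2 ≤ ε * (2 - 2 * α) * L) (hS : 0 ≤ S)
    (hS2 : S ≤ (2 * α - 1) * L) (hK : 0 ≤ K) (hK2 : K ≤ 2 * κ * L) (hx : 0 ≤ x) (hy : 0 ≤ y)
    (hd : 0 ≤ d) (hyz : y + d = z) (h1 : d * K ≤ 2 * y * L + x * Real.log 2)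
    (h2 : z * (K + 2 * L) ≤ x * (K + L + S) + 2 * x * Real.log 2) :
    d * (K + 2 * S) ≤ (1 - ε) * x * (L - S) := by
  set l := Real.log 2 with hl
  have hl0 : 0 ≤ l := Real.log_nonneg (by norm_num)
  set τ := 2 * α - 1 with hτ
  have hτ0 : 0 ≤ τ := by linarith
  have hτ1 : 0 ≤ 1 - τ := by linarith
  have hKL : 0 < K + 2 * L := by linarith
  have hLS : (2 - 2 * α) * L ≤ L - S := by
    have : (2 - 2 * α) * L = L - (2 * α - 1) * L := by ring
    linarith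
  have hLS0 : 0 ≤ L - S := le_trans (mul_nonneg (by linarith) hL.le) hLS
  -- the bound for `d`
  have b1 : d * (K + 2 * L) ≤ 2 * z * L + x * l := by
    have : z = y + d := hyz.symm
    rw [this]
    linarith
  have b2 : d * (K + 2 * L) ^ 2 ≤ 2 * L * (x * (K + L + S)) + x * l * (K + 6 * L) := by
    have e1 := mul_le_mul_of_nonneg_right b1 hKL.le
    have e2 := mul_le_mul_of_nonneg_left h2 (by linarith : (0 : ℝ) ≤ 2 * L)
    calc d * (K + 2 * L) ^ 2 = d * (K + 2 * L) * (K + 2 * L) := by ring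
      _ ≤ (2 * z * L + x * l) * (K + 2 * L) := e1
      _ = 2 * L * (z * (K + 2 * L)) + x * l * (K + 2 * L) := by ring
      _ ≤ 2 * L * (x * (K + L + S) + 2 * x * l) + x * l * (K + 2 * L) := by linarith
      _ = _ := by ring
  -- monotonicity
  have a1 : (K + 2 * τ * L) * (1 + κ) ≤ (κ + τ) * (K + 2 * L) := by
    have := mul_le_mul_of_nonneg_right hK2 hτ1
    nlinarith
  have a2 : (K + 2 * α * L) * (1 + κ) ≤ (κ + α) * (K + 2 * L) := by
    have := mul_le_mul_of_nonneg_right hK2 (by linarith : (0 : ℝ) ≤ 1 - α)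
    nlinarith
  have a3 : (K + 2 * τ * L) * (K + 2 * α * L) ≤ (1 - 2 * ε) * (1 - α) * (K + 2 * L) ^ 2 := by
    have e1 : 0 ≤ (K + 2 * α * L) * (1 + κ) := by positivity
    have e2 : 0 ≤ (κ + τ) * (K + 2 * L) := mul_nonneg (by linarith) hKL.le
    have e3 := mul_le_mul a1 a2 e1 e2
    have e4 := mul_le_mul_of_nonneg_right h (sq_nonneg (K + 2 * L))
    have e5 : ((K + 2 * τ * L) * (K + 2 * α * L)) * (1 + κ) ^ 2 ≤
        ((1 - 2 * ε) * (1 - α) * (K + 2 * L) ^ 2) * (1 + κ) ^ 2 := by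
      calc ((K + 2 * τ * L) * (K + 2 * α * L)) * (1 + κ) ^ 2
          = (K + 2 * τ * L) * (1 + κ) * ((K + 2 * α * L) * (1 + κ)) := by ring
        _ ≤ (κ + τ) * (K + 2 * L) * ((κ + α) * (K + 2 * L)) := e3
        _ = (κ + 2 * α - 1) * (κ + α) * (K + 2 * L) ^ 2 := by rw [hτ]; ring
        _ ≤ _ := by
          refine e4.trans (le_of_eq ?_)
          ring
    exact le_of_mul_le_mul_right e5 (by positivity)
  have a4 : (K + 2 * S) * (K + L + S) ≤ (1 - 2 * ε) * (1 - α) * (K + 2 * L) ^ 2 := by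
    refine le_trans ?_ a3
    have e1 : K + 2 * S ≤ K + 2 * τ * L := by rw [hτ]; linarith
    have e2 : K + L + S ≤ K + 2 * α * L := by linarith
    exact mul_le_mul e1 e2 (by linarith) (by positivity)
  have a5 : 2 * L * ((K + 2 * S) * (K + L + S)) ≤ (1 - 2 * ε) * (L - S) * (K + 2 * L) ^ 2 := by
    have e1 := mul_le_mul_of_nonneg_left a4 (by linarith : (0 : ℝ) ≤ 2 * L)
    have e2 : (0 : ℝ) ≤ (1 - 2 * ε) * (K + 2 * L) ^ 2 := mul_nonneg (by linarith) (sq_nonneg _)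
    have e3 := mul_le_mul_of_nonneg_left hLS e2
    calc 2 * L * ((K + 2 * S) * (K + L + S)) ≤ 2 * L * ((1 - 2 * ε) * (1 - α) * (K + 2 * L) ^ 2) := e1
      _ = (1 - 2 * ε) * (K + 2 * L) ^ 2 * ((2 - 2 * α) * L) := by ring
      _ ≤ (1 - 2 * ε) * (K + 2 * L) ^ 2 * (L - S) := e3
      _ = _ := by ring
  have a6 : (K + 2 * S) * (l * (K + 6 * L)) ≤ ε * (L - S) * (K + 2 * L) ^ 2 := by
    have e1 : K + 2 * S ≤ 2 * L * (κ + 2 * α - 1) := by
      have : 2 * L * (κ + 2 * α - 1) = 2 * κ * L + 2 * ((2 * α - 1) * L) := by ring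
      rw [this]
      linarith
    have e2 : l * (K + 6 * L) ≤ l * (3 * (K + 2 * L)) :=
      mul_le_mul_of_nonneg_left (by linarith) hl0
    have e3 : (K + 2 * S) * (l * (K + 6 * L)) ≤
        2 * L * (κ + 2 * α - 1) * (l * (3 * (K + 2 * L))) :=
      mul_le_mul e1 e2 (mul_nonneg hl0 (by linarith)) (mul_nonneg (by linarith) (by linarith))
    have e4 := mul_le_mul_of_nonneg_right hL2 (by positivity : (0 : ℝ) ≤ 2 * L * (K + 2 * L))
    have e5 : ε * (2 - 2 * α) * L * (2 * L * (K + 2 * L)) ≤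
        ε * ((2 - 2 * α) * L) * (K + 2 * L) ^ 2 := by
      have : 2 * L * (K + 2 * L) ≤ (K + 2 * L) ^ 2 := by nlinarith
      have h0 : 0 ≤ ε * ((2 - 2 * α) * L) := mul_nonneg hε.le (mul_nonneg (by linarith) hL.le)
      calc ε * (2 - 2 * α) * L * (2 * L * (K + 2 * L))
          = ε * ((2 - 2 * α) * L) * (2 * L * (K + 2 * L)) := by ring
        _ ≤ _ := mul_le_mul_of_nonneg_left this h0
    have e6 : ε * ((2 - 2 * α) * L) * (K + 2 * L) ^ 2 ≤ ε * (L - S) * (K + 2 * L) ^ 2 :=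
      mul_le_mul_of_nonneg_right (mul_le_mul_of_nonneg_left hLS hε.le) (sq_nonneg _)
    calc (K + 2 * S) * (l * (K + 6 * L)) ≤ 2 * L * (κ + 2 * α - 1) * (l * (3 * (K + 2 * L))) := e3
      _ = 3 * (κ + 2 * α - 1) * l * (2 * L * (K + 2 * L)) := by ring
      _ ≤ ε * (2 - 2 * α) * L * (2 * L * (K + 2 * L)) := e4
      _ ≤ _ := e5.trans e6
  have hfin : d * (K + 2 * S) * (K + 2 * L) ^ 2 ≤ (1 - ε) * x * (L - S) * (K + 2 * L) ^ 2 := by
    have hKS : 0 ≤ K + 2 * S := by linarith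
    have e1 := mul_le_mul_of_nonneg_left b2 hKS
    have e2 := mul_le_mul_of_nonneg_left a5 hx
    have e3 := mul_le_mul_of_nonneg_left a6 hx
    calc d * (K + 2 * S) * (K + 2 * L) ^ 2 = (K + 2 * S) * (d * (K + 2 * L) ^ 2) := by ring
      _ ≤ (K + 2 * S) * (2 * L * (x * (K + L + S)) + x * l * (K + 6 * L)) := e1
      _ = x * (2 * L * ((K + 2 * S) * (K + L + S))) + x * ((K + 2 * S) * (l * (K + 6 * L))) := by
        ring
      _ ≤ x * ((1 - 2 * ε) * (L - S) * (K + 2 * L) ^ 2) + x * (ε * (L - S) * (K + 2 * L) ^ 2) :=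
        add_le_add e2 e3
      _ = _ := by ring
  exact le_of_mul_le_mul_right hfin (by positivity)

end J91
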