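import Pool.Agent.LibJ91.M1

namespace J91

/-- Row N4. No solution with large `x`. Write `L = log r`, `S = log s`, `K = log k`. Choose
`κ' = ⌈d (K + 2 S) / (2 (L - S))⌉₊` and `ν = 2 + ⌈2 x / L⌉₊`. Then `2 κ' ≤ (1 - ε) x + 2`,
`ν ≤ 3 + 2 x / L`, so `2 (κ' + 19 ν + 1) ≤ (1 - ε) x + 118 + 76 x / L ≤ x` for
`X₁ = 236 / ε`, `L₀ = max 1 (152 / ε)`. `hsize` follows from `d K + 2 (d + κ') S ≤ 2 κ' L` (take
logarithms). `propA` gives, after taking logarithms, with `10 ν + 1 ≤ x`, `log (4 x) ≤ L / 2`,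
`(14 ν - 6) L ≤ log 4 + x log 2 + (ν + 2) L / 2 + 5 L + 30 x log 2`; as `log 2 < 0.6932` this says
`13.5 ν L ≤ 12 L + 21.5 x + 1.4`, but `ν L ≥ 2 L + 2 x`. -/
theorem big_false {ε : ℝ} (hε : 0 < ε) : ∃ X₁ L₀ : ℝ, ∀ r s k G x y z d : ℕ,
    1 ≤ s → s < r → r.Coprime s → 1 ≤ k → 1 ≤ G → G ≤ 2 ^ x → y + d = z → z < x → x < 2 * z →
    ((r : ℤ) ^ x ∣ (k : ℤ) ^ d * ((r : ℤ) ^ 2 + (s : ℤ) ^ 2) ^ z -
      (G : ℤ) * ((r : ℤ) ^ 2 - (s : ℤ) ^ 2) ^ y) →
    (d : ℝ) * (Real.log k + 2 * Real.log s) ≤ (1 - ε) * x * (Real.log r - Real.log s) →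
    X₁ ≤ (x : ℝ) → L₀ ≤ Real.log r → Real.log (4 * x) ≤ Real.log r / 2 → False := by
  refine ⟨236 / ε, max 1 (152 / ε), ?_⟩
  intro r s k G x y z d hs hsr hcop hk hG hG2 hyz hzx hxz hdiv hmain hX hL hlog
  set L := Real.log r with hLdef
  set S := Real.log s with hSdef
  set K := Real.log k with hKdef
  have hL1 : 1 ≤ L := (le_max_left _ _).trans hL
  have hL2 : 152 / ε ≤ L := (le_max_right _ _).trans hL
  have hL0 : 0 < L := by linarith
  have hs0 : (0 : ℝ) < s := by exact_mod_cast hs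
  have hr0 : (0 : ℝ) < r := by
    have : 0 < r := by omega
    exact_mod_cast this
  have hk0 : (0 : ℝ) < k := by
    have : 0 < k := by omega
    exact_mod_cast this
  have hS0 : 0 ≤ S := Real.log_natCast_nonneg s
  have hK0 : 0 ≤ K := Real.log_natCast_nonneg k
  have hSL : S < L := Real.log_lt_log hs0 (by exact_mod_cast hsr)
  have hx0 : (0 : ℝ) < x := by
    have : 0 < x := by omega
    exact_mod_cast this
  have hLS : 0 < L - S := by linarith
  set κ : ℕ := ⌈(d : ℝ) * (K + 2 * S) / (2 * (L - S))⌉₊ with hκ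
  set ν : ℕ := 2 + ⌈2 * (x : ℝ) / L⌉₊ with hν
  have hκ0 : 0 ≤ (d : ℝ) * (K + 2 * S) / (2 * (L - S)) := by positivity
  have hκ1 : (d : ℝ) * (K + 2 * S) ≤ 2 * κ * (L - S) := by
    have h1 : (d : ℝ) * (K + 2 * S) / (2 * (L - S)) ≤ κ := Nat.le_ceil _
    rw [div_le_iff₀ (by linarith)] at h1
    linarith
  have hκ2 : 2 * (κ : ℝ) ≤ (1 - ε) * x + 2 := by
    have h1 : (κ : ℝ) < (d : ℝ) * (K + 2 * S) / (2 * (L - S)) + 1 := Nat.ceil_lt_add_one hκ0
    have h2 : (d : ℝ) * (K + 2 * S) / (2 * (L - S)) ≤ (1 - ε) * x / 2 := by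
      rw [div_le_iff₀ (by linarith)]
      refine hmain.trans (le_of_eq ?_)
      ring
    linarith
  have hν0 : 0 ≤ 2 * (x : ℝ) / L := by positivity
  have hν1 : 2 + 2 * (x : ℝ) / L ≤ ν := by
    have h1 : 2 * (x : ℝ) / L ≤ (⌈2 * (x : ℝ) / L⌉₊ : ℝ) := Nat.le_ceil _
    rw [hν]
    push_cast
    linarith
  have hν2 : (ν : ℝ) ≤ 3 + 2 * (x : ℝ) / L := by
    have h1 : (⌈2 * (x : ℝ) / L⌉₊ : ℝ) < 2 * (x : ℝ) / L + 1 := Nat.ceil_lt_add_one hν0
    rw [hν]
    push_cast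
    linarith
  have hm : 2 * (κ + 19 * ν + 1) ≤ x := by
    have h1 : 76 * ((x : ℝ) / L) ≤ ε * x / 2 := by
      have h2 : 152 ≤ ε * L := by
        rw [div_le_iff₀ hε] at hL2
        linarith
      have h3 : 76 * ((x : ℝ) / L) = 76 * x / L := by ring
      rw [h3, div_le_iff₀ hL0]
      have h4 := mul_le_mul_of_nonneg_right h2 (by positivity : (0 : ℝ) ≤ x / 2)
      linarith
    have h2 : (118 : ℝ) ≤ ε * x / 2 := by
      rw [div_le_iff₀ hε] at hX
      linarith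
    have h3 : 2 * ((κ : ℝ) + 19 * ν + 1) ≤ x := by
      have h4 : 2 * (x : ℝ) / L = 2 * (x / L) := by ring
      rw [h4] at hν2
      linarith
    exact_mod_cast h3
  have hsize : k ^ d * s ^ (2 * (d + κ)) ≤ r ^ (2 * κ) := by
    have h1 : (d : ℝ) * K + (2 * (d + κ) : ℕ) * S ≤ (2 * κ : ℕ) * L := by
      push_cast
      have : (d : ℝ) * K + 2 * (d + κ) * S = d * (K + 2 * S) + 2 * κ * S := by ring
      rw [this]
      have h2 : 2 * (κ : ℝ) * L = 2 * κ * (L - S) + 2 * κ * S := by ring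
      rw [h2]
      linarith
    have h2 : Real.log ((k : ℝ) ^ d * (s : ℝ) ^ (2 * (d + κ))) ≤ Real.log ((r : ℝ) ^ (2 * κ)) := by
      rw [Real.log_mul (by positivity) (by positivity), Real.log_pow, Real.log_pow, Real.log_pow]
      exact h1
    have h3 : (k : ℝ) ^ d * (s : ℝ) ^ (2 * (d + κ)) ≤ (r : ℝ) ^ (2 * κ) :=
      (Real.log_le_log_iff (by positivity) (by positivity)).1 h2
    exact_mod_cast h3
  have hA := propA hs hsr hcop hG hyz hzx hxz (by omega : 1 ≤ ν) hdiv hsize hm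
  have hG0 : (0 : ℝ) < G := by
    have : 0 < G := by omega
    exact_mod_cast this
  have hlogA := Real.log_le_log (by positivity) hA
  have hR : ∀ a b : ℝ, 0 < a → 0 < b →
      Real.log (2 * G * (a ^ (ν + 2) * (2 * (b * 2 ^ (3 * x)) ^ 10))) =
      Real.log 2 + Real.log G + (((ν + 2 : ℕ) : ℝ) * Real.log a +
        (Real.log 2 + ((10 : ℕ) : ℝ) * (Real.log b + ((3 * x : ℕ) : ℝ) * Real.log 2))) := by
    intro a b ha hb
    rw [Real.log_mul (by positivity) (by positivity), Real.log_mul (by positivity) (by positivity),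
      Real.log_mul (by positivity) (by positivity), Real.log_mul (by positivity) (by positivity),
      Real.log_pow, Real.log_pow, Real.log_mul (by positivity) (by positivity), Real.log_pow]
  rw [Real.log_pow, hR _ _ (by positivity) (by positivity)] at hlogA
  have hsub : ((14 * ν - 6 : ℕ) : ℝ) = 14 * ν - 6 := by
    rw [Nat.cast_sub (by omega)]
    push_cast
    ring
  rw [hsub] at hlogA
  have hlG : Real.log G ≤ x * Real.log 2 := by
    rw [← Real.log_pow]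
    exact Real.log_le_log hG0 (by exact_mod_cast hG2)
  have hlν : Real.log (10 * ν + 1) ≤ L / 2 := by
    refine le_trans (Real.log_le_log (by positivity) ?_) hlog
    have h1 : 10 * ν + 1 ≤ 4 * x := by omega
    exact_mod_cast h1
  have hl2 : Real.log 2 < 0.6932 := by
    have := Real.log_two_lt_d9
    linarith
  have hl20 : 0 < Real.log 2 := Real.log_pos (by norm_num)
  have hνL : 2 * L + 2 * x ≤ ν * L := by
    have h1 := mul_le_mul_of_nonneg_right hν1 hL0.le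
    have h2 : (2 + 2 * (x : ℝ) / L) * L = 2 * L + 2 * x := by
      field_simp
    linarith
  have hlog' : ((ν + 2 : ℕ) : ℝ) * Real.log (4 * x) ≤ (ν + 2) * (L / 2) := by
    push_cast
    exact mul_le_mul_of_nonneg_left hlog (by positivity)
  have h30 : ((3 * x : ℕ) : ℝ) * Real.log 2 = 3 * (x * Real.log 2) := by
    push_cast
    ring
  rw [h30] at hlogA
  have hxl : (x : ℝ) * Real.log 2 ≤ x * 0.6932 := mul_le_mul_of_nonneg_left hl2.le hx0.le
  push_cast at hlogA hlog'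
  change (14 * (ν : ℝ) - 6) * L ≤ _ at hlogA
  nlinarith

end J91
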