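import Pool.Agent.LibJ91.B1
import Pool.Agent.LibJ91.B2
import Pool.Agent.LibJ91.B3

namespace J91

/-- Row N5. No solution with bounded `x` and `r` large. Write `L = log r`, `S = log s`, `K = log k`;
`S ≤ θ L`. `small_EE` (with `n = (x - 1) / 2`, `1 ≤ n` as `x ≥ 3`) needs
`k ^ d s ^ (2 (d + n)) + 2 ^ (4 x) r ^ (2 n) < r ^ x`: the logarithm of the first term is
`d (K + 2 S) + 2 n S ≤ (1 - ε) x (L - S) + (x - 1) S ≤ x L - ε (1 - θ) L`, so it is `< r ^ x / 2` if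
`ε (1 - θ) L > log 2`, and `2 ^ (4 x) r ^ (x - 1) ≤ r ^ x / 2` if `2 ^ (4 x + 1) ≤ r`. Then
`small_size` and `small_false`, where `2 ^ (8 x²) s ≤ r` follows from
`8 X₁² log 2 ≤ (1 - θ) L`. The divisibility `hdiv` is `heq` in `ℤ`
(`((r ^ 2 - s ^ 2 : ℕ) : ℤ) = r ^ 2 - s ^ 2` as `s < r`). -/
theorem small_contra {ε θ X₁ : ℝ} (hε : 0 < ε) (hε2 : ε ≤ 1 / 2) (hθ : 0 ≤ θ) (hθ1 : θ < 1) :
    ∃ L₀ : ℝ, ∀ r s k G H x y z d : ℕ,
    1 ≤ s → s < r → r.Coprime s → 1 ≤ k → 1 ≤ G → G ≤ 2 ^ x → 2 ≤ H → H ≤ 2 ^ x → y + d = z →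
    1 ≤ d → 1 ≤ y → z < x → x < 2 * z →
    k ^ d * (r ^ 2 + s ^ 2) ^ z = G * (r ^ 2 - s ^ 2) ^ y + k ^ (x - y) * H * (r * s) ^ x →
    (s : ℝ) ≤ (r : ℝ) ^ θ →
    (d : ℝ) * (Real.log k + 2 * Real.log s) ≤ (1 - ε) * x * (Real.log r - Real.log s) →
    (x : ℝ) ≤ X₁ → L₀ ≤ Real.log r → False := by
  have hl2 : 0 < Real.log 2 := Real.log_pos (by norm_num)
  have h1θ : 0 < 1 - θ := by linarith
  have hεθ : 0 < ε * (1 - θ) := mul_pos hε h1θ
  refine ⟨(Real.log 2 + 1) / (ε * (1 - θ)) + (4 * |X₁| + 1) * Real.log 2 +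
    8 * X₁ ^ 2 * Real.log 2 / (1 - θ), ?_⟩
  intro r s k G H x y z d hs hsr hcop hk hG hG2 hH hH2 hyz hd hy hzx hxz heq hsθ hdk hX hL
  set L := Real.log r with hLdef
  set S := Real.log s with hSdef
  have t1 : 0 < (Real.log 2 + 1) / (ε * (1 - θ)) := by positivity
  have t2 : 0 ≤ (4 * |X₁| + 1) * Real.log 2 := by positivity
  have t3 : 0 ≤ 8 * X₁ ^ 2 * Real.log 2 / (1 - θ) := by positivity
  have hLpos : 0 < L := by linarith
  have ha : Real.log 2 < ε * (1 - θ) * L := by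
    have h1 : (Real.log 2 + 1) / (ε * (1 - θ)) ≤ L := by linarith
    rw [div_le_iff₀ hεθ] at h1
    linarith
  have hb : (4 * |X₁| + 1) * Real.log 2 ≤ L := by linarith
  have hc : 8 * X₁ ^ 2 * Real.log 2 ≤ (1 - θ) * L := by
    have h1 : 8 * X₁ ^ 2 * Real.log 2 / (1 - θ) ≤ L := by linarith
    rw [div_le_iff₀ h1θ] at h1
    linarith
  have hr0 : (0 : ℝ) < r := by
    have : 0 < r := by omega
    exact_mod_cast this
  have hs0 : (0 : ℝ) < s := by
    have : 0 < s := by omega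
    exact_mod_cast this
  have hk0 : (0 : ℝ) < k := by
    have : 0 < k := by omega
    exact_mod_cast this
  have hS0 : 0 ≤ S := Real.log_nonneg (by exact_mod_cast hs)
  have hSθ : S ≤ θ * L := by
    have h1 := Real.log_le_log hs0 hsθ
    rwa [Real.log_rpow hr0] at h1
  have hSL : (1 - θ) * L ≤ L - S := by linarith
  have hx3 : 3 ≤ x := by omega
  have hxR : (1 : ℝ) ≤ x := by
    have : 1 ≤ x := by omega
    exact_mod_cast this
  have hx0 : (0 : ℝ) ≤ x := by linarith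
  set n := (x - 1) / 2 with hn
  have hn1 : 1 ≤ n := by omega
  have hn2 : 2 * n ≤ x - 1 := by omega
  have hn2R : 2 * (n : ℝ) ≤ x - 1 := by
    have h1 : 2 * n + 1 ≤ x := by omega
    have h2 : 2 * (n : ℝ) + 1 ≤ x := by exact_mod_cast h1
    linarith
  -- divisibility
  have hdiv : (r : ℤ) ^ x ∣ (k : ℤ) ^ d * ((r : ℤ) ^ 2 + (s : ℤ) ^ 2) ^ z -
      (G : ℤ) * ((r : ℤ) ^ 2 - (s : ℤ) ^ 2) ^ y := by
    have hle : s ^ 2 ≤ r ^ 2 := Nat.pow_le_pow_left hsr.le 2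
    have h1 : ((k ^ d * (r ^ 2 + s ^ 2) ^ z : ℕ) : ℤ) =
        ((G * (r ^ 2 - s ^ 2) ^ y + k ^ (x - y) * H * (r * s) ^ x : ℕ) : ℤ) := by rw [heq]
    push_cast [Nat.cast_sub hle] at h1
    refine ⟨(k : ℤ) ^ (x - y) * H * (s : ℤ) ^ x, ?_⟩
    rw [h1, mul_pow]
    ring
  -- the size condition
  have hlt : (k : ℝ) ^ d * (s : ℝ) ^ (2 * (d + n)) + 2 ^ (4 * x) * (r : ℝ) ^ (2 * n) <
      (r : ℝ) ^ x := by
    have h1 : (k : ℝ) ^ d * (s : ℝ) ^ (2 * (d + n)) < (r : ℝ) ^ x / 2 := by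
      have hp1 : 0 < (k : ℝ) ^ d * (s : ℝ) ^ (2 * (d + n)) := by positivity
      have hp2 : 0 < (r : ℝ) ^ x / 2 := by positivity
      rw [← Real.log_lt_log_iff hp1 hp2, Real.log_mul (by positivity) (by positivity),
        Real.log_pow, Real.log_pow, Real.log_div (by positivity) (by norm_num), Real.log_pow]
      push_cast
      rw [← hLdef, ← hSdef]
      have e1 : (d : ℝ) * Real.log k + 2 * ((d : ℝ) + n) * S =
          (d : ℝ) * (Real.log k + 2 * S) + (2 * n) * S := by ring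
      rw [e1]
      have e2 : (2 * (n : ℝ)) * S ≤ (x - 1) * S := mul_le_mul_of_nonneg_right hn2R hS0
      have e3 : ε * (1 - θ) * L ≤ ε * x * (L - S) := by
        have e4 : ε * (1 - θ) * L ≤ ε * (L - S) := by
          calc ε * (1 - θ) * L = ε * ((1 - θ) * L) := by ring
            _ ≤ ε * (L - S) := mul_le_mul_of_nonneg_left hSL hε.le
        have e5 : ε * (L - S) ≤ ε * x * (L - S) := by
          have e6 : 0 ≤ ε * (L - S) := by
            have : 0 ≤ (1 - θ) * L := by positivity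
            exact mul_nonneg hε.le (by linarith)
          nlinarith
        linarith
      nlinarith
    have h2 : 2 ^ (4 * x) * (r : ℝ) ^ (2 * n) ≤ (r : ℝ) ^ x / 2 := by
      have h3 : (2 : ℝ) ^ (4 * x + 1) ≤ r := by
        rw [← Real.log_le_log_iff (by positivity) hr0, Real.log_pow]
        push_cast
        have h4 : (x : ℝ) ≤ |X₁| := hX.trans (le_abs_self _)
        have h5 : (4 * (x : ℝ) + 1) * Real.log 2 ≤ (4 * |X₁| + 1) * Real.log 2 :=
          mul_le_mul_of_nonneg_right (by linarith) hl2.le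
        linarith
      have h1r : (1 : ℝ) ≤ r := by
        have : 1 ≤ r := by omega
        exact_mod_cast this
      have h4 : (r : ℝ) ^ (2 * n) ≤ (r : ℝ) ^ (x - 1) := pow_le_pow_right₀ h1r hn2
      have h5 : (r : ℝ) ^ x = r * (r : ℝ) ^ (x - 1) := by
        rw [← pow_succ']
        congr 1
        omega
      have h6 : (2 : ℝ) ^ (4 * x + 1) * (r : ℝ) ^ (2 * n) ≤ r * (r : ℝ) ^ (x - 1) :=
        mul_le_mul h3 h4 (by positivity) hr0.le
      rw [h5]
      rw [pow_succ] at h6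
      linarith
    linarith
  have hE := small_EE (G := G) hs hsr hcop hyz (by omega) hzx hn hG2 hdiv hlt
  obtain ⟨F, hF1, hF2, hlo, hup⟩ := small_size hs hsr hyz (by omega) hzx hn hn1 hG hG2 hE
  refine small_false hs hsr hk hyz hd hy hzx hxz hn hG hG2 hH hH2 heq ?_ hF1 hF2 hlo hup
  have h1 : ((2 : ℝ) ^ (8 * x ^ 2) * s) ≤ r := by
    rw [← Real.log_le_log_iff (by positivity) hr0, Real.log_mul (by positivity) (by positivity),
      Real.log_pow]
    push_cast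
    rw [← hLdef, ← hSdef]
    have h2 : (x : ℝ) ^ 2 ≤ X₁ ^ 2 := pow_le_pow_left₀ hx0 hX 2
    have h3 : 8 * (x : ℝ) ^ 2 * Real.log 2 ≤ 8 * X₁ ^ 2 * Real.log 2 :=
      mul_le_mul_of_nonneg_right (by linarith) hl2.le
    linarith
  exact_mod_cast h1

end J91
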