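import Pool.Agent.LibJ91.Defs
import Pool.Agent.LibJB95.A6

namespace J91

/-- Row N6. Logarithmic form of the two size relations. First: `k ^ d` divides `G (r² - s²) ^ y`
(by `heq`, as `d ≤ x - y`), which is positive and at most `2 ^ x r ^ (2 y)`. Second: logarithm of
`h2`, `x + 1 ≤ 2 x`. -/
theorem log_ineqs {r s k G H x y z d : ℕ} (hs : 1 ≤ s) (hsr : s < r) (hk : 1 ≤ k) (hG : 1 ≤ G)
    (hG2 : G ≤ 2 ^ x) (hyz : y + d = z) (hzx : z < x)
    (heq : k ^ d * (r ^ 2 + s ^ 2) ^ z = G * (r ^ 2 - s ^ 2) ^ y + k ^ (x - y) * H * (r * s) ^ x)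
    (h2 : r ^ (2 * z) ≤ 2 ^ (x + 1) * k ^ (x - z) * (r * s) ^ x) :
    (d : ℝ) * Real.log k ≤ 2 * y * Real.log r + x * Real.log 2 ∧
    (z : ℝ) * (Real.log k + 2 * Real.log r) ≤
      x * (Real.log k + Real.log r + Real.log s) + 2 * x * Real.log 2 := by
  have hl2 : 0 < Real.log 2 := Real.log_pos (by norm_num)
  have hr0 : (0 : ℝ) < r := by
    have : 0 < r := by omega
    exact_mod_cast this
  have hs0 : (0 : ℝ) < s := by
    have : 0 < s := by omega
    exact_mod_cast this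
  have hk0 : (0 : ℝ) < k := by
    have : 0 < k := by omega
    exact_mod_cast this
  constructor
  · have hdvd : k ^ d ∣ G * (r ^ 2 - s ^ 2) ^ y := by
      have h1 : k ^ d ∣ G * (r ^ 2 - s ^ 2) ^ y + k ^ (x - y) * H * (r * s) ^ x := by
        rw [← heq]
        exact Dvd.intro _ rfl
      have h3 : k ^ d ∣ k ^ (x - y) * H * (r * s) ^ x :=
        Dvd.dvd.mul_right (Dvd.dvd.mul_right (pow_dvd_pow k (by omega)) _) _
      exact (Nat.dvd_add_left h3).mp h1
    have hlt : s ^ 2 < r ^ 2 := Nat.pow_lt_pow_left hsr (by norm_num)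
    have hpos : 0 < G * (r ^ 2 - s ^ 2) ^ y :=
      Nat.mul_pos (by omega) (Nat.pow_pos (by omega))
    have h4 : k ^ d ≤ 2 ^ x * (r ^ 2) ^ y :=
      (Nat.le_of_dvd hpos hdvd).trans
        (Nat.mul_le_mul hG2 (Nat.pow_le_pow_left (Nat.sub_le _ _) _))
    have h5 : ((k : ℝ)) ^ d ≤ 2 ^ x * ((r : ℝ) ^ 2) ^ y := by exact_mod_cast h4
    have h6 := Real.log_le_log (pow_pos hk0 d) h5
    rw [Real.log_pow, Real.log_mul (by positivity) (by positivity), Real.log_pow, Real.log_pow,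
      Real.log_pow] at h6
    push_cast at h6
    linarith
  · have h5 : ((r : ℝ)) ^ (2 * z) ≤ 2 ^ (x + 1) * (k : ℝ) ^ (x - z) * ((r : ℝ) * s) ^ x := by
      exact_mod_cast h2
    have h6 := Real.log_le_log (pow_pos hr0 _) h5
    rw [Real.log_pow, Real.log_mul (by positivity) (by positivity),
      Real.log_mul (by positivity) (by positivity), Real.log_pow, Real.log_pow,
      Real.log_pow, Real.log_mul hr0.ne' hs0.ne'] at h6
    push_cast [Nat.cast_sub hzx.le] at h6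
    have hx1 : (1 : ℝ) ≤ x := by
      have : 1 ≤ x := by omega
      exact_mod_cast this
    nlinarith

/-- Row N6. The exponents are small: `JB95.exp_bound` gives `x ≤ K (log (k C)) ^ (9 / 4)`, with
`log (k C) ≤ (1 + κ) log C ≤ (1 + κ) (log 2 + 2 log r)`, and `log` of this is `≤ log r / 2` minus
`log 4` for `r` large (`isLittleO_log_id_atTop`, or `u ^ (9 / 4) * const ≤ exp (u / 2)` for large
`u`). -/
theorem exp_small {κ : ℝ} (hκ : 0 ≤ κ) : ∃ L₀ : ℝ, ∀ A B C k x y z r : ℕ,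
    JB95.Sol (k * A) (k * B) (k * C) x y z → 1 ≤ k → (k : ℝ) ≤ (C : ℝ) ^ κ → C ≤ 2 * r ^ 2 →
    L₀ ≤ Real.log r → Real.log (4 * x) ≤ Real.log r / 2 := by
  obtain ⟨K, hK, hb⟩ := JB95.exp_bound
  have hl2 : Real.log 2 ≤ 1 := by
    have := Real.log_two_lt_d9
    linarith
  refine ⟨384 * (4 * K * (3 * (1 + κ)) ^ 3) + 1, ?_⟩
  intro A B C k x y z r hsol hk hkκ hC hL
  set L := Real.log r with hLdef
  have hM : 0 < 4 * K * (3 * (1 + κ)) ^ 3 := by positivity
  have hL1 : 1 ≤ L := by linarith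
  obtain ⟨hA, hB, hABC, hx, -, -, -, -⟩ := id hsol
  have hkC : 0 < k * C := by
    rcases Nat.eq_zero_or_pos (k * C) with h0 | h0
    · rw [h0] at hABC
      have : 0 < (k * A) ^ 2 := Nat.pow_pos hA
      omega
    · exact h0
  have hC0 : 0 < C := by
    rcases Nat.eq_zero_or_pos C with h1 | h1
    · rw [h1] at hkC
      omega
    · exact h1
  have hCR : (0 : ℝ) < C := by exact_mod_cast hC0
  have hC1 : (1 : ℝ) ≤ C := by exact_mod_cast hC0
  have hk0 : (0 : ℝ) < k := by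
    have : 0 < k := by omega
    exact_mod_cast this
  have hk1 : (1 : ℝ) ≤ k := by exact_mod_cast hk
  have hr0 : (0 : ℝ) < r := by
    rcases Nat.eq_zero_or_pos r with h1 | h1
    · rw [h1] at hC
      omega
    · exact_mod_cast h1
  have hlogk : Real.log k ≤ κ * Real.log C := by
    have h1 := Real.log_le_log hk0 hkκ
    rwa [Real.log_rpow hCR] at h1
  have hlogC : Real.log C ≤ Real.log 2 + 2 * L := by
    have h1 : (C : ℝ) ≤ 2 * (r : ℝ) ^ 2 := by exact_mod_cast hC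
    have h2 := Real.log_le_log hCR h1
    rw [Real.log_mul (by norm_num) (by positivity), Real.log_pow] at h2
    push_cast at h2
    exact h2
  have hlogC3 : Real.log C ≤ 3 * L := by linarith
  have hlogkC : Real.log ((k * C : ℕ) : ℝ) ≤ 3 * (1 + κ) * L := by
    push_cast
    rw [Real.log_mul hk0.ne' hCR.ne']
    nlinarith
  have hlogkC0 : 0 ≤ Real.log ((k * C : ℕ) : ℝ) := Real.log_natCast_nonneg _
  have hU : 1 ≤ 3 * (1 + κ) * L := by nlinarith
  have h1 : (x : ℝ) ≤ K * (3 * (1 + κ) * L) ^ 3 := by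
    refine ((hb _ _ _ _ _ _ hsol).1).trans ?_
    refine mul_le_mul_of_nonneg_left ?_ hK.le
    calc (Real.log ((k * C : ℕ) : ℝ)) ^ (9 / 4 : ℝ)
        ≤ (3 * (1 + κ) * L) ^ (9 / 4 : ℝ) := Real.rpow_le_rpow hlogkC0 hlogkC (by norm_num)
      _ ≤ (3 * (1 + κ) * L) ^ (3 : ℝ) := Real.rpow_le_rpow_of_exponent_le hU (by norm_num)
      _ = (3 * (1 + κ) * L) ^ 3 := by
        rw [← Real.rpow_natCast]
        norm_num
  have hL2 : 0 ≤ L / 2 := by linarith
  have hexp : (L / 2) ^ 4 / (Nat.factorial 4 : ℝ) ≤ Real.exp (L / 2) :=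
    Real.pow_div_factorial_le_exp (L / 2) hL2 4
  have hfac : (Nat.factorial 4 : ℝ) = 24 := by norm_num [Nat.factorial]
  rw [hfac] at hexp
  have hx0 : (0 : ℝ) < x := by exact_mod_cast hx
  have h2 : 4 * (x : ℝ) ≤ Real.exp (L / 2) := by
    calc 4 * (x : ℝ) ≤ (4 * K * (3 * (1 + κ)) ^ 3) * L ^ 3 := by
          calc 4 * (x : ℝ) ≤ 4 * (K * (3 * (1 + κ) * L) ^ 3) := by linarith
            _ = _ := by ring
      _ ≤ (L / 384) * L ^ 3 := by
          refine mul_le_mul_of_nonneg_right ?_ (by positivity)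
          linarith
      _ = (L / 2) ^ 4 / 24 := by ring
      _ ≤ _ := hexp
  calc Real.log (4 * x) ≤ Real.log (Real.exp (L / 2)) := Real.log_le_log (by positivity) h2
    _ = L / 2 := Real.log_exp _

end J91
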