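import Pool.Agent.LibJ91.N1
import Pool.Agent.LibJ91.N2
import Pool.Agent.LibJ91.N3
import Pool.Agent.LibJ91.N4
import Pool.Agent.LibJ91.N5
import Pool.Agent.LibJ91.N6

namespace J91

/-- Row N7. Assembly. If `(x, y, z) ≠ (2, 2, 2)` is a solution, then
`JB95.Sol (k A) (k B) (k C) x y z`; `order` gives `y < z < x < 2 z`; `param` with `d = z - y`.
`slack` gives `κ₁`, `ε`. With `L = log r`, `S = log s`, `K = log k`: `S ≤ (2 α - 1) L`,
`K ≤ κ (log 2 + 2 L) ≤ 2 κ₁ L` for `L` large (`k ≤ C ^ κ ≤ (2 r²) ^ κ`). `log_ineqs` and `key_real`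
(for `κ₁`) give `d (K + 2 S) ≤ (1 - ε) x (L - S)`. `big_false` (with `exp_small`) excludes
`x ≥ X₁`, `small_contra` with `θ = 2 α - 1` excludes `x ≤ X₁`. All thresholds on `log r` follow from
one on `C`, since `C ≤ 2 r²`. -/
theorem main {α κ : ℝ} (hα : 1 / 2 ≤ α) (hκ : 0 ≤ κ)
    (h : (κ + 2 * α - 1) * (κ + α) < (1 - α) * (1 + κ) ^ 2) : ∃ C₀ : ℝ, ∀ A B C k x y z : ℕ,
    0 < A → 0 < B → A.Coprime B → A ^ 2 + B ^ 2 = C ^ 2 → C₀ ≤ (C : ℝ) →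
    (A : ℝ) ≤ (C : ℝ) ^ α → 1 ≤ k → (k : ℝ) ≤ (C : ℝ) ^ κ → 0 < x → 0 < y → 0 < z →
    (k * A) ^ x + (k * B) ^ y = (k * C) ^ z → x = 2 ∧ y = 2 ∧ z = 2 := by
  obtain ⟨hα1, κ₁, ε, hκκ, hε, hε2, hreg⟩ := slack hα hκ h
  obtain ⟨X₁, L₁, hbig⟩ := big_false hε
  obtain ⟨L₂, hsmall⟩ := small_contra (θ := 2 * α - 1) (X₁ := X₁) hε hε2 (by linarith) (by linarith)
  obtain ⟨C₁, hord⟩ := order hα1 hκ
  obtain ⟨L₃, hexp⟩ := exp_small hκ
  obtain ⟨Λ, h1, h2, h3, h4, h5, h6⟩ : ∃ Λ : ℝ, L₁ ≤ Λ ∧ L₂ ≤ Λ ∧ L₃ ≤ Λ ∧ 1 ≤ Λ ∧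
      κ * Real.log 2 / (2 * (κ₁ - κ)) ≤ Λ ∧
      3 * (κ₁ + 2 * α - 1) * Real.log 2 / (ε * (2 - 2 * α)) ≤ Λ := by
    refine ⟨|L₁| + |L₂| + |L₃| + 1 + |κ * Real.log 2 / (2 * (κ₁ - κ))| +
      |3 * (κ₁ + 2 * α - 1) * Real.log 2 / (ε * (2 - 2 * α))|, ?_, ?_, ?_, ?_, ?_, ?_⟩
    all_goals
      have q1 := le_abs_self L₁
      have q2 := le_abs_self L₂
      have q3 := le_abs_self L₃
      have q4 := le_abs_self (κ * Real.log 2 / (2 * (κ₁ - κ)))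
      have q5 := le_abs_self (3 * (κ₁ + 2 * α - 1) * Real.log 2 / (ε * (2 - 2 * α)))
      have p1 := abs_nonneg L₁
      have p2 := abs_nonneg L₂
      have p3 := abs_nonneg L₃
      have p4 := abs_nonneg (κ * Real.log 2 / (2 * (κ₁ - κ)))
      have p5 := abs_nonneg (3 * (κ₁ + 2 * α - 1) * Real.log 2 / (ε * (2 - 2 * α)))
      linarith
  refine ⟨max C₁ (2 * Real.exp (2 * Λ)), ?_⟩
  intro A B C k x y z hA hB hcop hpyt hC hAC hk hkC hx hy hz heq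
  by_contra hne
  have hC1 : C₁ ≤ (C : ℝ) := (le_max_left _ _).trans hC
  have hC2 : 2 * Real.exp (2 * Λ) ≤ (C : ℝ) := (le_max_right _ _).trans hC
  have hsol : JB95.Sol (k * A) (k * B) (k * C) x y z := by
    refine ⟨Nat.mul_pos hk hA, Nat.mul_pos hk hB, ?_, hx, hy, hz, heq, hne⟩
    rw [mul_pow, mul_pow, mul_pow, ← mul_add, hpyt]
  obtain ⟨hyz, hzx, hxz⟩ := hord A B C k x y z hC1 hk hkC hAC hsol
  obtain ⟨d, hd⟩ : ∃ d, y + d = z := ⟨z - y, by omega⟩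
  have hd1 : 1 ≤ d := by omega
  obtain ⟨r, s, G, H, hs, hsr, hrs, hG, hG2, hH, hH2, hCr, hsr2, heq2, hsz⟩ :=
    param hα hα1 hA hB hcop hpyt hk hAC hd hd1 hy hzx heq
  have hr : 1 < r := by omega
  have hr0 : (0 : ℝ) < r := by exact_mod_cast (by omega : 0 < r)
  have hs0 : (0 : ℝ) < s := by exact_mod_cast hs
  have hk0 : (0 : ℝ) < k := by exact_mod_cast hk
  have hC0 : (0 : ℝ) < C := by
    have := Real.exp_pos (2 * Λ)
    linarith
  have hLΛ : Λ ≤ Real.log r := by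
    have e1 : Real.exp (2 * Λ) ≤ (r : ℝ) ^ 2 := by
      have : (C : ℝ) ≤ 2 * (r : ℝ) ^ 2 := by exact_mod_cast hCr
      linarith
    have e2 := Real.log_le_log (Real.exp_pos _) e1
    rw [Real.log_exp, Real.log_pow] at e2
    push_cast at e2
    linarith
  have hL0 : 0 < Real.log r := by linarith
  have hS : 0 ≤ Real.log s := Real.log_natCast_nonneg _
  have hK : 0 ≤ Real.log k := Real.log_natCast_nonneg _
  have hS2 : Real.log s ≤ (2 * α - 1) * Real.log r := by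
    have := Real.log_le_log hs0 hsr2
    rwa [Real.log_rpow hr0] at this
  have hK2 : Real.log k ≤ 2 * κ₁ * Real.log r := by
    have e1 : Real.log k ≤ κ * Real.log C := by
      have := Real.log_le_log hk0 hkC
      rwa [Real.log_rpow hC0] at this
    have e2 : Real.log C ≤ Real.log 2 + 2 * Real.log r := by
      have : (C : ℝ) ≤ 2 * (r : ℝ) ^ 2 := by exact_mod_cast hCr
      have := Real.log_le_log hC0 this
      rw [Real.log_mul (by norm_num) (by positivity), Real.log_pow] at this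
      push_cast at this
      exact this
    have e3 : κ * Real.log C ≤ κ * (Real.log 2 + 2 * Real.log r) :=
      mul_le_mul_of_nonneg_left e2 hκ
    have e4 : κ * Real.log 2 ≤ Real.log r * (2 * (κ₁ - κ)) := by
      rw [← div_le_iff₀ (by linarith)]
      linarith
    nlinarith
  obtain ⟨g1, g2⟩ := log_ineqs hs hsr hk hG hG2 hd hzx heq2 hsz
  have hL2 : 3 * (κ₁ + 2 * α - 1) * Real.log 2 ≤ ε * (2 - 2 * α) * Real.log r := by
    have hpos : 0 < ε * (2 - 2 * α) := mul_pos hε (by linarith)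
    have : 3 * (κ₁ + 2 * α - 1) * Real.log 2 ≤ Real.log r * (ε * (2 - 2 * α)) := by
      rw [← div_le_iff₀ hpos]
      linarith
    linarith
  have hdR : (y : ℝ) + d = z := by exact_mod_cast hd
  have key := key_real hα hα1 (hκ.trans hκκ.le) hε hε2 hreg hL0 hL2 hS hS2 hK hK2
    (Nat.cast_nonneg x) (Nat.cast_nonneg y) (Nat.cast_nonneg d) hdR g1 g2
  rcases le_total X₁ (x : ℝ) with hX | hX
  · have hlog := hexp A B C k x y z r hsol hk hkC hCr (h3.trans hLΛ)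
    refine hbig r s k G x y z d hs hsr hrs hk hG hG2 hd hzx hxz ?_ key hX (h1.trans hLΛ) hlog
    have hcast : ((r ^ 2 - s ^ 2 : ℕ) : ℤ) = (r : ℤ) ^ 2 - (s : ℤ) ^ 2 := by
      rw [Nat.cast_sub (Nat.pow_le_pow_left hsr.le 2)]
      push_cast
      ring
    have e1 : (k : ℤ) ^ d * ((r : ℤ) ^ 2 + (s : ℤ) ^ 2) ^ z =
        (G : ℤ) * ((r : ℤ) ^ 2 - (s : ℤ) ^ 2) ^ y + (k : ℤ) ^ (x - y) * H * ((r : ℤ) * s) ^ x := by
      rw [← hcast]
      exact_mod_cast heq2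
    rw [e1, add_sub_cancel_left, mul_pow]
    exact Dvd.intro_left ((k : ℤ) ^ (x - y) * H * (s : ℤ) ^ x) (by ring)
  · exact hsmall r s k G H x y z d hs hsr hrs hk hG hG2 hH hH2 hd hd1 hy hzx hxz heq2 hsr2 key hX
      (h2.trans hLΛ)

end J91
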