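import Pool.Agent.LibJ91.F1
import Pool.Agent.LibJ91.L1

open Polynomial

namespace J91

private theorem S1_siegel {α β : Type*} [Fintype α] [Fintype β] (A : Matrix α β ℤ) (B : ℝ)
    (hB : 1 ≤ B) (hA : ∀ i j, |(A i j : ℝ)| ≤ B) (hn : Fintype.card α < Fintype.card β)
    (hm : 0 < Fintype.card α) :
    ∃ t : β → ℤ, t ≠ 0 ∧ A.mulVec t = 0 ∧ ‖t‖ ≤ (Fintype.card β * B) ^
      ((Fintype.card α : ℝ) / ((Fintype.card β : ℝ) - Fintype.card α)) := by
  obtain ⟨t, ht0, htA, htn⟩ := Int.Matrix.exists_ne_zero_int_vec_norm_le A hn hm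
  refine ⟨t, ht0, htA, htn.trans ?_⟩
  have hnR : (Fintype.card α : ℝ) < Fintype.card β := by exact_mod_cast hn
  refine Real.rpow_le_rpow ?_ ?_ (div_nonneg (Nat.cast_nonneg _) (by linarith))
  · exact mul_nonneg (Nat.cast_nonneg _) (le_trans zero_le_one (le_max_left _ _))
  · refine mul_le_mul_of_nonneg_left (max_le hB ?_) (Nat.cast_nonneg _)
    refine (Matrix.norm_le_iff (by linarith)).2 ?_
    intro i j
    rw [Int.norm_eq_abs]
    exact hA i j

private theorem S1_coeff {N : ℕ} (t : Fin N → ℤ) (j : ℕ) :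
    (∑ l : Fin N, C (t l) * X ^ (l : ℕ) : ℤ[X]).coeff j = if h : j < N then t ⟨j, h⟩ else 0 := by
  rw [finsetSum_coeff]
  by_cases h : j < N
  · rw [dif_pos h, Finset.sum_eq_single (⟨j, h⟩ : Fin N)]
    · simp
    · intro b _ hb
      rw [coeff_C_mul, coeff_X_pow, if_neg, mul_zero]
      intro hh
      exact hb (Fin.ext hh.symm)
    · intro hh
      exact absurd (Finset.mem_univ _) hh
  · rw [dif_neg h]
    apply Finset.sum_eq_zero
    intro b _
    rw [coeff_C_mul, coeff_X_pow, if_neg, mul_zero]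
    intro hh
    exact h (hh ▸ b.2)

/-- Row S1. Siegel's lemma (`Int.Matrix.exists_ne_zero_int_vec_norm_le` with `10 ν + 1` unknowns
and `9 ν` equations): the matrix `A : Matrix (Fin (9 ν)) (Fin (10 ν + 1)) ℤ`,
`A i l = fc y z (n₂ + 1 + i - l)` if `l ≤ n₂ + 1 + i` and `0` otherwise, has entries of absolute
value at most `2 ^ M` (`fc_size`), and the exponent is `9 ν / (ν + 1) ≤ 9`. For a model of the use
of that lemma see `Pool/Agent/LibCN21/R18.lean` (theorem `siegel3`) in the graded repository. The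
polynomial is `∑ l, C (t l) * X ^ l`; its norm is at most `(10 ν + 1)` times the bound of the
coefficients. -/
theorem siegel_p {y z n₂ ν M : ℕ} (hz : 1 ≤ z) (hν : 1 ≤ ν) (hM : y + z + n₂ + 9 * ν ≤ M) :
    ∃ p : ℤ[X], p ≠ 0 ∧ p.natDegree ≤ 10 * ν ∧
      (∀ i, n₂ < i → i ≤ n₂ + 9 * ν →
        ∑ l ∈ Finset.range (i + 1), p.coeff l * fc y z (i - l) = 0) ∧
      nrm p ≤ (10 * ν + 1) * ((10 * ν + 1) * 2 ^ M) ^ 9 := by
  classical
  set N : ℕ := 10 * ν + 1 with hN
  set A : Matrix (Fin (9 * ν)) (Fin N) ℤ := Matrix.of fun k l =>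
    if (l : ℕ) ≤ n₂ + 1 + (k : ℕ) then fc y z (n₂ + 1 + k - l) else 0 with hA
  have hcard1 : Fintype.card (Fin (9 * ν)) = 9 * ν := Fintype.card_fin _
  have hcard2 : Fintype.card (Fin N) = N := Fintype.card_fin _
  have hAn : ∀ k l, |(A k l : ℝ)| ≤ (2 : ℝ) ^ M := by
    intro k l
    rw [hA, Matrix.of_apply]
    split_ifs with hkl
    · obtain ⟨F, hF1, hF2, hF3⟩ := fc_size y hz (n₂ + 1 + (k : ℕ) - l)
      rw [hF3]
      push_cast
      rw [abs_mul, abs_pow, abs_neg, abs_one, one_pow, one_mul, abs_of_nonneg (Nat.cast_nonneg F)]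
      have hk := k.2
      calc (F : ℝ) ≤ ((2 ^ (y + z + (n₂ + 1 + (k : ℕ) - l)) : ℕ) : ℝ) := by exact_mod_cast hF2
        _ = (2 : ℝ) ^ (y + z + (n₂ + 1 + (k : ℕ) - l)) := by push_cast; rfl
        _ ≤ (2 : ℝ) ^ M := by
            apply pow_le_pow_right₀ (by norm_num)
            omega
    · simp
  have h2M : (1 : ℝ) ≤ 2 ^ M := one_le_pow₀ (by norm_num)
  obtain ⟨t, ht0, htA, htn⟩ := S1_siegel A ((2 : ℝ) ^ M) h2M hAn
    (by rw [hcard1, hcard2]; omega) (by rw [hcard1]; omega)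
  have hbound : ‖t‖ ≤ ((10 * ν + 1 : ℝ) * 2 ^ M) ^ 9 := by
    refine htn.trans ?_
    rw [hcard1, hcard2]
    have hN1 : ((N : ℕ) : ℝ) = 10 * ν + 1 := by rw [hN]; push_cast; ring
    have h0 : (0 : ℝ) ≤ ν := Nat.cast_nonneg _
    have hb1 : (1 : ℝ) ≤ (10 * ν + 1 : ℝ) * 2 ^ M :=
      one_le_mul_of_one_le_of_one_le (by linarith) h2M
    have hexp : (((9 * ν : ℕ) : ℝ)) / (((N : ℕ) : ℝ) - ((9 * ν : ℕ) : ℝ)) ≤ (9 : ℝ) := by
      have h1 : ((N : ℕ) : ℝ) - ((9 * ν : ℕ) : ℝ) = ν + 1 := by rw [hN1]; push_cast; ring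
      rw [h1, div_le_iff₀ (by linarith)]
      push_cast
      linarith
    calc (((N : ℕ) : ℝ) * 2 ^ M) ^ ((((9 * ν : ℕ) : ℝ)) / (((N : ℕ) : ℝ) - ((9 * ν : ℕ) : ℝ)))
        ≤ (((N : ℕ) : ℝ) * 2 ^ M) ^ (9 : ℝ) :=
          Real.rpow_le_rpow_of_exponent_le (by rw [hN1]; exact hb1) hexp
      _ = ((10 * ν + 1 : ℝ) * 2 ^ M) ^ 9 := by
          rw [hN1, ← Real.rpow_natCast]; norm_num
  set p : ℤ[X] := ∑ l : Fin N, C (t l) * X ^ (l : ℕ) with hp
  have hcoeff : ∀ j, p.coeff j = if h : j < N then t ⟨j, h⟩ else 0 := fun j => S1_coeff t j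
  have hdeg : p.natDegree ≤ 10 * ν := by
    rw [natDegree_le_iff_coeff_eq_zero]
    intro j hj
    rw [hcoeff, dif_neg (by omega)]
  refine ⟨p, ?_, hdeg, ?_, ?_⟩
  · intro hp0
    apply ht0
    funext l
    have h1 := hcoeff (l : ℕ)
    rw [hp0, dif_pos l.2, coeff_zero] at h1
    exact h1.symm
  · intro i hi1 hi2
    have hk : i - (n₂ + 1) < 9 * ν := by omega
    have h1 := congrFun htA ⟨i - (n₂ + 1), hk⟩
    rw [Matrix.mulVec, dotProduct, Pi.zero_apply] at h1
    have h2 : ∀ l : Fin N, A ⟨i - (n₂ + 1), hk⟩ l * t l =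
        (fun m : ℕ => if m ≤ i then p.coeff m * fc y z (i - m) else 0) (l : ℕ) := by
      intro l
      have e1 : n₂ + 1 + (i - (n₂ + 1)) = i := by omega
      simp only [hA, Matrix.of_apply]
      rw [e1, hcoeff, dif_pos l.2]
      split_ifs with h
      · rw [mul_comm]
      · rw [zero_mul]
    rw [Finset.sum_congr rfl (fun l _ => h2 l),
      Fin.sum_univ_eq_sum_range (fun m : ℕ => if m ≤ i then p.coeff m * fc y z (i - m) else 0) N] at h1
    have h3 : ∑ m ∈ Finset.range (max N (i + 1)),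
        (if m ≤ i then p.coeff m * fc y z (i - m) else 0) =
        ∑ m ∈ Finset.range N, (if m ≤ i then p.coeff m * fc y z (i - m) else 0) := by
      symm
      apply Finset.sum_subset (Finset.range_subset_range.2 (le_max_left _ _))
      intro m _ hm
      rw [Finset.mem_range] at hm
      rw [hcoeff, dif_neg hm]
      simp
    have h4 : ∑ m ∈ Finset.range (max N (i + 1)),
        (if m ≤ i then p.coeff m * fc y z (i - m) else 0) =
        ∑ m ∈ Finset.range (i + 1), (if m ≤ i then p.coeff m * fc y z (i - m) else 0) := by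
      symm
      apply Finset.sum_subset (Finset.range_subset_range.2 (le_max_right _ _))
      intro m _ hm
      rw [Finset.mem_range] at hm
      rw [if_neg (by omega)]
    rw [h3, h1] at h4
    rw [h4]
    apply Finset.sum_congr rfl
    intro m hm
    rw [Finset.mem_range] at hm
    rw [if_pos (by omega)]
  · rw [nrm_eq_sum p (10 * ν) hdeg]
    calc ∑ i ∈ Finset.range (10 * ν + 1), |(p.coeff i : ℝ)|
        ≤ ∑ i ∈ Finset.range (10 * ν + 1), ((10 * ν + 1 : ℝ) * 2 ^ M) ^ 9 := by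
          apply Finset.sum_le_sum
          intro i hi
          rw [Finset.mem_range] at hi
          rw [hcoeff, dif_pos hi]
          have h5 : ‖t ⟨i, hi⟩‖ ≤ ‖t‖ := norm_le_pi_norm t _
          rw [Int.norm_eq_abs] at h5
          exact h5.trans hbound
      _ = (10 * ν + 1) * ((10 * ν + 1) * 2 ^ M) ^ 9 := by
          rw [Finset.sum_const, Finset.card_range, nsmul_eq_mul]
          push_cast
          ring

end J91
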