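import Pool.Agent.LibJ91.Defs

open Polynomial

namespace J91

private theorem W1_dplus (z : ℕ) :
    derivative ((1 + X : ℤ[X]) ^ z) * (1 + X) = C (z : ℤ) * (1 + X) ^ z := by
  cases z with
  | zero => simp
  | succ k =>
    rw [derivative_pow_succ]
    simp only [derivative_add, derivative_one, derivative_X, zero_add, mul_one]
    push_cast
    rw [pow_succ]
    simp only [map_add, map_one, map_natCast]
    ring

private theorem W1_dminus (y : ℕ) :
    derivative ((1 - X : ℤ[X]) ^ y) * (1 - X) = - C (y : ℤ) * (1 - X) ^ y := by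
  cases y with
  | zero => simp
  | succ k =>
    rw [derivative_pow_succ]
    simp only [derivative_sub, derivative_one, derivative_X, zero_sub, mul_neg, mul_one]
    push_cast
    rw [pow_succ]
    simp only [map_add, map_one, map_natCast]
    ring

/-- Row W1. `Del` is, up to the factors, the Wronskian of `U = q (1 + T) ^ z` and
`V = p (1 - T) ^ y`. (`derivative ((1 - X) ^ y) * (1 - X) = - C y * (1 - X) ^ y` and
`derivative ((1 + X) ^ z) * (1 + X) = C z * (1 + X) ^ z`.) -/
theorem Del_wronskian (y z : ℕ) (p q : ℤ[X]) :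
    (1 - X ^ 2) * (derivative (q * (1 + X) ^ z) * (p * (1 - X) ^ y) -
      q * (1 + X) ^ z * derivative (p * (1 - X) ^ y)) =
    (1 + X) ^ z * (1 - X) ^ y * Del y z p q := by
  have hA := W1_dplus z
  have hB := W1_dminus y
  unfold Del stQ stP
  rw [derivative_mul, derivative_mul]
  generalize derivative ((1 + X : ℤ[X]) ^ z) = A' at hA ⊢
  generalize derivative ((1 - X : ℤ[X]) ^ y) = B' at hB ⊢
  generalize ((1 + X : ℤ[X]) ^ z) = A at hA ⊢
  generalize ((1 - X : ℤ[X]) ^ y) = B at hB ⊢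
  linear_combination (1 - X) * q * p * B * hA - (1 + X) * q * A * p * hB

private theorem W1_dpow (u : ℕ) :
    derivative ((X - C (-1) : ℤ[X]) ^ u) * (X - C (-1)) = C (u : ℤ) * (X - C (-1)) ^ u := by
  cases u with
  | zero => simp
  | succ k =>
    rw [derivative_pow_succ]
    simp only [derivative_sub, derivative_C, derivative_X, sub_zero, mul_one]
    rw [pow_succ]
    push_cast
    simp only [map_add, map_one, map_natCast]
    ring

private theorem W1_contra (u v : ℕ) (U0 V0 : ℤ[X]) (hU : ¬ (X - C (-1) : ℤ[X]) ∣ U0)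
    (hV : ¬ (X - C (-1) : ℤ[X]) ∣ V0) (huv : v < u)
    (h : derivative ((X - C (-1)) ^ u * U0) * ((X - C (-1)) ^ v * V0) =
      (X - C (-1)) ^ u * U0 * derivative ((X - C (-1)) ^ v * V0)) : False := by
  have h1 := W1_dpow u
  have h2 := W1_dpow v
  rw [derivative_mul, derivative_mul] at h
  have hL : (X - C (-1) : ℤ[X]) ≠ 0 := X_sub_C_ne_zero _
  have h3 : (X - C (-1) : ℤ[X]) ^ u * (X - C (-1) : ℤ[X]) ^ v *
      ((C (u : ℤ) - C (v : ℤ)) * (U0 * V0) +
        (X - C (-1)) * (derivative U0 * V0 - U0 * derivative V0)) = 0 := by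
    generalize derivative ((X - C (-1) : ℤ[X]) ^ u) = A' at h h1
    generalize derivative ((X - C (-1) : ℤ[X]) ^ v) = B' at h h2
    generalize ((X - C (-1) : ℤ[X]) ^ u) = A at h h1 ⊢
    generalize ((X - C (-1) : ℤ[X]) ^ v) = B at h h2 ⊢
    linear_combination (X - C (-1)) * h - U0 * B * V0 * h1 + A * U0 * V0 * h2
  have h4 : (C (u : ℤ) - C (v : ℤ)) * (U0 * V0) +
        (X - C (-1)) * (derivative U0 * V0 - U0 * derivative V0) = 0 := by
    rcases mul_eq_zero.1 h3 with h5 | h5
    · exact absurd h5 (mul_ne_zero (pow_ne_zero _ hL) (pow_ne_zero _ hL))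
    · exact h5
  have h5 := congrArg (Polynomial.eval (-1)) h4
  rw [dvd_iff_isRoot] at hU hV
  simp only [eval_add, eval_mul, eval_sub, eval_X, eval_C, eval_zero, sub_self, zero_mul,
    add_zero] at h5
  rcases mul_eq_zero.1 h5 with h6 | h6
  · omega
  · rcases mul_eq_zero.1 h6 with h7 | h7
    · exact hU h7
    · exact hV h7

/-- Row W1. `Del ≠ 0`. Suppose `Del = 0`. Then `U' V = U V'` for `U = q (1 + T) ^ z`,
`V = p (1 - T) ^ y`. First `q ≠ 0`: otherwise `X ^ m ∣ p (1 - X) ^ y`, so `X ^ m ∣ p`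
(coprime to `1 - X`), against `natDegree p < m`, `p ≠ 0`. So `U, V ≠ 0`. Compare the root
multiplicities at `-1` (in `ℤ[X]` or `ℚ[X]`): if `U = (X + 1) ^ u U₀`, `V = (X + 1) ^ v V₀` with
`U₀(-1), V₀(-1) ≠ 0`, then `U' V - U V' = (X + 1) ^ (u + v - 1) ((u - v) U₀ V₀ + (X + 1) (...))`, so
`u = v`. But `u ≥ z` and `v` is the multiplicity of `-1` in `p` (as `(1 - X) ^ y` is nonzero at
`-1`), so `v ≤ natDegree p < z`, a contradiction. -/
theorem Del_ne_zero {y z m : ℕ} {p q : ℤ[X]} (hp0 : p ≠ 0) (hpz : p.natDegree < z)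
    (hpm : p.natDegree < m) (hR : X ^ m ∣ RR y z p q) : Del y z p q ≠ 0 := by
  intro hD
  have hW := Del_wronskian y z p q
  rw [hD, mul_zero] at hW
  have hX2 : (1 - X ^ 2 : ℤ[X]) ≠ 0 := by
    intro h
    have h1 := congrArg (Polynomial.eval 0) h
    simp at h1
  have hW2 : derivative (q * (1 + X) ^ z) * (p * (1 - X) ^ y) =
      q * (1 + X) ^ z * derivative (p * (1 - X) ^ y) := by
    rcases mul_eq_zero.1 hW with h | h
    · exact absurd h hX2
    · exact sub_eq_zero.1 h
  have hq0 : q ≠ 0 := by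
    rintro rfl
    unfold RR at hR
    rw [zero_mul, sub_zero] at hR
    have hcop : IsCoprime ((X : ℤ[X]) ^ m) ((1 - X) ^ y) := by
      apply IsCoprime.pow
      exact ⟨1, 1, by ring⟩
    have h1 : (X : ℤ[X]) ^ m ∣ p := hcop.dvd_of_dvd_mul_right hR
    have h2 := natDegree_le_of_dvd h1 hp0
    rw [natDegree_X_pow] at h2
    omega
  have hpl : (1 + X : ℤ[X]) = X - C (-1) := by
    rw [C_neg, C_1]
    ring
  rw [hpl] at hW2
  obtain ⟨q0, hq, hq1⟩ := exists_eq_pow_rootMultiplicity_mul_and_not_dvd q hq0 (-1)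
  obtain ⟨p0, hp, hp1⟩ := exists_eq_pow_rootMultiplicity_mul_and_not_dvd p hp0 (-1)
  set u := rootMultiplicity (-1) q with hu
  set v := rootMultiplicity (-1) p with hv
  have hvz : v < z := by
    have h1 : (X - C (-1) : ℤ[X]) ^ v ∣ p := ⟨p0, hp⟩
    have h2 := natDegree_le_of_dvd h1 hp0
    rw [natDegree_pow, natDegree_X_sub_C, mul_one] at h2
    omega
  refine W1_contra (u + z) v q0 (p0 * (1 - X) ^ y) hq1 ?_ (by omega) ?_
  · rw [dvd_iff_isRoot] at hp1 ⊢
    intro h
    rw [IsRoot.def, eval_mul] at h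
    rcases mul_eq_zero.1 h with h1 | h1
    · exact hp1 h1
    · rw [eval_pow, eval_sub, eval_one, eval_X] at h1
      norm_num at h1
  · have e1 : (X - C (-1) : ℤ[X]) ^ (u + z) * q0 = q * (X - C (-1)) ^ z := by
      conv_rhs => rw [hq]
      rw [pow_add]
      ring
    have e2 : (X - C (-1) : ℤ[X]) ^ v * (p0 * (1 - X) ^ y) = p * (1 - X) ^ y := by
      conv_rhs => rw [hp]
      ring
    rw [e1, e2]
    exact hW2

end J91
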